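import Pool.Agent.W_cd7020_h81b.SmpB

/-!
# Sampling of pools
-/

set_option autoImplicit false

namespace Pool.Agent.W_cd7020_h81k

open Finset Pool.Agent.W_cd7020_h81 Pool.Agent.W_cd7020_h81b

variable {V κ : Type*} [DecidableEq V] [DecidableEq κ] [Fintype V]

open Classical in
/-- The potential of six pools for matrices `Y k` and sets `bad k` of vertices; `q x` is the
expected proportion of the colours bad at `x`. -/
noncomputable def PsG (Y : κ → Matrix V V ℝ) (bad : κ → Finset V) (q : V → ℝ) (lam : ℝ)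
    (A : Fin 6 → Finset κ) : ℝ :=
  ∑ i, pot (∑ k ∈ A i, Y k) lam / Fintype.card V +
    ∑ i, (∑ x, Real.exp (lam * (((A i).filter (fun k => x ∈ bad k)).card - (A i).card * q x))) /
      Fintype.card V

theorem KSmp_qf (A : Matrix V V ℝ) (h : ∀ v : V → ℝ, ∑ a, (A.mulVec v a) ^ 2 ≤ 4 * ∑ a, v a ^ 2)
    (v : V → ℝ) : |qf A v v| ≤ 2 * ∑ a, v a ^ 2 := by
  have h1 : qf A v v = ∑ x, v x * (A.mulVec v) x := by
    unfold qf
    refine Finset.sum_congr rfl fun x _ => ?_
    rw [Matrix.mulVec, dotProduct, Finset.mul_sum]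
    exact Finset.sum_congr rfl fun y _ => by ring
  rw [h1]
  calc |∑ x, v x * (A.mulVec v) x| ≤ ∑ x, |v x * (A.mulVec v) x| := Finset.abs_sum_le_sum_abs _ _
    _ ≤ ∑ x, (v x ^ 2 + (A.mulVec v x) ^ 2 / 4) := by
        refine Finset.sum_le_sum fun x _ => ?_
        rw [abs_mul]
        have h2 := sq_nonneg (|v x| - |A.mulVec v x| / 2)
        have h3 := sq_abs (v x)
        have h4 := sq_abs (A.mulVec v x)
        nlinarith
    _ = (∑ x, v x ^ 2) + (∑ x, (A.mulVec v x) ^ 2) / 4 := by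
        rw [Finset.sum_add_distrib, Finset.sum_div]
    _ ≤ _ := by linarith [h v]

theorem KSmp_exp {x : ℝ} (hx : |x| ≤ 1) : Real.exp x ≤ 1 + x + x ^ 2 := by
  have := (abs_le.1 (Real.abs_exp_sub_one_sub_id_le hx)).2
  linarith

/-- The excess of bad colours. -/
noncomputable def KSmp_E (bad : κ → Finset V) (q : V → ℝ) (B : Finset κ) (x : V) : ℝ :=
  ((B.filter (fun k => x ∈ bad k)).card : ℝ) - B.card * q x

theorem KSmp_E_insert (bad : κ → Finset V) (q : V → ℝ) (B : Finset κ) (c : κ) (hc : c ∉ B) (x : V) :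
    KSmp_E bad q (insert c B) x = KSmp_E bad q B x + ((if x ∈ bad c then 1 else 0) - q x) := by
  unfold KSmp_E
  rw [Finset.filter_insert, Finset.card_insert_of_notMem hc]
  split_ifs with h
  · rw [Finset.card_insert_of_notMem (fun h' => hc (Finset.mem_filter.1 h').1)]
    push_cast
    ring
  · push_cast
    ring

theorem KSmp_expsum (C₀ G : Finset κ) (k : ℕ) (hG : G.card ≤ k) (bad : κ → Finset V) (q : V → ℝ)
    (hq0 : ∀ x, 0 ≤ q x) (hq1 : ∀ x, q x ≤ 1) (h : ℝ) (x : V)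
    (hbad : ((C₀.filter (fun k => x ∈ bad k)).card : ℝ) ≤ q x * C₀.card + h)
    (lam : ℝ) (hlam : 0 ≤ lam) (hlam1 : 2 * lam ≤ 1) (E : ℝ) (N : κ → ℝ)
    (hN1 : ∀ c ∈ G, N c = E) (hN2 : ∀ c, c ∉ G → N c = E + ((if x ∈ bad c then 1 else 0) - q x)) :
    ∑ c ∈ C₀, Real.exp (lam * N c) ≤
      Real.exp (lam * E) * (C₀.card * (1 + lam ^ 2) + lam * (h + k)) := by
  classical
  obtain ⟨y, hy⟩ : ∃ y : κ → ℝ, ∀ c, y c = (if x ∈ bad c then 1 else 0) - q x := ⟨_, fun _ => rfl⟩
  have hy1 : ∀ c, |y c| ≤ 1 := by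
    intro c
    rw [hy, abs_le]
    have h1 := hq0 x
    have h2 := hq1 x
    split_ifs <;> constructor <;> linarith
  have h1 : ∀ c ∈ C₀, Real.exp (lam * N c) ≤
      Real.exp (lam * E) * (1 + lam ^ 2 + lam * (if c ∈ G then 0 else y c)) := by
    intro c _
    by_cases hc : c ∈ G
    · rw [hN1 c hc, if_pos hc, mul_zero, add_zero]
      refine le_mul_of_one_le_right (Real.exp_pos _).le ?_
      nlinarith [sq_nonneg lam]
    · rw [hN2 c hc, ← hy, if_neg hc, mul_add, Real.exp_add]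
      refine mul_le_mul_of_nonneg_left ?_ (Real.exp_pos _).le
      have h2 := hy1 c
      have h3 : |lam * y c| ≤ 1 := by
        rw [abs_mul, abs_of_nonneg hlam]
        nlinarith [abs_nonneg (y c)]
      have h4 := KSmp_exp h3
      have h5 : (y c) ^ 2 ≤ 1 := by
        rw [← sq_abs]
        exact pow_le_one₀ (abs_nonneg _) h2
      have h6 : (lam * y c) ^ 2 ≤ lam ^ 2 := by
        rw [mul_pow]
        nlinarith [sq_nonneg lam]
      linarith
  refine (Finset.sum_le_sum h1).trans ?_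
  rw [← Finset.mul_sum]
  refine mul_le_mul_of_nonneg_left ?_ (Real.exp_pos _).le
  rw [Finset.sum_add_distrib, Finset.sum_const, nsmul_eq_mul, ← Finset.mul_sum]
  refine add_le_add le_rfl (mul_le_mul_of_nonneg_left ?_ hlam)
  have h7 : ∑ c ∈ C₀, (if c ∈ G then 0 else y c) =
      ∑ c ∈ C₀, y c - ∑ c ∈ C₀.filter (fun c => c ∈ G), y c := by
    rw [← Finset.sum_filter_add_sum_filter_not C₀ (fun c => c ∈ G) y,
      ← Finset.sum_filter_add_sum_filter_not C₀ (fun c => c ∈ G) (fun c => if c ∈ G then 0 else y c)]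
    have h8 : ∑ c ∈ C₀.filter (fun c => c ∈ G), (if c ∈ G then 0 else y c) = 0 :=
      Finset.sum_eq_zero fun c hc => if_pos (Finset.mem_filter.1 hc).2
    have h9 : ∑ c ∈ C₀.filter (fun c => ¬ c ∈ G), (if c ∈ G then 0 else y c) =
        ∑ c ∈ C₀.filter (fun c => ¬ c ∈ G), y c :=
      Finset.sum_congr rfl fun c hc => if_neg (Finset.mem_filter.1 hc).2
    rw [h8, h9]
    ring
  have h10 : ∑ c ∈ C₀, y c ≤ h := by
    have h11 : ∑ c ∈ C₀, y c = ((C₀.filter (fun k => x ∈ bad k)).card : ℝ) - C₀.card * q x := by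
      simp only [hy]
      rw [Finset.sum_sub_distrib, Finset.sum_const, nsmul_eq_mul, Finset.sum_ite]
      simp
    rw [h11]
    linarith
  have h12 : -(∑ c ∈ C₀.filter (fun c => c ∈ G), y c) ≤ k := by
    rw [← Finset.sum_neg_distrib]
    calc ∑ c ∈ C₀.filter (fun c => c ∈ G), -y c ≤ ∑ _c ∈ C₀.filter (fun c => c ∈ G), (1 : ℝ) :=
          Finset.sum_le_sum fun c _ => by
            have := (abs_le.1 (hy1 c)).1
            linarith
      _ = ((C₀.filter (fun c => c ∈ G)).card : ℝ) := by simp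
      _ ≤ k := by
          have : (C₀.filter (fun c => c ∈ G)).card ≤ G.card :=
            Finset.card_le_card fun c hc => (Finset.mem_filter.1 hc).2
          exact_mod_cast this.trans hG
  rw [h7]
  linarith

/-- One new colour for the pool number `i`; adapt `sample_one` (`W_cd7020_h81b/SmpA.lean`) with `C₀`
in place of `S`. At most `k` colours are already used (`G`). The average over `c ∈ C₀` (`X c = Y c` if
`c ∉ G`, `0` otherwise) of `pot (∑ Y + X c)` is at most the old value times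
`1 + 8 lam² + 2 lam (g + 2 k) / |C₀|` by `pot_avg` with `x = 2`, `γ = 0`. For the exponentials:
`exp (lam y) ≤ 1 + lam y + lam² y²` for `|lam y| ≤ 1`, `y = [x ∈ bad c] - q x ∈ [-1, 1]`, and the sum of `y`
over `c ∈ C₀ \ G` is at most `h + k`; the factor is `1 + lam² + lam (h + k) / |C₀|`. So some
`c ∈ C₀ \ G` satisfies the inequality with the additional factor `|C₀| / (|C₀| - k) ≤ 1 + 2 k / |C₀|`. -/
theorem sample_oneG (C₀ : Finset κ) (Y : κ → Matrix V V ℝ) (hY : ∀ k, (Y k).IsHermitian)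
    (hYn : ∀ k, ∀ v : V → ℝ, ∑ a, ((Y k).mulVec v a) ^ 2 ≤ 4 * ∑ a, v a ^ 2) (g : ℝ)
    (hg0 : 0 ≤ g) (hg : ∀ v : V → ℝ, |∑ k ∈ C₀, qf (Y k) v v| ≤ g * ∑ x, v x ^ 2)
    (bad : κ → Finset V) (q : V → ℝ) (hq0 : ∀ x, 0 ≤ q x) (hq1 : ∀ x, q x ≤ 1) (h : ℝ)
    (hh : 0 ≤ h) (hbad : ∀ x, ((C₀.filter (fun k => x ∈ bad k)).card : ℝ) ≤ q x * C₀.card + h)
    (lam : ℝ) (hlam : 0 ≤ lam) (hlam1 : 2 * lam ≤ 1) (A : Fin 6 → Finset κ)
    (i : Fin 6) (G : Finset κ) (k : ℕ) (hG : G.card ≤ k) (hk : 4 * k ≤ C₀.card)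
    (hC : 1 ≤ C₀.card) (hAG : ∀ j, A j ⊆ G) (δ : ℝ)
    (hδ : (1 + 2 * (k : ℝ) / C₀.card) * (1 + 8 * lam ^ 2 +
      2 * lam * ((g + h + 2 * k) / C₀.card)) ≤ 1 + δ) :
    ∃ c ∈ C₀, c ∉ G ∧ PsG Y bad q lam (Function.update A i (insert c (A i))) ≤
      PsG Y bad q lam A * (1 + δ) := by
  classical
  obtain ⟨n, hn⟩ : ∃ n : ℝ, n = Fintype.card V := ⟨_, rfl⟩
  have hn0 : 0 ≤ n := by rw [hn]; exact Nat.cast_nonneg _
  obtain ⟨C, hCdef⟩ : ∃ C : ℝ, C = C₀.card := ⟨_, rfl⟩
  have hkC : 4 * (k : ℝ) ≤ C := by rw [hCdef]; exact_mod_cast hk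
  have hC1 : 1 ≤ C := by rw [hCdef]; exact_mod_cast hC
  have hC0 : 0 < C := by linarith
  have hk0 : (0 : ℝ) ≤ k := Nat.cast_nonneg k
  obtain ⟨D, hD⟩ : ∃ D : ℝ, D = (g + h + 2 * k) / C := ⟨_, rfl⟩
  obtain ⟨Q, hQ⟩ : ∃ Q : ℝ, Q = 1 + 8 * lam ^ 2 + 2 * lam * D := ⟨_, rfl⟩
  have hD0 : 0 ≤ D := by rw [hD]; positivity
  have hQ1 : 1 ≤ Q := by
    rw [hQ]
    have : 0 ≤ 2 * lam * D := by positivity
    nlinarith [sq_nonneg lam]
  rw [← hCdef, ← hD, ← hQ] at hδ
  -- the potential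
  obtain ⟨X, hX⟩ : ∃ X : κ → Matrix V V ℝ, ∀ c, X c = if c ∈ G then 0 else Y c := ⟨_, fun _ => rfl⟩
  obtain ⟨d, hd⟩ : ∃ d : ℝ, d = (g + 2 * k) / C := ⟨_, rfl⟩
  have hd0 : 0 ≤ d := by rw [hd]; positivity
  have hdD : d ≤ D := by
    rw [hd, hD]
    exact div_le_div_of_nonneg_right (by linarith) hC0.le
  have hherm : ∀ c ∈ C₀, (X c).IsHermitian := by
    intro c _
    rw [hX]
    split_ifs
    · exact Matrix.isHermitian_zero
    · exact hY c
  have hnorm : ∀ c ∈ C₀, ∀ v : V → ℝ, ∑ a, ((X c).mulVec v a) ^ 2 ≤ (2 : ℝ) ^ 2 * ∑ a, v a ^ 2 := by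
    intro c _ v
    rw [hX]
    split_ifs
    · simp only [Matrix.zero_mulVec, Pi.zero_apply]
      have : 0 ≤ ∑ a, v a ^ 2 := Finset.sum_nonneg fun a _ => sq_nonneg _
      simp only [ne_eq, OfNat.ofNat_ne_zero, not_false_eq_true, zero_pow, Finset.sum_const_zero]
      positivity
    · have := hYn c v
      norm_num
      exact this
  have hAherm : (∑ c ∈ A i, Y c).IsHermitian := by
    unfold Matrix.IsHermitian
    rw [Matrix.conjTranspose_sum]
    exact Finset.sum_congr rfl fun c _ => hY c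
  have hmean : ∀ v : V → ℝ, |∑ c ∈ C₀, qf (X c) v v +
      C₀.card * 0 * qf (∑ c ∈ A i, Y c) v v| ≤ C₀.card * d * ∑ a, v a ^ 2 := by
    intro v
    have hv0 : 0 ≤ ∑ a, v a ^ 2 := Finset.sum_nonneg fun a _ => sq_nonneg _
    have h1 : ∑ c ∈ C₀, qf (X c) v v =
        ∑ c ∈ C₀, qf (Y c) v v - ∑ c ∈ C₀.filter (fun c => c ∈ G), qf (Y c) v v := by
      rw [← Finset.sum_filter_add_sum_filter_not C₀ (fun c => c ∈ G) (fun c => qf (Y c) v v),
        ← Finset.sum_filter_add_sum_filter_not C₀ (fun c => c ∈ G) (fun c => qf (X c) v v)]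
      have h3 : ∑ c ∈ C₀.filter (fun c => c ∈ G), qf (X c) v v = 0 := by
        refine Finset.sum_eq_zero fun c hc => ?_
        rw [hX, if_pos (Finset.mem_filter.1 hc).2]
        unfold qf
        simp
      have h4 : ∑ c ∈ C₀.filter (fun c => ¬ c ∈ G), qf (X c) v v =
          ∑ c ∈ C₀.filter (fun c => ¬ c ∈ G), qf (Y c) v v :=
        Finset.sum_congr rfl fun c hc => by rw [hX, if_neg (Finset.mem_filter.1 hc).2]
      rw [h3, h4]
      ring
    have h6 : |∑ c ∈ C₀.filter (fun c => c ∈ G), qf (Y c) v v| ≤ 2 * k * ∑ a, v a ^ 2 := by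
      calc |∑ c ∈ C₀.filter (fun c => c ∈ G), qf (Y c) v v|
          ≤ ∑ c ∈ C₀.filter (fun c => c ∈ G), |qf (Y c) v v| := Finset.abs_sum_le_sum_abs _ _
        _ ≤ ∑ c ∈ C₀.filter (fun c => c ∈ G), 2 * ∑ a, v a ^ 2 :=
            Finset.sum_le_sum fun c _ => KSmp_qf (Y c) (hYn c) v
        _ = (C₀.filter (fun c => c ∈ G)).card * (2 * ∑ a, v a ^ 2) := by
            rw [Finset.sum_const, nsmul_eq_mul]
        _ ≤ k * (2 * ∑ a, v a ^ 2) := by
            refine mul_le_mul_of_nonneg_right ?_ (by positivity)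
            have : (C₀.filter (fun c => c ∈ G)).card ≤ G.card :=
              Finset.card_le_card fun c hc => (Finset.mem_filter.1 hc).2
            exact_mod_cast this.trans hG
        _ = _ := by ring
    rw [h1, mul_zero, zero_mul, add_zero]
    have h7 : (C₀.card : ℝ) * d = g + 2 * k := by
      rw [← hCdef, hd, mul_div_cancel₀ _ hC0.ne']
    rw [h7]
    calc |∑ c ∈ C₀, qf (Y c) v v - ∑ c ∈ C₀.filter (fun c => c ∈ G), qf (Y c) v v|
        ≤ |∑ c ∈ C₀, qf (Y c) v v| + |∑ c ∈ C₀.filter (fun c => c ∈ G), qf (Y c) v v| := abs_sub _ _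
      _ ≤ g * (∑ a, v a ^ 2) + 2 * k * ∑ a, v a ^ 2 := add_le_add (hg v) h6
      _ = _ := by ring
  have hpot := pot_avg C₀ (∑ c ∈ A i, Y c) hAherm X hherm lam 2 d 0 hlam (by norm_num) le_rfl hd0
    (by linarith) hnorm hmean
  have hpot' : ∑ c ∈ C₀, pot ((∑ c ∈ A i, Y c) + X c) lam ≤
      C * pot (∑ c ∈ A i, Y c) lam * Q := by
    rw [hCdef]
    refine hpot.trans (mul_le_mul_of_nonneg_left ?_ (mul_nonneg (Nat.cast_nonneg _) (pot_pos _ _)))
    rw [hQ]
    have : lam * d ≤ lam * D := mul_le_mul_of_nonneg_left hdD hlam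
    nlinarith
  -- the exponentials
  obtain ⟨N, hN⟩ : ∃ N : κ → V → ℝ, ∀ c x, N c x =
      if c ∈ G then KSmp_E bad q (A i) x else KSmp_E bad q (insert c (A i)) x := ⟨_, fun _ _ => rfl⟩
  have hexp : ∀ x, ∑ c ∈ C₀, Real.exp (lam * N c x) ≤
      C * Real.exp (lam * KSmp_E bad q (A i) x) * Q := by
    intro x
    have h1 := KSmp_expsum C₀ G k hG bad q hq0 hq1 h x (hbad x) lam hlam hlam1
      (KSmp_E bad q (A i) x) (fun c => N c x) (fun c hc => by
        show N c x = _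
        rw [hN, if_pos hc]) (fun c hc => by
        show N c x = _
        rw [hN, if_neg hc, KSmp_E_insert bad q (A i) c (fun h' => hc (hAG i h')) x])
    refine h1.trans ?_
    rw [← hCdef]
    have h4 : C * (1 + lam ^ 2) + lam * (h + k) ≤ C * Q := by
      rw [hQ]
      have h5 : C * D = g + h + 2 * k := by rw [hD, mul_div_cancel₀ _ hC0.ne']
      have h6 : C * (1 + 8 * lam ^ 2 + 2 * lam * D) =
          C * (1 + 8 * lam ^ 2) + 2 * lam * (g + h + 2 * k) := by
        rw [← h5]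
        ring
      rw [h6]
      nlinarith [mul_nonneg hC0.le (sq_nonneg lam), mul_nonneg hlam hg0, mul_nonneg hlam hh,
        mul_nonneg hlam hk0]
    calc Real.exp (lam * KSmp_E bad q (A i) x) * (C * (1 + lam ^ 2) + lam * (h + k))
        ≤ Real.exp (lam * KSmp_E bad q (A i) x) * (C * Q) :=
          mul_le_mul_of_nonneg_left h4 (Real.exp_pos _).le
      _ = _ := by ring
  -- the total
  obtain ⟨p, hp⟩ : ∃ p : Finset κ → ℝ, ∀ B, p B = pot (∑ c ∈ B, Y c) lam / n +
      (∑ x, Real.exp (lam * KSmp_E bad q B x)) / n := ⟨_, fun _ => rfl⟩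
  have hp0 : ∀ B, 0 ≤ p B := by
    intro B
    rw [hp]
    exact add_nonneg (div_nonneg (pot_pos _ _) hn0)
      (div_nonneg (Finset.sum_nonneg fun x _ => (Real.exp_pos _).le) hn0)
  have hPsi : ∀ A' : Fin 6 → Finset κ, PsG Y bad q lam A' = ∑ j, p (A' j) := by
    intro A'
    unfold PsG
    rw [← Finset.sum_add_distrib]
    refine Finset.sum_congr rfl fun j _ => ?_
    rw [hp, hn]
    rfl
  obtain ⟨R0, hR0⟩ : ∃ R0 : ℝ, R0 = ∑ j ∈ Finset.univ.erase i, p (A j) := ⟨_, rfl⟩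
  have hR00 : 0 ≤ R0 := by rw [hR0]; exact Finset.sum_nonneg fun j _ => hp0 _
  have hPsiA : PsG Y bad q lam A = p (A i) + R0 := by
    rw [hPsi, hR0, ← Finset.add_sum_erase _ _ (Finset.mem_univ i)]
  have hPsiU : ∀ B, PsG Y bad q lam (Function.update A i B) = p B + R0 := by
    intro B
    rw [hPsi, hR0, ← Finset.add_sum_erase _ _ (Finset.mem_univ i), Function.update_self]
    congr 1
    refine Finset.sum_congr rfl fun j hj => ?_
    rw [Function.update_of_ne (Finset.ne_of_mem_erase hj)]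
  obtain ⟨F, hF⟩ : ∃ F : κ → ℝ, ∀ c, F c = pot ((∑ c ∈ A i, Y c) + X c) lam / n +
      (∑ x, Real.exp (lam * N c x)) / n := ⟨_, fun _ => rfl⟩
  have hF0 : ∀ c, 0 ≤ F c := by
    intro c
    rw [hF]
    exact add_nonneg (div_nonneg (pot_pos _ _) hn0)
      (div_nonneg (Finset.sum_nonneg fun x _ => (Real.exp_pos _).le) hn0)
  have hFs : ∑ c ∈ C₀, F c ≤ C * p (A i) * Q := by
    have h1 : ∑ c ∈ C₀, F c = (∑ c ∈ C₀, pot ((∑ c ∈ A i, Y c) + X c) lam) / n +
        (∑ x, ∑ c ∈ C₀, Real.exp (lam * N c x)) / n := by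
      simp only [hF]
      rw [Finset.sum_add_distrib, ← Finset.sum_div, ← Finset.sum_div, Finset.sum_comm]
    have h2 : ∑ x, ∑ c ∈ C₀, Real.exp (lam * N c x) ≤
        C * (∑ x, Real.exp (lam * KSmp_E bad q (A i) x)) * Q := by
      rw [Finset.mul_sum, Finset.sum_mul]
      exact Finset.sum_le_sum fun x _ => hexp x
    rw [h1, hp]
    have h3 := div_le_div_of_nonneg_right hpot' hn0
    have h4 := div_le_div_of_nonneg_right h2 hn0
    calc _ ≤ C * pot (∑ c ∈ A i, Y c) lam * Q / n +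
          C * (∑ x, Real.exp (lam * KSmp_E bad q (A i) x)) * Q / n := add_le_add h3 h4
      _ = _ := by ring
  -- the choice
  obtain ⟨T, hT⟩ : ∃ T : Finset κ, T = C₀ \ G := ⟨_, rfl⟩
  have hTc : C - k ≤ (T.card : ℝ) := by
    have h1 : C₀.card ≤ T.card + G.card := by
      rw [hT]
      have := Finset.card_le_card_sdiff_add_card (s := C₀) (t := G)
      omega
    have h2 : (C₀.card : ℝ) ≤ T.card + k := by exact_mod_cast h1.trans (Nat.add_le_add_left hG _)
    rw [← hCdef] at h2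
    linarith
  have hTpos : 0 < (T.card : ℝ) := by linarith
  have hTne : T.Nonempty := Finset.card_pos.1 (by exact_mod_cast hTpos)
  have hsum : ∑ c ∈ T, (F c + R0) ≤ ∑ _c ∈ T, PsG Y bad q lam A * (1 + δ) := by
    rw [Finset.sum_const, nsmul_eq_mul]
    have h1 : ∑ c ∈ T, (F c + R0) ≤ ∑ c ∈ C₀, (F c + R0) := by
      refine Finset.sum_le_sum_of_subset_of_nonneg ?_ fun c _ _ => add_nonneg (hF0 c) hR00
      rw [hT]
      exact Finset.sdiff_subset
    have h2 : ∑ c ∈ C₀, (F c + R0) ≤ C * (Q * PsG Y bad q lam A) := by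
      rw [Finset.sum_add_distrib, Finset.sum_const, nsmul_eq_mul, hPsiA, ← hCdef]
      have h3 : C * R0 ≤ C * (Q * R0) :=
        mul_le_mul_of_nonneg_left (le_mul_of_one_le_left hR00 hQ1) hC0.le
      calc _ ≤ C * p (A i) * Q + C * (Q * R0) := add_le_add hFs h3
        _ = _ := by ring
    have hPsi0 : 0 ≤ PsG Y bad q lam A := by rw [hPsiA]; exact add_nonneg (hp0 _) hR00
    have h3 : C ≤ T.card * (1 + 2 * k / C) := by
      have h4 : C ≤ (C - k) * (1 + 2 * k / C) := by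
        have h5 : (C - k) * (1 + 2 * k / C) = ((C - k) * (C + 2 * k)) / C := by
          field_simp
        rw [h5, le_div_iff₀ hC0]
        nlinarith [mul_nonneg hk0 (by linarith : (0 : ℝ) ≤ C - 4 * k)]
      exact h4.trans (mul_le_mul_of_nonneg_right hTc (by positivity))
    calc ∑ c ∈ T, (F c + R0) ≤ C * (Q * PsG Y bad q lam A) := h1.trans h2
      _ ≤ T.card * (1 + 2 * k / C) * (Q * PsG Y bad q lam A) :=
          mul_le_mul_of_nonneg_right h3 (mul_nonneg (by linarith) hPsi0)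
      _ = T.card * ((1 + 2 * k / C) * Q * PsG Y bad q lam A) := by ring
      _ ≤ T.card * (PsG Y bad q lam A * (1 + δ)) := by
          refine mul_le_mul_of_nonneg_left ?_ hTpos.le
          rw [mul_comm (PsG Y bad q lam A)]
          exact mul_le_mul_of_nonneg_right hδ hPsi0
  obtain ⟨c, hc, hcle⟩ := Finset.exists_le_of_sum_le hTne hsum
  rw [hT, Finset.mem_sdiff] at hc
  refine ⟨c, hc.1, hc.2, ?_⟩
  rw [hPsiU]
  have hcA : c ∉ A i := fun h => hc.2 (hAG i h)
  have h1 : F c = p (insert c (A i)) := by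
    rw [hF, hp]
    have h2 : (∑ c ∈ A i, Y c) + X c = ∑ c ∈ insert c (A i), Y c := by
      rw [hX, if_neg hc.2, Finset.sum_insert hcA, add_comm]
    rw [h2]
    have h3 : ∀ x, N c x = KSmp_E bad q (insert c (A i)) x := fun x => by rw [hN, if_neg hc.2]
    simp only [h3]
  rw [← h1]
  exact hcle

/-- Pools of given sizes: iteration of `sample_oneG` (`G` is the union of the pools); copy
`sample` (`W_cd7020_h81b/SmpB.lean`). The start value is `12` (`pot_zero`, `exp 0 = 1`), or `0` if `V` is empty. -/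
theorem sampleG (C₀ : Finset κ) (Y : κ → Matrix V V ℝ) (hY : ∀ k, (Y k).IsHermitian)
    (hYn : ∀ k, ∀ v : V → ℝ, ∑ a, ((Y k).mulVec v a) ^ 2 ≤ 4 * ∑ a, v a ^ 2) (g : ℝ)
    (hg0 : 0 ≤ g) (hg : ∀ v : V → ℝ, |∑ k ∈ C₀, qf (Y k) v v| ≤ g * ∑ x, v x ^ 2)
    (bad : κ → Finset V) (q : V → ℝ) (hq0 : ∀ x, 0 ≤ q x) (hq1 : ∀ x, q x ≤ 1) (h : ℝ)
    (hh : 0 ≤ h) (hbad : ∀ x, ((C₀.filter (fun k => x ∈ bad k)).card : ℝ) ≤ q x * C₀.card + h)
    (lam : ℝ) (hlam : 0 ≤ lam) (hlam1 : 2 * lam ≤ 1) (sz : Fin 6 → ℕ) (k : ℕ)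
    (hsz : ∑ i, sz i ≤ k) (hk : 4 * k ≤ C₀.card) (hC : 1 ≤ C₀.card) (δ : ℝ) (hδ0 : 0 ≤ δ)
    (hδ : (1 + 2 * (k : ℝ) / C₀.card) * (1 + 8 * lam ^ 2 +
      2 * lam * ((g + h + 2 * k) / C₀.card)) ≤ 1 + δ) :
    ∃ A : Fin 6 → Finset κ, (∀ i, A i ⊆ C₀) ∧ (∀ i, (A i).card = sz i) ∧
      (∀ i j, i ≠ j → Disjoint (A i) (A j)) ∧
      PsG Y bad q lam A ≤ 12 * (1 + δ) ^ k := by
  have h0 : PsG Y bad q lam (fun _ => ∅) ≤ 12 := by
    unfold PsG
    simp only [Finset.sum_empty, pot_zero, Finset.filter_empty, Finset.card_empty, Nat.cast_zero,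
      zero_mul, sub_zero, mul_zero, Real.exp_zero, Finset.sum_const, Finset.card_univ,
      Fintype.card_fin, nsmul_eq_mul, mul_one]
    have h1 : (Fintype.card V : ℝ) / Fintype.card V ≤ 1 := div_self_le_one _
    push_cast
    linarith
  have key : ∀ j : ℕ, j ≤ ∑ i, sz i → ∃ A : Fin 6 → Finset κ, (∀ i, A i ⊆ C₀) ∧
      (∀ i, (A i).card ≤ sz i) ∧ ∑ i, (A i).card = j ∧
      (∀ i l, i ≠ l → Disjoint (A i) (A l)) ∧ PsG Y bad q lam A ≤ 12 * (1 + δ) ^ j := by
    intro j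
    induction j with
    | zero =>
      intro _
      refine ⟨fun _ => ∅, fun _ => by simp, fun _ => by simp, by simp, fun _ _ _ => by simp, ?_⟩
      rw [pow_zero, mul_one]
      exact h0
    | succ j ih =>
      intro hj
      obtain ⟨A, hAQ, hAc, hAs, hAd, hAP⟩ := ih (by omega)
      obtain ⟨i, hi⟩ : ∃ i, (A i).card < sz i := by
        by_contra hcon
        push Not at hcon
        have := Finset.sum_le_sum (fun i (_ : i ∈ (univ : Finset (Fin 6))) => hcon i)
        omega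
      obtain ⟨c, hcQ, hcG, hc⟩ := sample_oneG C₀ Y hY hYn g hg0 hg bad q hq0 hq1 h hh hbad
        lam hlam hlam1 A i (univ.biUnion A) k
        ((Finset.card_biUnion_le).trans (by omega)) hk hC
        (fun l => Finset.subset_biUnion_of_mem A (mem_univ l)) δ hδ
      have hcA : ∀ l, c ∉ A l := fun l hl => hcG (Finset.mem_biUnion.2 ⟨l, mem_univ l, hl⟩)
      refine ⟨Function.update A i (insert c (A i)), fun l => ?_, fun l => ?_, ?_, ?_, ?_⟩
      · rcases eq_or_ne l i with rfl | hl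
        · rw [Function.update_self]
          exact Finset.insert_subset hcQ (hAQ l)
        · rw [Function.update_of_ne hl]
          exact hAQ l
      · rcases eq_or_ne l i with rfl | hl
        · rw [Function.update_self, Finset.card_insert_of_notMem (hcA l)]
          exact hi
        · rw [Function.update_of_ne hl]
          exact hAc l
      · have e : ∀ l, (Function.update A i (insert c (A i)) l).card =
            (A l).card + if l = i then 1 else 0 := by
          intro l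
          rcases eq_or_ne l i with rfl | hl
          · rw [Function.update_self, Finset.card_insert_of_notMem (hcA l), if_pos rfl]
          · rw [Function.update_of_ne hl, if_neg hl, add_zero]
        simp only [e, Finset.sum_add_distrib, hAs, Finset.sum_ite_eq', mem_univ, if_true]
      · have hins : ∀ l, l ≠ i → Disjoint (insert c (A i)) (A l) := by
          intro l hl
          rw [Finset.disjoint_insert_left]
          exact ⟨hcA l, hAd i l hl.symm⟩
        intro a b hab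
        rcases eq_or_ne a i with rfl | ha
        · rw [Function.update_self, Function.update_of_ne hab.symm]
          exact hins b hab.symm
        · rcases eq_or_ne b i with rfl | hb
          · rw [Function.update_self, Function.update_of_ne ha]
            exact (hins a ha).symm
          · rw [Function.update_of_ne ha, Function.update_of_ne hb]
            exact hAd a b hab
      · calc PsG Y bad q lam (Function.update A i (insert c (A i)))
            ≤ PsG Y bad q lam A * (1 + δ) := hc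
          _ ≤ 12 * (1 + δ) ^ j * (1 + δ) := mul_le_mul_of_nonneg_right hAP (by linarith)
          _ = 12 * (1 + δ) ^ (j + 1) := by ring
  obtain ⟨A, hAQ, hAc, hAs, hAd, hAP⟩ := key _ le_rfl
  refine ⟨A, hAQ, fun i => ?_, hAd, hAP.trans ?_⟩
  · by_contra hne
    have hlt : (A i).card < sz i := lt_of_le_of_ne (hAc i) hne
    have := Finset.sum_lt_sum (fun l (_ : l ∈ (univ : Finset (Fin 6))) => hAc l)
      ⟨i, mem_univ i, hlt⟩
    omega
  · exact mul_le_mul_of_nonneg_left (pow_le_pow_right₀ (by linarith) hsz) (by norm_num)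

/-- What a small potential means (`norm_of_pot`; each summand is at most the potential). -/
theorem PsG_bounds (Y : κ → Matrix V V ℝ) (hY : ∀ k, (Y k).IsHermitian) (bad : κ → Finset V)
    (q : V → ℝ) (lam : ℝ) (hlam : 0 < lam) (A : Fin 6 → Finset κ) (X : ℝ) (hX : 0 < X)
    (hV : 0 < Fintype.card V) (h : PsG Y bad q lam A ≤ X) (i : Fin 6) :
    (∀ f g : V → ℝ, |qf (∑ k ∈ A i, Y k) f g| ≤
      Real.log (2 * (X * Fintype.card V)) / lam * nr f * nr g) ∧
    ∀ x, (((A i).filter (fun k => x ∈ bad k)).card : ℝ) ≤ (A i).card * q x +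
      Real.log (X * Fintype.card V) / lam := by
  classical
  obtain ⟨n, hn⟩ : ∃ n : ℝ, n = Fintype.card V := ⟨_, rfl⟩
  have hn0 : 0 < n := by rw [hn]; exact_mod_cast hV
  obtain ⟨p, hp⟩ : ∃ p : Fin 6 → ℝ, ∀ j, p j = pot (∑ c ∈ A j, Y c) lam / n := ⟨_, fun _ => rfl⟩
  obtain ⟨r, hr⟩ : ∃ r : Fin 6 → ℝ, ∀ j, r j =
      (∑ x, Real.exp (lam * KSmp_E bad q (A j) x)) / n := ⟨_, fun _ => rfl⟩
  have hp0 : ∀ j, 0 ≤ p j := fun j => by rw [hp]; exact div_nonneg (pot_pos _ _) hn0.le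
  have hr0 : ∀ j, 0 ≤ r j := fun j => by
    rw [hr]
    exact div_nonneg (Finset.sum_nonneg fun x _ => (Real.exp_pos _).le) hn0.le
  have hPsi : PsG Y bad q lam A = ∑ j, p j + ∑ j, r j := by
    unfold PsG
    simp only [hp, hr, hn]
    rfl
  have hpi : p i ≤ ∑ j, p j := Finset.single_le_sum (fun j _ => hp0 j) (Finset.mem_univ i)
  have hri : r i ≤ ∑ j, r j := Finset.single_le_sum (fun j _ => hr0 j) (Finset.mem_univ i)
  have hps : 0 ≤ ∑ j, p j := Finset.sum_nonneg fun j _ => hp0 j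
  have hrs : 0 ≤ ∑ j, r j := Finset.sum_nonneg fun j _ => hr0 j
  rw [hPsi] at h
  have hpX : p i ≤ X := by linarith
  have hrX : r i ≤ X := by linarith
  rw [hp, div_le_iff₀ hn0] at hpX
  rw [hr, div_le_iff₀ hn0] at hrX
  refine ⟨fun f g => ?_, fun x => ?_⟩
  · have hherm : (∑ c ∈ A i, Y c).IsHermitian := by
      unfold Matrix.IsHermitian
      rw [Matrix.conjTranspose_sum]
      exact Finset.sum_congr rfl fun c _ => hY c
    rw [← hn]
    exact norm_of_pot (∑ c ∈ A i, Y c) hherm lam (X * n) hlam hpX f g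
  · have h1 : Real.exp (lam * KSmp_E bad q (A i) x) ≤ X * n := by
      refine le_trans ?_ hrX
      exact Finset.single_le_sum (f := fun x => Real.exp (lam * KSmp_E bad q (A i) x))
        (fun x _ => (Real.exp_pos _).le) (Finset.mem_univ x)
    have h2 : lam * KSmp_E bad q (A i) x ≤ Real.log (X * n) := by
      rw [Real.le_log_iff_exp_le (by positivity)]
      exact h1
    have h3 : KSmp_E bad q (A i) x ≤ Real.log (X * n) / lam := by
      rw [le_div_iff₀ hlam]
      linarith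
    rw [← hn]
    unfold KSmp_E at h3
    linarith

end Pool.Agent.W_cd7020_h81k
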