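import Pool.Agent.W_cd7020_h81b.InB
import Pool.Agent.W_cd7020_h81c.ADefs

/-!
# Rainbow cycles through a fixed matching: definitions

A variant of `W_cd7020_h81b` with a rainbow matching `Fx` of fixed edges whose colours are not in `Q`.
-/

set_option autoImplicit false

namespace Pool.Agent.W_cd7020_h81k

open Finset Pool.Agent.W_cd7020_h81 Pool.Agent.W_cd7020_h81b Pool.Agent.W_cd7020_h81c

variable {V κ : Type*} [DecidableEq V] [DecidableEq κ]

/-- The fixed edges: a rainbow matching whose colours are not in `Q`. -/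
structure Fix (col : Sym2 V → κ) (Q : Finset κ) (Fx : Finset (Sym2 V)) : Prop where
  diag : ∀ e ∈ Fx, ¬ e.IsDiag
  mat : ∀ e ∈ Fx, ∀ e' ∈ Fx, ∀ x, x ∈ e → x ∈ e' → e = e'
  rb : Rb col Fx
  cQ : ∀ e ∈ Fx, col e ∉ Q

variable [Fintype V]

/-- The vertices of the fixed edges. -/
def vF (Fx : Finset (Sym2 V)) : Finset V := univ.filter (fun x => ∃ e ∈ Fx, x ∈ e)

/-- `Q` is a set of almost perfect colours. -/
structure GoodK (col : Sym2 V → κ) (Q : Finset κ) (μ : ℕ) : Prop where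
  proper : Proper col
  missc : ∀ k ∈ Q, (univ.filter (fun x => par col k x = x)).card ≤ μ
  missv : ∀ x, (Q.filter (fun k => par col k x = x)).card ≤ μ
  large : Fintype.card V ≤ Q.card + μ

/-- Additional inequalities for the parameters; `v₀` bounds `|V'|`, `f` the number of fixed
edges. -/
structure PK {n : ℕ} (P : Prm n) (v₀ f : ℕ) : Prop where
  vf : v₀ + 2 * f ≤ P.v
  JJ : 10 ^ 7 * P.J ^ 2 ≤ n
  Jf : 80 * P.J * f ≤ n
  D32 : 32 * ((45 * P.M * P.T + 3) * P.J) ≤ P.T * P.u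
  kJ : 10 ^ 5 * P.J ^ 2 ≤ P.T * P.u
  ka : 10 ^ 6 * (P.J : ℝ) * (P.a₁ + ((45 * P.M * P.T + 3) * P.J : ℕ) + 1) ≤ (P.T * P.u : ℝ)

/-- A good state between two epochs. -/
structure StateK (col : Sym2 V → κ) (Q : Finset κ) (V' : Finset V) (Fx : Finset (Sym2 V))
    (P : Prm (Fintype.card V)) (U : Finset V) (E : Finset (Sym2 V)) (R : Finset κ)
    (B : Fin 5 → Finset κ) : Prop where
  V'U : univ \ V' ⊆ U
  cyc : Cyc U E
  card : E.card = U.card
  rb : Rb col E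
  fix : Fx ⊆ E
  cols : cE col (E \ Fx) ⊆ Q
  Rsub : R ⊆ Q
  Rcard : R.card = P.kA
  Rnorm : NB col R P.a₁
  RE : Disjoint R (cE col E)
  bp : BP col Q (V' ∪ vF Fx) P.kB P.a₁ B
  RB : ∀ i, Disjoint R (B i)
  count : ∀ i, (B i ∩ cE col E).card ≤ P.M * P.T * P.J

/-- The state after `g` groups of an epoch with the closing pools `B`; `A` are the new pools, `C` is
the number of edges closed so far. -/
structure MidK (col : Sym2 V → κ) (Q : Finset κ) (V' : Finset V) (Fx : Finset (Sym2 V))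
    (P : Prm (Fintype.card V)) (U : Finset V) (B : Fin 5 → Finset κ) (g : ℕ)
    (E : Finset (Sym2 V)) (R : Finset κ) (A : Fin 6 → Finset κ) (C : ℕ) : Prop where
  cyc : Cyc U E
  card : E.card = U.card
  rb : Rb col E
  fix : Fx ⊆ E
  cols : cE col (E \ Fx) ⊆ Q
  Rsub : R ⊆ Q
  Rcard : R.card + g * P.m = P.kA
  RE : Disjoint R (cE col E)
  RB : ∀ i, Disjoint R (B i)
  Asub : ∀ i, A i ⊆ Q
  Acard : ∀ i, (A i).card = g * (P.IX i).card
  AE : ∀ i, Disjoint (A i) (cE col E)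
  AR : ∀ i, Disjoint (A i) R
  AA : ∀ i j, i ≠ j → Disjoint (A i) (A j)
  count : ∀ i, (B i ∩ (cE col E ∪ univ.biUnion A)).card ≤ C * P.J
  phi : Phi col (V' ∪ vF Fx) P R A / (1 + P.δ) ^ g + C / (3 * P.M * P.T : ℝ) ≤
    14 + g / (P.T : ℝ)

/-- The group lemma with fixed edges. -/
structure GroupK (col : Sym2 V → κ) (U : Finset V) (E Fx : Finset (Sym2 V)) (R : Finset κ)
    (w : ℕ → κ) (t m : ℕ) (loss Mx : ℝ) {Ω : Type*} (Om al : Finset Ω)
    (rel : Ω → ℕ → κ) (ub : Ω → ℕ → κ) (N : Ω → ℕ) (F : Ω → Finset (Sym2 V)) : Prop where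
  grp : Group col U E R w t m loss Mx Om al rel ub N F
  keep : ∀ o ∈ al, Fx ⊆ F o
  relK : ∀ o ∈ al, ∀ i ≤ t + m, rel o i ∈ cE col (E \ Fx)

/-- The conditions for the initial state: there are `k = kA + 5 kB` pool colours, `V'` has
`v₀` elements, `a` bounds the number of components given by `few`. -/
structure IPrmK {n : ℕ} (P : Prm n) (v₀ a : ℕ) : Prop where
  v43 : 43 ≤ v₀
  av : 64 * (142 * P.J) * n ≤ a * v₀
  a1 : 1 ≤ a
  hh : 16 * (2 * P.μ + (P.kA + 5 * P.kB)) ≤ v₀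
  hT : 4 * a + 4 ≤ v₀
  aM : a ≤ P.M * P.T
  μn : 8 * P.μ ≤ n
  kn : 8 * (P.kA + 5 * P.kB) ≤ n
  lam1 : 2 * P.lam ≤ 1
  hδ : ∃ δ' : ℝ, 0 ≤ δ' ∧ (1 + 4 * ((P.kA + 5 * P.kB : ℕ) : ℝ) / n) * (1 + 8 * P.lam ^ 2 +
      4 * P.lam * ((4 * P.μ + P.v + 2 * (P.kA + 5 * P.kB : ℕ)) / n)) ≤ 1 + δ' ∧
      (P.kA + 5 * P.kB : ℕ) * δ' ≤ P.T * P.δ

end Pool.Agent.W_cd7020_h81k
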