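import Pool.Agent.W_cd7020_h81k.KDefs
import Pool.Agent.W_cd7020_h81c.AClos
import Pool.Agent.W_cd7020_h81b.CloM

/-!
# Closing with fixed edges
-/

set_option autoImplicit false

namespace Pool.Agent.W_cd7020_h81k

open Finset Pool.Agent.W_cd7020_h81 Pool.Agent.W_cd7020_h81b Pool.Agent.W_cd7020_h81c

variable {V κ : Type*} [DecidableEq V] [DecidableEq κ] [Fintype V]

theorem vF_card (Fx : Finset (Sym2 V)) : (vF Fx).card ≤ 2 * Fx.card := by
  have h1 : vF Fx ⊆ Fx.biUnion (fun e => e.toFinset) := by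
    intro x hx
    unfold vF at hx
    rw [mem_filter] at hx
    obtain ⟨_, e, he, hxe⟩ := hx
    rw [mem_biUnion]
    exact ⟨e, he, Sym2.mem_toFinset.2 hxe⟩
  have h2 : ∀ e ∈ Fx, (e.toFinset).card ≤ 2 := by
    intro e _
    rw [Sym2.card_toFinset]
    split_ifs <;> omega
  rw [mul_comm]
  exact (card_le_card h1).trans (card_biUnion_le_card_mul Fx _ 2 h2)

theorem KClo_sum (col : Sym2 V → κ) (B : Finset κ) (X Y : Finset V) :
    ∑ x ∈ X, wd col (pw B ∅ 0) x Y = (eB col B X Y : ℝ) := by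
  have h1 : ∀ x, wd col (pw B ∅ 0) x Y =
      (((Y.filter (fun y => y ≠ x ∧ col s(x, y) ∈ B)).card : ℕ) : ℝ) := by
    intro x
    rw [wd_pw col B ∅ 0 (disjoint_empty_right B), zero_mul, add_zero]
  rw [sum_congr rfl fun x _ => h1 x, ← Nat.cast_sum]
  congr 1
  unfold eB
  rw [card_filter, sum_product]
  refine sum_congr rfl fun x _ => ?_
  rw [card_filter]
  exact sum_congr rfl fun y _ => if_congr (and_congr_left' ne_comm) rfl rfl

theorem KClo_mix (col : Sym2 V → κ) (B : Finset κ) (a : ℝ) (k : ℕ) (hk : B.card = k)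
    (hB : Mix col B a) : UMix col (pw B ∅ 0) k a ∧ LMix col (pw B ∅ 0) k a := by
  constructor
  · intro X Y
    rw [KClo_sum]
    have h1 := (abs_le.1 (hB X Y)).2
    rw [hk] at h1
    linarith
  · intro X Y
    rw [KClo_sum]
    have h1 := (abs_le.1 (hB X Y)).1
    rw [hk] at h1
    linarith

/-- One closing with forbidden colours `G`; adapt `close_one` (`W_cd7020_h81b/CloO.lean`): `closingZ` with
the pools `B i \ (G ∪ cE E)`, `K = ∅`, `β = 0`, `Z = vF Fx`, `k = kB`, from which at most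
`D = (45 M T + 3) J` colours are missing, `a = a₁ + D + 1`. `UMix`, `LMix` for the `B i` follow from `NB_mix`
(the sum of `wd col (pw B ∅ 0) x Y` over `x ∈ X` is `eB col B X Y`, `wd_pw`), `UMix_mono`, `LMix_colours`.
The degree condition: by `par_count` the weight is the number of colours of `B i \ (G ∪ cE E)` with
a partner of `x` in `U \ vF Fx`; the others are bad at `x` (`univ \ V' ⊆ U`), at most `kB / 16`, or missing, at most
`D ≤ kB / 32`. Fixed edges have both ends in `Z`. -/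
theorem close_oneK (col : Sym2 V → κ) (hcol : Proper col) (Q : Finset κ)
    (P : Prm (Fintype.card V)) (v₀ f : ℕ) (hP : PK P v₀ f) (V' : Finset V)
    (hV' : V'.card ≤ v₀) (U : Finset V)
    (hV'U : univ \ V' ⊆ U) (Fx : Finset (Sym2 V)) (hf : Fx.card ≤ f) (B : Fin 5 → Finset κ)
    (hB : BP col Q (V' ∪ vF Fx) P.kB P.a₁ B) (G : Finset κ)
    (E : Finset (Sym2 V)) (hE : Cyc U E) (hlt : E.card < U.card) (hr : Rb col E) (hfx : Fx ⊆ E)
    (hc : ∀ i, (B i ∩ (cE col E ∪ G)).card ≤ (45 * P.M * P.T + 3) * P.J) :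
    ∃ E', Cyc U E' ∧ E'.card = E.card + 1 ∧ Rb col E' ∧ Fx ⊆ E' ∧
      (∀ e ∈ E', e ∈ E ∨ ∃ i, col e ∈ B i ∧ col e ∉ G) ∧
      ∀ i, (B i ∩ (cE col E' ∪ G)).card ≤ (B i ∩ (cE col E ∪ G)).card + P.J := by
  classical
  set S : Finset κ := cE col E ∪ G with hS
  set D : ℕ := (45 * P.M * P.T + 3) * P.J with hD
  set B' : Fin 5 → Finset κ := fun i => B i \ S with hB'
  have hkB : P.kB = P.T * P.u := rfl
  have hsub : ∀ i, B' i ⊆ B i := fun i => sdiff_subset
  have hsplit : ∀ i, (B' i).card + (B i ∩ S).card = P.kB := by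
    intro i
    rw [← hB.card i]
    exact card_sdiff_add_card_inter (B i) S
  have h32D : 32 * D ≤ P.kB := hP.D32
  have hJ1 : 1 ≤ P.J := P.J1
  have hkJ : 10 ^ 5 * P.J ^ 2 ≤ P.kB := hP.kJ
  have hdel : ∀ i, ((B i ∪ ∅) \ (B' i ∪ ∅)).card ≤ D := by
    intro i
    rw [union_empty, union_empty]
    have h1 : B i \ B' i ⊆ B i ∩ S := by
      intro c hc
      rw [mem_sdiff, hB', mem_sdiff] at hc
      rw [mem_inter]
      refine ⟨hc.1, ?_⟩
      by_contra hcS
      exact hc.2 ⟨hc.1, hcS⟩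
    exact (card_le_card h1).trans (hc i)
  have hcardV : (6 : ℝ) ≤ (Fintype.card V : ℝ) := by exact_mod_cast P.n3
  have ha1 : 0 ≤ P.a₁ := by
    refine div_nonneg (add_nonneg (Real.log_nonneg ?_) (mul_nonneg (Nat.cast_nonneg _) P.δ0))
      P.lam0.le
    linarith
  have hkBn : P.kB ≤ Fintype.card V := by
    have h1 := P.hAn
    have h2 := P.tu
    have h3 : P.u ≤ P.t + P.m + 1 := by omega
    calc P.kB = P.T * P.u := rfl
      _ ≤ P.T * (P.t + P.m + 1) := Nat.mul_le_mul_left _ h3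
      _ ≤ _ := h1
  have hD0 : (0 : ℝ) ≤ D := Nat.cast_nonneg _
  have hUL : ∀ i, UMix col (pw (B' i) ∅ 0) P.kB (P.a₁ + 1 + D) ∧
      LMix col (pw (B' i) ∅ 0) P.kB (P.a₁ + 1 + D) := by
    intro i
    have h1 : Mix col (B i) (P.a₁ + 1) :=
      NB_mix col (B i) P.a₁ (hB.norm i) (by rw [hB.card i]; exact hkBn)
    obtain ⟨h2, h3⟩ := KClo_mix col (B i) (P.a₁ + 1) P.kB (hB.card i) h1
    refine ⟨?_, ?_⟩
    · exact UMix_mono col (pw (B i) ∅ 0) (pw (B' i) ∅ 0) (pw_nonneg _ _ 0 le_rfl)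
        (pw_mono (B i) (B' i) ∅ ∅ 0 le_rfl zero_le_one (hsub i) (Finset.Subset.refl _)) P.kB
        (P.a₁ + 1) (P.a₁ + 1 + D) (by linarith) h2
    · exact LMix_colours col hcol (B i) (B' i) ∅ ∅ 0 le_rfl zero_le_one (hsub i)
        (Finset.Subset.refl _) D (hdel i) (disjoint_empty_right _) P.kB (P.a₁ + 1) h3
  have hvf := hP.vf
  have hU : Fintype.card V ≤ 2 * U.card := by
    have h1 : (univ \ V').card ≤ U.card := card_le_card hV'U
    have h2 : (univ \ V').card = Fintype.card V - V'.card := by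
      rw [card_sdiff_of_subset (subset_univ _), card_univ]
    have h3 := P.vn
    omega
  have hBE : ∀ i, ∀ e ∈ E, col e ∉ B' i := by
    intro i e he hcon
    rw [hB', mem_sdiff] at hcon
    exact hcon.2 (mem_union_left _ (mem_image_of_mem _ he))
  have hBB : ∀ i j, i ≠ j → Disjoint (B' i) (B' j) := fun i j hij =>
    disjoint_of_subset_left (hsub i) (disjoint_of_subset_right (hsub j) (hB.disj i j hij))
  have hZ : 40 * P.J * (vF Fx).card ≤ Fintype.card V := by
    have h1 := hP.Jf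
    have h2 := vF_card Fx
    calc 40 * P.J * (vF Fx).card ≤ 40 * P.J * (2 * f) := Nat.mul_le_mul_left _ (by omega)
      _ = 80 * P.J * f := by ring
      _ ≤ _ := h1
  have hdeg : ∀ i, ∀ x ∈ U,
      3 / 4 * (P.kB : ℝ) ≤ wd col (pw (B' i) ∅ 0) x (U \ vF Fx) := by
    intro i x hx
    rw [wd_pw col (B' i) ∅ 0 (disjoint_empty_right _), zero_mul, add_zero,
      par_count col hcol (B' i) x (U \ vF Fx)]
    have h1 : (B' i).card ≤ ((B' i).filter (fun k => par col k x ≠ x ∧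
        par col k x ∈ U \ vF Fx)).card + cntB col (V' ∪ vF Fx) (B i) x := by
      have h2 : B' i ⊆ (B' i).filter (fun k => par col k x ≠ x ∧ par col k x ∈ U \ vF Fx) ∪
          (B i).filter (fun k => par col k x = x ∨ par col k x ∈ V' ∪ vF Fx) := by
        intro c hcc
        rw [mem_union, mem_filter, mem_filter]
        by_cases h3 : par col c x = x
        · exact Or.inr ⟨hsub i hcc, Or.inl h3⟩
        · by_cases h4 : par col c x ∈ U \ vF Fx
          · exact Or.inl ⟨hcc, h3, h4⟩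
          · refine Or.inr ⟨hsub i hcc, Or.inr ?_⟩
            by_contra h5
            rw [mem_union, not_or] at h5
            exact h4 (mem_sdiff.2 ⟨hV'U (mem_sdiff.2 ⟨mem_univ _, h5.1⟩), h5.2⟩)
      exact (card_le_card h2).trans (card_union_le _ _)
    have h3 := hB.deg i x
    have h4 := hsplit i
    have h5 := hc i
    have h6 : 3 * P.kB ≤ 4 * ((B' i).filter (fun k => par col k x ≠ x ∧
        par col k x ∈ U \ vF Fx)).card := by
      omega
    have h7 : 3 * (P.kB : ℝ) ≤ 4 * ((((B' i).filter (fun k => par col k x ≠ x ∧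
        par col k x ∈ U \ vF Fx)).card : ℕ) : ℝ) := by exact_mod_cast h6
    linarith
  have hkJr : 10 ^ 5 * (P.J : ℝ) ^ 2 ≤ (P.kB : ℝ) := by exact_mod_cast hkJ
  have hak : 10 ^ 6 * (P.J : ℝ) * (P.a₁ + 1 + D) ≤ (P.kB : ℝ) := by
    have h1 := hP.ka
    have h3 : (P.kB : ℝ) = (P.T : ℝ) * P.u := by
      rw [hkB]
      push_cast
      ring
    rw [h3]
    rw [← hD] at h1
    have h4 : P.a₁ + 1 + (D : ℝ) = P.a₁ + D + 1 := by ring
    rw [h4]
    exact h1
  obtain ⟨E', hc1, hc2, hc3, hc4, hc5, _, hc7⟩ := closingZ col hcol U E hE hlt hr B' ∅ 0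
    (P.kB : ℝ) (P.a₁ + 1 + D) (by positivity) le_rfl zero_le_one (by rw [zero_mul]; positivity)
    (fun i => (hUL i).1) (fun i => (hUL i).2) (vF Fx) P.J hJ1 P.Jn hP.JJ hU hZ hBE
    (fun e _ => notMem_empty _) hBB (fun i => disjoint_empty_right _) hdeg hkJr hak
  refine ⟨E', hc1, hc2, hc3, ?_, ?_, ?_⟩
  · intro e he
    by_contra heE
    obtain ⟨y, hy, hyZ⟩ := hc7 e (hfx he) heE
    apply hyZ
    unfold vF
    exact mem_filter.2 ⟨mem_univ _, e, he, hy⟩
  · intro e he
    by_cases heE : e ∈ E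
    · exact Or.inl heE
    · rcases hc4 e he heE with ⟨i, hi⟩ | hi
      · rw [hB', mem_sdiff, hS, mem_union, not_or] at hi
        exact Or.inr ⟨i, hi.1, hi.2.2⟩
      · exact absurd hi (notMem_empty _)
  · intro i
    have h1 : B i ∩ (cE col E' ∪ G) ⊆
        (B i ∩ S) ∪ (E'.filter (fun e => col e ∈ B' i)).image col := by
      intro c hcc
      rw [mem_inter, mem_union] at hcc
      by_cases hcS : c ∈ S
      · exact mem_union_left _ (mem_inter.2 ⟨hcc.1, hcS⟩)
      · have h2 : c ∉ G := fun h => hcS (mem_union_right _ h)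
        have h3 : c ∈ cE col E' := hcc.2.resolve_right h2
        obtain ⟨e, he, hec⟩ := mem_image.1 h3
        refine mem_union_right _ (mem_image.2 ⟨e, mem_filter.2 ⟨he, ?_⟩, hec⟩)
        rw [hec]
        exact mem_sdiff.2 ⟨hcc.1, hcS⟩
    calc (B i ∩ (cE col E' ∪ G)).card ≤
          ((B i ∩ S) ∪ (E'.filter (fun e => col e ∈ B' i)).image col).card := card_le_card h1
      _ ≤ (B i ∩ S).card + ((E'.filter (fun e => col e ∈ B' i)).image col).card :=
          card_union_le _ _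
      _ ≤ (B i ∩ S).card + P.J :=
          Nat.add_le_add_left (card_image_le.trans (hc5 i)) _

/-- Iteration of `close_oneK`; copy `close_many` (`W_cd7020_h81b/CloM.lean`). -/
theorem close_manyK (col : Sym2 V → κ) (hcol : Proper col) (Q : Finset κ)
    (P : Prm (Fintype.card V)) (v₀ f : ℕ) (hP : PK P v₀ f) (V' : Finset V)
    (hV' : V'.card ≤ v₀) (U : Finset V)
    (hV'U : univ \ V' ⊆ U) (Fx : Finset (Sym2 V)) (hf : Fx.card ≤ f) (B : Fin 5 → Finset κ)
    (hB : BP col Q (V' ∪ vF Fx) P.kB P.a₁ B) (G : Finset κ)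
    (q C : ℕ) (E : Finset (Sym2 V)) (hE : Cyc U E) (hq : E.card + q = U.card) (hr : Rb col E)
    (hfx : Fx ⊆ E) (hc : ∀ i, (B i ∩ (cE col E ∪ G)).card ≤ C * P.J)
    (hC : C + q ≤ 45 * P.M * P.T + 3) :
    ∃ E', Cyc U E' ∧ E'.card = U.card ∧ Rb col E' ∧ Fx ⊆ E' ∧
      (∀ e ∈ E', e ∈ E ∨ ∃ i, col e ∈ B i ∧ col e ∉ G) ∧
      ∀ i, (B i ∩ (cE col E' ∪ G)).card ≤ (C + q) * P.J := by
  induction q generalizing C E with
  | zero =>
    refine ⟨E, hE, by omega, hr, hfx, fun e he => Or.inl he, fun i => ?_⟩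
    simpa using hc i
  | succ q ih =>
    have hlt : E.card < U.card := by omega
    have hc' : ∀ i, (B i ∩ (cE col E ∪ G)).card ≤ (45 * P.M * P.T + 3) * P.J := fun i =>
      (hc i).trans (Nat.mul_le_mul_right _ (by omega))
    obtain ⟨E₁, hE₁, hcard₁, hr₁, hfx₁, hcov₁, hcc₁⟩ :=
      close_oneK col hcol Q P v₀ f hP V' hV' U hV'U Fx hf B hB G E hE hlt hr hfx hc'
    have hc₁ : ∀ i, (B i ∩ (cE col E₁ ∪ G)).card ≤ (C + 1) * P.J := fun i => by
      have h1 := hcc₁ i
      have h2 := hc i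
      rw [Nat.add_mul, Nat.one_mul]
      omega
    obtain ⟨E', hE', hcard', hr', hfx', hcov', hcc'⟩ :=
      ih (C + 1) E₁ hE₁ (by omega) hr₁ hfx₁ hc₁ (by omega)
    refine ⟨E', hE', hcard', hr', hfx', fun e he => ?_, fun i => ?_⟩
    · rcases hcov' e he with h | h
      · exact hcov₁ e h
      · exact Or.inr h
    · have h := hcc' i
      have h3 : C + 1 + q = C + (q + 1) := by omega
      rw [h3] at h
      exact h

end Pool.Agent.W_cd7020_h81k
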