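import Pool.Agent.W_cd7020_h81k.KIniA
import Pool.Agent.W_cd7020_h81k.KClo
import Pool.Agent.W_cd7020_h81.JoinIso

/-!
# The initial state
-/

set_option autoImplicit false

namespace Pool.Agent.W_cd7020_h81k

open Finset Pool.Agent.W_cd7020_h81 Pool.Agent.W_cd7020_h81b Pool.Agent.W_cd7020_h81c

variable {V κ : Type*} [DecidableEq V] [DecidableEq κ] [Fintype V]

omit [Fintype V] in
/-- A matching on `U` is a linear forest. -/
theorem KIniB_lf (U : Finset V) (A : Finset (Sym2 V)) (hd : ∀ e ∈ A, ¬ e.IsDiag)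
    (hm : ∀ e ∈ A, ∀ e' ∈ A, ∀ x, x ∈ e → x ∈ e' → e = e') (hU : ∀ e ∈ A, ∀ x ∈ e, x ∈ U) :
    LF U A := by
  induction A using Finset.induction_on with
  | empty =>
    exact ⟨U.toList, Finset.nodup_toList _, fun v => Finset.mem_toList, fun e he =>
      absurd he (Finset.notMem_empty e)⟩
  | insert e A he ih =>
    have h1 : LF U A := ih (fun e he => hd e (Finset.mem_insert_of_mem he))
      (fun e he e' he' => hm e (Finset.mem_insert_of_mem he) e' (Finset.mem_insert_of_mem he'))
      (fun e he => hU e (Finset.mem_insert_of_mem he))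
    have hzero : ∀ x ∈ e, dg A x = 0 := by
      intro x hx
      unfold dg
      rw [Finset.card_eq_zero, Finset.filter_eq_empty_iff]
      intro e' he' hx'
      have h2 := hm e (Finset.mem_insert_self _ _) e' (Finset.mem_insert_of_mem he') x hx hx'
      rw [h2] at he
      exact he he'
    induction e using Sym2.ind with
    | _ x y =>
      have hxy : x ≠ y := by
        intro h
        exact hd s(x, y) (Finset.mem_insert_self _ _) (Sym2.mk_isDiag_iff.2 h)
      exact h1.join_iso (hU _ (Finset.mem_insert_self _ _) x (Sym2.mem_mk_left x y))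
        (hU _ (Finset.mem_insert_self _ _) y (Sym2.mem_mk_right x y)) hxy
        (by rw [hzero x (Sym2.mem_mk_left x y)]; exact Nat.zero_le 1)
        (hzero y (Sym2.mem_mk_right x y))

/-- A matching disjoint from `V'` is a linear forest (list the edges one after the other, then
the other vertices). -/
theorem fix_valid (col : Sym2 V → κ) (Q : Finset κ) (Fx : Finset (Sym2 V))
    (hF : Fix col Q Fx) (V' : Finset V) (hV : Disjoint V' (vF Fx)) (Φ : Finset κ)
    (hΦ : ∀ e ∈ Fx, col e ∉ Φ) : Valid col Fx Φ (univ \ V') Fx ∧ ∀ y, dg Fx y ≤ 1 := by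
  refine ⟨⟨KIniB_lf _ _ hF.diag hF.mat ?_, Finset.Subset.refl _, hF.rb, hΦ⟩, ?_⟩
  · intro e he x hx
    refine Finset.mem_sdiff.2 ⟨Finset.mem_univ _, fun hxV => ?_⟩
    exact (Finset.disjoint_left.1 hV) hxV (Finset.mem_filter.2 ⟨Finset.mem_univ _, e, he, hx⟩)
  · intro y
    unfold dg
    rw [Finset.card_le_one]
    intro e he e' he'
    rw [Finset.mem_filter] at he he'
    exact hF.mat e he.1 e' he'.1 y he.2 he'.2

/-- At most `2 μ` edges at `x` have a colour outside `Q`. -/
theorem KIniB_out (col : Sym2 V → κ) (Q : Finset κ) (μ : ℕ) (hQ : GoodK col Q μ) (x : V) :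
    ((univ : Finset V).filter (fun w => w ≠ x ∧ col s(x, w) ∉ Q)).card ≤ 2 * μ := by
  have h1 := par_count col hQ.proper Q x univ
  have h2 : (Q.filter (fun k => par col k x ≠ x ∧ par col k x ∈ (univ : Finset V))).card +
      (Q.filter (fun k => par col k x = x)).card = Q.card := by
    have h3 := Finset.card_filter_add_card_filter_not (s := Q) (fun k => par col k x = x)
    have h4 : (Q.filter (fun k => par col k x ≠ x ∧ par col k x ∈ (univ : Finset V))) =
        (Q.filter (fun k => ¬ par col k x = x)) := by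
      ext k
      simp
    rw [h4]
    omega
  have h5 := hQ.missv x
  have h6 := hQ.large
  have h7 : ((univ : Finset V).filter (fun w => w ≠ x ∧ col s(x, w) ∈ Q)).card +
      ((univ : Finset V).filter (fun w => w ≠ x ∧ col s(x, w) ∉ Q)).card =
      ((univ : Finset V).filter (fun w => w ≠ x)).card := by
    rw [← Finset.card_union_of_disjoint]
    · congr 1
      ext w
      simp only [Finset.mem_union, Finset.mem_filter, Finset.mem_univ, true_and]
      tauto
    · rw [Finset.disjoint_left]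
      intro w hw hw'
      simp only [Finset.mem_filter, Finset.mem_univ, true_and] at hw hw'
      exact hw'.2 hw.2
  have h8 : ((univ : Finset V).filter (fun w => w ≠ x)).card + 1 = Fintype.card V := by
    rw [Finset.filter_ne' univ x, Finset.card_erase_of_mem (Finset.mem_univ x), Finset.card_univ]
    have : 0 < Fintype.card V := Fintype.card_pos_iff.2 ⟨x⟩
    omega
  omega

/-- The initial state; adapt `init_state` (`W_cd7020_h81b/InB.lean`): `few` with `A = Fx`, `Sat = ∅`,
`Φ` = (the colours not in `Q` and not of `Fx`) and the pools, `h = 2 μ + kA + 5 kB`, `b = 142 J`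
(at most `2 μ` edges at `x` have a colour outside `Q`, by `GoodK.large`). Then `close_manyK` with `G = ∅`,
`C = 0`. -/
theorem init_stateK (col : Sym2 V → κ) (Q : Finset κ) (P : Prm (Fintype.card V)) (v₀ f a : ℕ)
    (hP : PK P v₀ f) (hI : IPrmK P v₀ a) (hQ : GoodK col Q P.μ) (Fx : Finset (Sym2 V))
    (hF : Fix col Q Fx) (hf : Fx.card ≤ f) (hf' : f ≤ v₀) (V' : Finset V)
    (hV' : V'.card = v₀) (hV : Disjoint V' (vF Fx)) :
    ∃ U E R B, StateK col Q V' Fx P U E R B := by
  have hW : (V' ∪ vF Fx).card ≤ P.v := by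
    have h1 := Finset.card_union_le V' (vF Fx)
    have h2 := vF_card Fx
    have h3 := hP.vf
    omega
  obtain ⟨R, B, hRQ, hRc, hRn, hBP, hRB⟩ := init_poolsK col Q P v₀ a hI hQ (V' ∪ vF Fx) hW
  let Z : Finset κ := R ∪ univ.biUnion B
  let Φ : Finset κ := (((univ : Finset (Sym2 V)).image col \ Q) \ cE col Fx) ∪ Z
  have hZQ : Z ⊆ Q := by
    refine Finset.union_subset hRQ ?_
    intro k hk
    obtain ⟨i, -, hi⟩ := Finset.mem_biUnion.1 hk
    exact hBP.sub i hi
  have hZc : Z.card ≤ P.kA + 5 * P.kB := by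
    refine (Finset.card_union_le _ _).trans ?_
    have h1 : (univ.biUnion B).card ≤ ∑ i : Fin 5, (B i).card := Finset.card_biUnion_le
    have h2 : ∑ i : Fin 5, (B i).card = 5 * P.kB := by
      simp only [hBP.card, Finset.sum_const, Finset.card_univ, Fintype.card_fin, smul_eq_mul]
    omega
  have hΦ : ∀ e ∈ Fx, col e ∉ Φ := by
    intro e he h
    rcases Finset.mem_union.1 h with h | h
    · exact (Finset.mem_sdiff.1 h).2 (Finset.mem_image_of_mem _ he)
    · exact hF.cQ e he (hZQ h)
  obtain ⟨hA, hAdeg⟩ := fix_valid col Q Fx hF V' hV Φ hΦ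
  have hSat : ∀ x, x ∉ (∅ : Finset V) →
      (univ.filter (fun w => w ≠ x ∧ col s(x, w) ∈ Φ)).card ≤ 2 * P.μ + (P.kA + 5 * P.kB) := by
    intro x _
    have h1 : (univ.filter (fun w => w ≠ x ∧ col s(x, w) ∈ Φ)) ⊆
        (univ.filter (fun w => w ≠ x ∧ col s(x, w) ∉ Q)) ∪
        (univ.filter (fun w => w ≠ x ∧ col s(x, w) ∈ Z)) := by
      intro w hw
      rw [Finset.mem_filter] at hw
      rw [Finset.mem_union, Finset.mem_filter, Finset.mem_filter]
      obtain ⟨hw1, hw2, hw3⟩ := hw
      rcases Finset.mem_union.1 hw3 with h | h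
      · exact Or.inl ⟨hw1, hw2, (Finset.mem_sdiff.1 (Finset.mem_sdiff.1 h).1).2⟩
      · exact Or.inr ⟨hw1, hw2, h⟩
    have h2 := (Finset.card_le_card h1).trans (Finset.card_union_le _ _)
    have h3 := KIniB_out col Q P.μ hQ x
    have h4 := InB_deg col hQ.proper Z x
    omega
  obtain ⟨S, hSV, F, hFv, hFc⟩ := few col hQ.proper Fx Φ V' ∅ (2 * P.μ + (P.kA + 5 * P.kB))
    (142 * P.J) v₀ P.J a hA hAdeg (hf.trans hf') hV' hSat P.J1 rfl P.Jn hI.v43
    hI.av hI.a1 hI.hh (by simpa using hI.hT)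
  obtain ⟨hF1, hF2, hF3, hF4⟩ := hFv
  have hFle : F.card ≤ ((univ \ V') ∪ S).card := hF1.cyc.card_le
  have hFZ : ∀ e ∈ F, col e ∉ Z := fun e he h => hF4 e he (Finset.mem_union_right _ h)
  have hFQ : ∀ e ∈ F, e ∉ Fx → col e ∈ Q := by
    intro e he heF
    by_contra h
    refine hF4 e he (Finset.mem_union_left _ (Finset.mem_sdiff.2 ⟨Finset.mem_sdiff.2
      ⟨Finset.mem_image_of_mem _ (Finset.mem_univ _), h⟩, fun h1 => ?_⟩))
    obtain ⟨e', he', h2⟩ := Finset.mem_image.1 h1
    have h3 := hF3 e' (hF2 he') e he h2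
    rw [h3] at he'
    exact heF he'
  have hFB : ∀ i, ∀ e ∈ F, col e ∉ B i := fun i e he h =>
    hFZ e he (Finset.mem_union_right _ (Finset.mem_biUnion.2 ⟨i, Finset.mem_univ _, h⟩))
  have hFR : ∀ e ∈ F, col e ∉ R := fun e he h => hFZ e he (Finset.mem_union_left _ h)
  have hFc' : ((univ \ V') ∪ S).card ≤ F.card + a := by simpa using hFc
  have haM := hI.aM
  have haM' : a ≤ 45 * P.M * P.T + 3 := by
    have h1 : P.M * P.T ≤ 45 * P.M * P.T := by
      rw [mul_assoc]
      exact Nat.le_mul_of_pos_left _ (by norm_num)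
    omega
  obtain ⟨E', hE1, hE2, hE3, hEF, hE4, hE5⟩ := close_manyK col hQ.proper Q P v₀ f hP V' hV'.le
    ((univ \ V') ∪ S) Finset.subset_union_left Fx hf B hBP ∅
    (((univ \ V') ∪ S).card - F.card) 0 F
    hF1.cyc (by omega) hF3 hF2 (fun i => by
      have h1 : B i ∩ (cE col F ∪ ∅) = ∅ := by
        rw [Finset.union_empty, Finset.eq_empty_iff_forall_notMem]
        intro k hk
        obtain ⟨hk1, hk2⟩ := Finset.mem_inter.1 hk
        obtain ⟨e, he, rfl⟩ := Finset.mem_image.1 hk2
        exact hFB i e he hk1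
      rw [h1]
      simp) (by omega)
  refine ⟨(univ \ V') ∪ S, E', R, B, ?_⟩
  refine ⟨Finset.subset_union_left, hE1, hE2, hE3, hEF, ?_, hRQ, hRc, hRn, ?_, hBP, hRB, ?_⟩
  · intro k hk
    obtain ⟨e, he, rfl⟩ := Finset.mem_image.1 hk
    obtain ⟨he1, he2⟩ := Finset.mem_sdiff.1 he
    rcases hE4 e he1 with h | ⟨i, h, _⟩
    · exact hFQ e h he2
    · exact hBP.sub i h
  · rw [Finset.disjoint_left]
    intro k hk hk'
    obtain ⟨e, he, rfl⟩ := Finset.mem_image.1 hk'
    rcases hE4 e he with h | ⟨i, h, _⟩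
    · exact hFR e h hk
    · exact (Finset.disjoint_left.1 (hRB i)) hk h
  · intro i
    have h1 := hE5 i
    rw [Finset.union_empty] at h1
    refine h1.trans (Nat.mul_le_mul_right _ ?_)
    omega

end Pool.Agent.W_cd7020_h81k
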