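import Pool.Agent.W_cd7020_h81k.KDefs
import Pool.Agent.W_cd7020_h81b.NumB
import Pool.Agent.W_cd7020_h81b.NumC

/-!
# The numbers
-/

set_option autoImplicit false

namespace Pool.Agent.W_cd7020_h81k

open Finset Pool.Agent.W_cd7020_h81b

/-- The additional inequalities for the parameters of `prm_exists`, `v₀ = P.v / 2`
(`a₁ ≤ 5 L ^ 132`, `(45 M T + 3) J ≤ 46 L ^ 196`, `T u = L ^ 199`; `NumB_log`). -/
theorem pk_exists (n L μ f : ℕ) (hL4 : 10 ^ 4 ≤ L) (hn : n ≤ 2 ^ L) (hL : L ^ 400 ≤ n)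
    (hf : f * L ^ 177 ≤ n) (P : Prm n) (hPμ : P.μ = μ) (hJ : P.J = L) (hu : P.u = L ^ 17)
    (ht : P.t = 10 * L ^ 17) (hm : P.m = 10 * L ^ 17 + L ^ 24) (hT : P.T = L ^ 182)
    (hM : P.M = L ^ 13) (hv : P.v = n / L ^ 176) (hlam : P.lam = 1 / (L : ℝ) ^ 100)
    (hδ : P.δ = 4 / (L : ℝ) ^ 150) : PK P (P.v / 2) f ∧ f ≤ P.v / 2 := by
  have hL4' : 4000 ≤ L := by omega
  have hL0 : 0 < L := by omega
  have hp : ∀ k, k ≤ 400 → L ^ k ≤ n := fun k hk => (Nat.pow_le_pow_right hL0 hk).trans hL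
  have hp1 : ∀ k, 1 ≤ L ^ k := fun k => Nat.one_le_pow _ _ hL0
  have hn1 : 1 ≤ n := (hp1 400).trans hL
  have hx : (10 ^ 4 : ℝ) ≤ L := by exact_mod_cast hL4
  have hx' : (4000 : ℝ) ≤ L := by linarith
  have h0 : (0 : ℝ) < L := by linarith
  have hfv : 4 * f ≤ P.v := by
    rw [hv, Nat.le_div_iff_mul_le (hp1 176)]
    calc 4 * f * L ^ 176 = 4 * (f * L ^ 176) := by ring
      _ ≤ L * (f * L ^ 176) := Nat.mul_le_mul_right _ (by omega)
      _ = f * L ^ 177 := by ring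
      _ ≤ n := hf
  have h196 : L ≤ L ^ 196 := by
    calc L = L ^ 1 := (pow_one L).symm
      _ ≤ L ^ 196 := Nat.pow_le_pow_right hL0 (by norm_num)
  have hD : (45 * L ^ 13 * L ^ 182 + 3) * L ≤ 48 * L ^ 196 := by
    calc (45 * L ^ 13 * L ^ 182 + 3) * L = 45 * L ^ 196 + 3 * L := by ring
      _ ≤ 48 * L ^ 196 := by omega
  refine ⟨⟨by omega, ?_, ?_, ?_, ?_, ?_⟩, by omega⟩
  · rw [hJ]
    exact (NumB_nat L hL4' (10 ^ 7) 2 4 (by norm_num) (by norm_num)).trans (hp 4 (by norm_num))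
  · rw [hJ]
    calc 80 * L * f = f * (80 * L ^ 1) := by ring
      _ ≤ f * L ^ 177 := Nat.mul_le_mul_left _
          (NumB_nat L hL4' 80 1 177 (by norm_num) (by norm_num))
      _ ≤ n := hf
  · rw [hJ, hM, hT, hu]
    have h1 := NumB_nat L hL4' (32 * 48) 196 199 (by norm_num) (by norm_num)
    calc 32 * ((45 * L ^ 13 * L ^ 182 + 3) * L) ≤ 32 * (48 * L ^ 196) :=
          Nat.mul_le_mul_left _ hD
      _ = 32 * 48 * L ^ 196 := by ring
      _ ≤ L ^ 199 := h1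
      _ = L ^ 182 * L ^ 17 := by ring
  · rw [hJ, hT, hu]
    have h1 := NumB_nat L hL4' (10 ^ 5) 2 199 (by norm_num) (by norm_num)
    calc 10 ^ 5 * L ^ 2 ≤ L ^ 199 := h1
      _ = L ^ 182 * L ^ 17 := by ring
  · have hlog := NumB_log n L hL4' hn1 hn
    have ha : P.a₁ ≤ 5 * (L : ℝ) ^ 132 := by
      unfold Prm.a₁
      rw [hT, hδ, hlam]
      push_cast
      have hTδ : (L : ℝ) ^ 182 * (4 / (L : ℝ) ^ 150) = 4 * (L : ℝ) ^ 32 := by
        field_simp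
      rw [div_div_eq_mul_div, div_one, hTδ]
      have h1 : (L : ℝ) ≤ (L : ℝ) ^ 32 := by
        calc (L : ℝ) = (L : ℝ) ^ 1 := (pow_one _).symm
          _ ≤ (L : ℝ) ^ 32 := pow_le_pow_right₀ (by linarith) (by norm_num)
      have hW : Real.log (40 * n) + 4 * (L : ℝ) ^ 32 ≤ 5 * (L : ℝ) ^ 32 := by
        linarith [hlog.1]
      calc (Real.log (40 * n) + 4 * (L : ℝ) ^ 32) * (L : ℝ) ^ 100
          ≤ 5 * (L : ℝ) ^ 32 * (L : ℝ) ^ 100 := mul_le_mul_of_nonneg_right hW (by positivity)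
        _ = 5 * (L : ℝ) ^ 132 := by ring
    have hDr : (((45 * P.M * P.T + 3) * P.J : ℕ) : ℝ) ≤ 48 * (L : ℝ) ^ 196 := by
      rw [hM, hT, hJ]
      exact_mod_cast hD
    have h4 : (L : ℝ) ^ 132 ≤ (L : ℝ) ^ 196 := pow_le_pow_right₀ (by linarith) (by norm_num)
    have h6 : (1 : ℝ) ≤ (L : ℝ) ^ 196 := one_le_pow₀ (by linarith)
    rw [hJ, hT, hu]
    rw [hM, hT, hJ] at hDr
    have h2 : (54 * 10 ^ 6 : ℝ) ≤ (L : ℝ) ^ 2 := by nlinarith
    calc 10 ^ 6 * (L : ℝ) * (P.a₁ + (((45 * P.M * L ^ 182 + 3) * L : ℕ) : ℝ) + 1)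
        ≤ 10 ^ 6 * (L : ℝ) * (54 * (L : ℝ) ^ 196) := by
          apply mul_le_mul_of_nonneg_left _ (by positivity)
          rw [hM]
          linarith
      _ = (54 * 10 ^ 6) * (L : ℝ) ^ 197 := by ring
      _ ≤ (L : ℝ) ^ 2 * (L : ℝ) ^ 197 := mul_le_mul_of_nonneg_right h2 (by positivity)
      _ = (((L ^ 182 : ℕ) : ℝ) * ((L ^ 17 : ℕ) : ℝ)) := by push_cast; ring

/-- The conditions for the initial state with `a = L ^ 179`, `δ' = L ^ (-174)`; adapt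
`iprm_exists` (`W_cd7020_h81b/NumC.lean`). -/
theorem iprmK_exists (n L μ : ℕ) (hL4 : 10 ^ 4 ≤ L) (hn : n ≤ 2 ^ L) (hL : L ^ 400 ≤ n)
    (hμ : μ * L ^ 177 ≤ n) (P : Prm n) (hPμ : P.μ = μ) (hJ : P.J = L) (hu : P.u = L ^ 17)
    (ht : P.t = 10 * L ^ 17) (hm : P.m = 10 * L ^ 17 + L ^ 24) (hT : P.T = L ^ 182)
    (hM : P.M = L ^ 13) (hv : P.v = n / L ^ 176) (hlam : P.lam = 1 / (L : ℝ) ^ 100)
    (hδ : P.δ = 4 / (L : ℝ) ^ 150) : IPrmK P (P.v / 2) (L ^ 179) := by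
  have hL4' : 4000 ≤ L := by omega
  have hL0 : 0 < L := by omega
  have hp : ∀ a b : ℕ, a ≤ b → L ^ a ≤ L ^ b := fun a b hab => Nat.pow_le_pow_right hL0 hab
  have hn0 : 0 < n := lt_of_lt_of_le (pow_pos hL0 400) hL
  -- the number of pool colours
  obtain ⟨k, hkdef⟩ : ∃ k, k = P.kA + 5 * P.kB := ⟨_, rfl⟩
  have hk : k = L ^ 182 * (L ^ 24 + 20 * L ^ 17 + 1) := by
    rw [hkdef]
    unfold Prm.kA Prm.kB Prm.r₀
    rw [ht, hm, hu, hT]
    have e1 : 10 * L ^ 17 + (10 * L ^ 17 + L ^ 24) + 1 - 5 * L ^ 17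
        = 15 * L ^ 17 + L ^ 24 + 1 := by omega
    rw [e1]
    ring
  have hk2 : k ≤ 2 * L ^ 206 := by
    have e1 : 20 * L ^ 17 + 1 ≤ L ^ 24 := by
      have e2 : 1 ≤ L ^ 17 := Nat.one_le_pow _ _ hL0
      calc 20 * L ^ 17 + 1 ≤ 21 * L ^ 17 := by omega
        _ ≤ L * L ^ 17 := Nat.mul_le_mul_right _ (by omega)
        _ = L ^ 18 := by ring
        _ ≤ L ^ 24 := hp _ _ (by norm_num)
    calc k = L ^ 182 * (L ^ 24 + (20 * L ^ 17 + 1)) := by rw [hk]; ring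
      _ ≤ L ^ 182 * (L ^ 24 + L ^ 24) := Nat.mul_le_mul_left _ (by omega)
      _ = 2 * L ^ 206 := by ring
  obtain ⟨hv1, -, hk180⟩ := NumC_nat n L μ k P.v hL4' hL hμ hk2 hv
  have hvn : P.v * L ^ 176 ≤ n := by
    rw [hv]
    exact Nat.div_mul_le_self _ _
  have hS : (4 * μ + P.v + 2 * k) * L ^ 175 ≤ n := by
    have a2 : 4 * (4 * μ * L ^ 175) ≤ n := by
      calc 4 * (4 * μ * L ^ 175) = (μ * L ^ 175) * 16 := by ring
        _ ≤ (μ * L ^ 175) * (L ^ 2) := Nat.mul_le_mul_left _ (by nlinarith)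
        _ = μ * L ^ 177 := by ring
        _ ≤ n := hμ
    have a3 : 4 * (P.v * L ^ 175) ≤ n := by
      calc 4 * (P.v * L ^ 175) ≤ L * (P.v * L ^ 175) := Nat.mul_le_mul_right _ (by omega)
        _ = P.v * L ^ 176 := by ring
        _ ≤ n := hvn
    have a4 : 4 * (2 * k * L ^ 175) ≤ n := by
      calc 4 * (2 * k * L ^ 175) = 8 * L ^ 175 * k := by ring
        _ ≤ 8 * L ^ 175 * (2 * L ^ 206) := Nat.mul_le_mul_left _ hk2
        _ = 16 * L ^ 381 := by ring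
        _ ≤ L * L ^ 381 := Nat.mul_le_mul_right _ (by omega)
        _ = L ^ 382 := by ring
        _ ≤ L ^ 400 := hp _ _ (by norm_num)
        _ ≤ n := hL
    have a5 : (4 * μ + P.v + 2 * k) * L ^ 175
        = 4 * μ * L ^ 175 + P.v * L ^ 175 + 2 * k * L ^ 175 := by ring
    omega
  -- `v / 2`
  obtain ⟨w, hw⟩ : ∃ w, w = P.v / 2 := ⟨_, rfl⟩
  have hv43 : 4 * (4 * L ^ 179 + 43) ≤ P.v := by
    rw [hv, Nat.le_div_iff_mul_le (pow_pos hL0 _)]
    have e1 : 43 ≤ 43 * L ^ 179 := by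
      have := Nat.one_le_pow 179 L hL0
      omega
    calc 4 * (4 * L ^ 179 + 43) * L ^ 176 ≤ 4 * (4 * L ^ 179 + 43 * L ^ 179) * L ^ 176 :=
          Nat.mul_le_mul_right _ (by omega)
      _ = 188 * L ^ 355 := by ring
      _ ≤ L * L ^ 355 := Nat.mul_le_mul_right _ (by omega)
      _ = L ^ 356 := by ring
      _ ≤ L ^ 400 := hp _ _ (by norm_num)
      _ ≤ n := hL
  have hvw : P.v ≤ 4 * w := by omega
  rw [← hw]
  refine ⟨by omega, ?_, Nat.one_le_pow _ _ hL0, ?_, by omega, ?_, ?_, ?_, ?_, ?_⟩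
  · -- `av`
    rw [hJ]
    have e1 : 8 * (64 * (142 * L)) ≤ L ^ 3 := by
      have : 10 ^ 4 * 10 ^ 4 ≤ L * L := Nat.mul_le_mul hL4 hL4
      calc 8 * (64 * (142 * L)) = 72704 * L := by ring
        _ ≤ (L * L) * L := Nat.mul_le_mul_right _ (by omega)
        _ = L ^ 3 := by ring
    have e2 : 8 * (64 * (142 * L) * n) ≤ 8 * (L ^ 179 * w) := by
      calc 8 * (64 * (142 * L) * n) = 8 * (64 * (142 * L)) * n := by ring
        _ ≤ L ^ 3 * n := Nat.mul_le_mul_right _ e1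
        _ ≤ L ^ 3 * (2 * (L ^ 176 * P.v)) := Nat.mul_le_mul_left _ hv1
        _ ≤ L ^ 3 * (2 * (L ^ 176 * (4 * w))) := by gcongr
        _ = 8 * (L ^ 179 * w) := by ring
    omega
  · -- `hh`
    rw [hPμ, ← hkdef]
    have e1 : L ^ 177 * (16 * (2 * μ + k)) ≤ L ^ 177 * w := by
      have e2 : 16 * (L ^ 177 * k) ≤ n := by
        calc 16 * (L ^ 177 * k) ≤ 16 * (L ^ 177 * (2 * L ^ 206)) := by
              gcongr
          _ = 32 * L ^ 383 := by ring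
          _ ≤ L * L ^ 383 := Nat.mul_le_mul_right _ (by omega)
          _ = L ^ 384 := by ring
          _ ≤ L ^ 400 := hp _ _ (by norm_num)
          _ ≤ n := hL
      have e3 : L ^ 177 * (16 * (2 * μ + k)) = 32 * (μ * L ^ 177) + 16 * (L ^ 177 * k) := by ring
      have e4 : 8 * (33 * n) ≤ 8 * (L ^ 177 * w) := by
        calc 8 * (33 * n) = 264 * n := by ring
          _ ≤ L * n := Nat.mul_le_mul_right _ (by omega)
          _ ≤ L * (2 * (L ^ 176 * P.v)) := Nat.mul_le_mul_left _ hv1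
          _ ≤ L * (2 * (L ^ 176 * (4 * w))) := by gcongr
          _ = 8 * (L ^ 177 * w) := by ring
      omega
    exact Nat.le_of_mul_le_mul_left e1 (pow_pos hL0 _)
  · -- `aM`
    rw [hM, hT, ← pow_add]
    exact hp _ _ (by norm_num)
  · -- `μn`
    rw [hPμ]
    calc 8 * μ = μ * 8 := by ring
      _ ≤ μ * L ^ 177 := Nat.mul_le_mul_left _ (by
          calc 8 ≤ L := by omega
            _ = L ^ 1 := (pow_one L).symm
            _ ≤ L ^ 177 := hp _ _ (by norm_num))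
      _ ≤ n := hμ
  · -- `kn`
    rw [← hkdef]
    calc 8 * k ≤ 8 * (2 * L ^ 206) := by omega
      _ = 16 * L ^ 206 := by ring
      _ ≤ L * L ^ 206 := Nat.mul_le_mul_right _ (by omega)
      _ = L ^ 207 := by ring
      _ ≤ L ^ 400 := hp _ _ (by norm_num)
      _ ≤ n := hL
  · -- `lam1`
    rw [hlam]
    have e1 : (2 : ℝ) ≤ (L : ℝ) ^ 100 := by
      have e2 : 2 ≤ L ^ 100 := by
        calc 2 ≤ L := by omega
          _ = L ^ 1 := (pow_one L).symm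
          _ ≤ L ^ 100 := hp _ _ (by norm_num)
      exact_mod_cast e2
    rw [mul_one_div, div_le_one (by linarith)]
    exact e1
  · -- `hδ`
    have hlR : (4000 : ℝ) ≤ L := by exact_mod_cast hL4'
    have hl0 : (0 : ℝ) < L := by linarith
    refine ⟨1 / (L : ℝ) ^ 174, by positivity, ?_, ?_⟩
    · have hmain := NumC_real (n : ℝ) (L : ℝ) ((4 * μ + P.v + 2 * k : ℕ) : ℝ) (k : ℝ) P.lam hlR
        (by exact_mod_cast hn0) (by exact_mod_cast hS) (by exact_mod_cast hk180)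
        (by positivity) (by positivity) hlam
      rw [← hkdef, hPμ]
      refine le_trans (le_of_eq ?_) hmain
      push_cast
      ring
    · rw [← hkdef, hT, hδ]
      have e1 : (k : ℝ) ≤ 2 * (L : ℝ) ^ 206 := by exact_mod_cast hk2
      push_cast
      rw [mul_one_div, mul_div_assoc', div_le_div_iff₀ (by positivity) (by positivity)]
      calc (k : ℝ) * (L : ℝ) ^ 150 ≤ 2 * (L : ℝ) ^ 206 * (L : ℝ) ^ 150 :=
            mul_le_mul_of_nonneg_right e1 (by positivity)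
        _ = 2 * (L : ℝ) ^ 356 := by ring
        _ ≤ 4 * (L : ℝ) ^ 356 := by
            have : (0 : ℝ) ≤ (L : ℝ) ^ 356 := by positivity
            linarith
        _ = (L : ℝ) ^ 182 * 4 * (L : ℝ) ^ 174 := by ring

end Pool.Agent.W_cd7020_h81k
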