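import Pool.Agent.W_cd7020_h81k.KEp
import Pool.Agent.W_cd7020_h81k.KIniB
import Pool.Agent.W_cd7020_h81k.KNum

/-!
# Rainbow cycles through a fixed matching
-/

set_option autoImplicit false

namespace Pool.Agent.W_cd7020_h81k

open Finset Pool.Agent.W_cd7020_h81 Pool.Agent.W_cd7020_h81b Pool.Agent.W_cd7020_h81c

variable {V κ : Type*} [DecidableEq V] [DecidableEq κ] [Fintype V]

omit [DecidableEq κ] in
theorem vF_card_le (Fx : Finset (Sym2 V)) : (vF Fx).card ≤ 2 * Fx.card := by
  classical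
  have h1 : vF Fx ⊆ Fx.biUnion (fun e => univ.filter (fun x => x ∈ e)) := by
    intro x hx
    simp only [vF, mem_filter, mem_univ, true_and] at hx
    obtain ⟨e, he, hxe⟩ := hx
    simp only [mem_biUnion, mem_filter, mem_univ, true_and]
    exact ⟨e, he, hxe⟩
  calc (vF Fx).card ≤ (Fx.biUnion (fun e => univ.filter (fun x => x ∈ e))).card :=
        Finset.card_le_card h1
    _ ≤ ∑ e ∈ Fx, (univ.filter (fun x : V => x ∈ e)).card := Finset.card_biUnion_le
    _ ≤ ∑ _e ∈ Fx, 2 := by
        apply Finset.sum_le_sum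
        intro e _
        induction e using Sym2.ind with
        | _ a b =>
          calc (univ.filter (fun x : V => x ∈ s(a, b))).card ≤ ({a, b} : Finset V).card := by
                apply Finset.card_le_card
                intro x hx
                simpa [Sym2.mem_iff] using hx
            _ ≤ 2 := Finset.card_le_two
    _ = 2 * Fx.card := by
        rw [Finset.sum_const, smul_eq_mul, mul_comm]

/-- Take a state with `|U|` maximal; adapt `top` (`W_cd7020_h81b/Top.lean`). -/
theorem topK (col : Sym2 V → κ) (Q : Finset κ) (P : Prm (Fintype.card V)) (v₀ f a : ℕ)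
    (hP : PK P v₀ f) (hI : IPrmK P v₀ a) (hQ : GoodK col Q P.μ) (Fx : Finset (Sym2 V))
    (hF : Fix col Q Fx) (hf : Fx.card ≤ f) (hf' : f ≤ v₀) :
    ∃ (U : Finset V) (E : Finset (Sym2 V)), Cyc U E ∧ E.card = U.card ∧ Rb col E ∧ Fx ⊆ E ∧
      cE col (E \ Fx) ⊆ Q ∧ 3 ≤ U.card ∧
      (U = univ ∨ Q.card + Fx.card < U.card + P.K) := by
  have hn := P.n3
  have hv := P.vn
  have hvf := hP.vf
  have hFc := vF_card_le Fx
  obtain ⟨V', hV'F, hV'⟩ := Finset.exists_subset_card_eq (s := (univ : Finset V) \ vF Fx)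
    (n := v₀) (by
      have h2 := Finset.card_sdiff_add_card_eq_card (Finset.subset_univ (vF Fx))
      rw [Finset.card_univ] at h2
      omega)
  have hVd : Disjoint V' (vF Fx) := by
    rw [Finset.disjoint_left]
    intro x hx hx'
    exact (Finset.mem_sdiff.1 (hV'F hx)).2 hx'
  have key : ∀ (d : ℕ) (U : Finset V) (E : Finset (Sym2 V)) (R : Finset κ)
      (B : Fin 5 → Finset κ), StateK col Q V' Fx P U E R B → Fintype.card V ≤ U.card + d →
      ∃ (U : Finset V) (E : Finset (Sym2 V)), Cyc U E ∧ E.card = U.card ∧ Rb col E ∧ Fx ⊆ E ∧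
      cE col (E \ Fx) ⊆ Q ∧ 3 ≤ U.card ∧
      (U = univ ∨ Q.card + Fx.card < U.card + P.K) := by
    intro d
    induction d with
    | zero =>
      intro U E R B hS hd
      have h3 : 3 ≤ U.card := by omega
      refine ⟨U, E, hS.cyc, hS.card, hS.rb, hS.fix, hS.cols, h3, Or.inl ?_⟩
      exact Finset.eq_univ_of_card U (le_antisymm (Finset.card_le_univ U) (by omega))
    | succ d ih =>
      intro U E R B hS hd
      have h3 : 3 ≤ U.card := by
        have h1 := Finset.card_le_card hS.V'U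
        have h2 := Finset.card_sdiff_add_card_eq_card (Finset.subset_univ V')
        rw [Finset.card_univ, hV'] at h2
        omega
      by_cases hU : U = univ
      · exact ⟨U, E, hS.cyc, hS.card, hS.rb, hS.fix, hS.cols, h3, Or.inl hU⟩
      · by_cases hK : U.card + P.K ≤ Q.card + Fx.card
        · obtain ⟨x, hx⟩ : ∃ x, x ∉ U := by
            by_contra hcon
            push Not at hcon
            exact hU (Finset.eq_univ_iff_forall.2 hcon)
          obtain ⟨E', R', B', hS'⟩ := epochK col Q P v₀ f hP hQ V' hV'.le U Fx hF hf E R B hS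
            hK x hx
          refine ih (insert x U) E' R' B' hS' ?_
          rw [Finset.card_insert_of_notMem hx]
          omega
        · exact ⟨U, E, hS.cyc, hS.card, hS.rb, hS.fix, hS.cols, h3, Or.inr (by omega)⟩
  obtain ⟨U, E, R, B, hS⟩ := init_stateK col Q P v₀ f a hP hI hQ Fx hF hf hf' V' hV' hVd
  exact key (Fintype.card V) U E R B hS (by omega)

/-- The main result of this folder: `prm_exists`, `pk_exists`, `iprmK_exists`, `topK`. -/
theorem mainK (col : Sym2 V → κ) (Q : Finset κ) (L μ : ℕ) (hL4 : 10 ^ 4 ≤ L)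
    (hn : Fintype.card V ≤ 2 ^ L) (hL : L ^ 400 ≤ Fintype.card V)
    (hμ : μ * L ^ 177 ≤ Fintype.card V) (hQ : GoodK col Q μ) (Fx : Finset (Sym2 V))
    (hF : Fix col Q Fx) (hf : Fx.card * L ^ 177 ≤ Fintype.card V) :
    ∃ (U : Finset V) (E : Finset (Sym2 V)), Cyc U E ∧ E.card = U.card ∧ Rb col E ∧ Fx ⊆ E ∧
      cE col (E \ Fx) ⊆ Q ∧ 3 ≤ U.card ∧
      (U = univ ∨ Q.card + Fx.card < U.card + L ^ 207) := by
  obtain ⟨P, hPμ, hK, hJ, hu, ht, hm, hT, hM, hv, hlam, hδ⟩ :=
    prm_exists (Fintype.card V) L μ (le_trans (by norm_num) hL4) hn hL hμ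
  obtain ⟨h1, h2⟩ := pk_exists (Fintype.card V) L μ Fx.card hL4 hn hL hf P hPμ hJ hu ht hm hT hM
    hv hlam hδ
  have h3 := iprmK_exists (Fintype.card V) L μ hL4 hn hL hμ P hPμ hJ hu ht hm hT hM hv hlam hδ
  obtain ⟨U, E, a1, a2, a3, a4, a5, a6, a7⟩ := topK col Q P (P.v / 2) Fx.card (L ^ 179) h1 h3
    (hPμ ▸ hQ) Fx hF le_rfl h2
  refine ⟨U, E, a1, a2, a3, a4, a5, a6, a7.imp id (fun h => ?_)⟩
  omega

end Pool.Agent.W_cd7020_h81k
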