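import Pool.Agent.W_cd7020_h81k.KSelP
import Pool.Agent.W_cd7020_h81b.SelC

/-!
# The choice in a group
-/

set_option autoImplicit false

namespace Pool.Agent.W_cd7020_h81k

open Finset Pool.Agent.W_cd7020_h81 Pool.Agent.W_cd7020_h81b Pool.Agent.W_cd7020_h81c

variable {V κ : Type*} [DecidableEq V] [DecidableEq κ] [Fintype V]

/-- `select` (`W_cd7020_h81b/SelC.lean`) with `phi_avgK`. -/
theorem selectK (col : Sym2 V → κ) (hcol : Proper col) (P : Prm (Fintype.card V))
    (C₀ : Finset κ) (hμ : ∀ x, (C₀.filter (fun k => par col k x = x)).card ≤ P.μ)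
    (W : Finset V) (hW : W.card ≤ P.v) (U : Finset V) (hCU : C₀.card ≤ U.card)
    (hC : Fintype.card V ≤ C₀.card + P.v) (E : Finset (Sym2 V)) (R : Finset κ)
    (hR1 : 1 ≤ R.card) (w : ℕ → κ) {Ω : Type*} (Om al : Finset Ω)
    (rel ub : Ω → ℕ → κ) (N : Ω → ℕ) (F : Ω → Finset (Sym2 V))
    (hG : Group col U E R w P.t P.m P.loss (P.M : ℝ) Om al rel ub N F)
    (hrel : ∀ o ∈ al, ∀ i ≤ P.t + P.m, rel o i ∈ C₀) (A : Fin 6 → Finset κ)
    (hAE : ∀ i, Disjoint (A i) C₀) (X : ℝ) (hX : 0 ≤ X) :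
    ∃ o ∈ al, Phi col W P (R \ (range P.m).image (ub o))
        (fun i => A i ∪ (P.IX i).image (rel o)) / (1 + P.δ) * X +
        ((N o : ℝ) + 1) / (3 * P.M * P.T) ≤ Phi col W P R A * X + 1 / P.T := by
  classical
  have havg := phi_avgK col hcol P C₀ hμ W hW U hCU hC E R hR1 w (P.M : ℝ) Om al rel ub N F
    hG hrel A hAE
  have hδ := P.hδ
  set FF : ℝ := 1 + 8 * (P.lam ^ 2 * (P.t + P.m + 1) ^ 2) + 2 * (P.lam * ((P.t + P.m + 1) *
        (2 * (2 * P.v + P.μ) / (Fintype.card V : ℝ) + 2 * P.loss))) with hFF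
  have hloss := SelB_loss P
  have hloss4 := P.loss4
  have hδ0 := P.δ0
  have hlam := P.lam0.le
  have hOm : (0 : ℝ) < Om.card := by exact_mod_cast hG.ne.card_pos
  have hdead := hG.dead
  have hal1 : (1 - P.loss) * Om.card ≤ al.card := by linarith
  have hal0 : (0 : ℝ) < al.card := by nlinarith
  have hOmal : (Om.card : ℝ) ≤ (1 + 2 * P.loss) * al.card := by
    have h1 : (1 + 2 * P.loss) * ((1 - P.loss) * Om.card) ≤ (1 + 2 * P.loss) * al.card :=
      mul_le_mul_of_nonneg_left hal1 (by linarith)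
    have h2 : 0 ≤ P.loss * (1 - 2 * P.loss) * Om.card :=
      mul_nonneg (mul_nonneg hloss (by linarith)) hOm.le
    nlinarith
  have hOm43 : (Om.card : ℝ) ≤ 4 / 3 * al.card := by nlinarith
  have hne : al.Nonempty := card_pos.1 (by exact_mod_cast hal0)
  have hFF0 : 0 ≤ FF := by rw [hFF]; positivity
  have hP0 := SelC_pos col W P R A
  have hsumPhi : ∑ o ∈ al, Phi col W P (R \ (range P.m).image (ub o))
        (fun i => A i ∪ (P.IX i).image (rel o)) ≤ Om.card * Phi col W P R A * FF := by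
    refine le_trans ?_ havg
    refine le_trans (le_of_eq ?_) (sum_le_sum_of_subset_of_nonneg hG.sub
      (fun o _ _ => SelC_pos _ _ _ _ _))
    refine sum_congr rfl (fun o ho => ?_)
    simp only [if_pos ho]
  have hsum1 : ∑ o ∈ al, Phi col W P (R \ (range P.m).image (ub o))
        (fun i => A i ∪ (P.IX i).image (rel o)) / (1 + P.δ) * X ≤
        al.card * (Phi col W P R A * X) := by
    rw [← sum_mul, ← sum_div]
    have h1 : ∑ o ∈ al, Phi col W P (R \ (range P.m).image (ub o))
        (fun i => A i ∪ (P.IX i).image (rel o)) ≤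
        al.card * Phi col W P R A * (1 + P.δ) := by
      refine hsumPhi.trans ?_
      calc Om.card * Phi col W P R A * FF = Om.card * (Phi col W P R A * FF) := by ring
        _ ≤ ((1 + 2 * P.loss) * al.card) * (Phi col W P R A * FF) :=
            mul_le_mul_of_nonneg_right hOmal (mul_nonneg hP0 hFF0)
        _ = (al.card * Phi col W P R A) * ((1 + 2 * P.loss) * FF) := by ring
        _ ≤ (al.card * Phi col W P R A) * (1 + P.δ) :=
            mul_le_mul_of_nonneg_left hδ (mul_nonneg hal0.le hP0)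
    have h2 : (∑ o ∈ al, Phi col W P (R \ (range P.m).image (ub o))
        (fun i => A i ∪ (P.IX i).image (rel o))) / (1 + P.δ) ≤
        al.card * Phi col W P R A := by
      rw [div_le_iff₀ (by linarith)]
      exact h1
    refine (mul_le_mul_of_nonneg_right h2 hX).trans (le_of_eq ?_)
    ring
  have hM1 : (1 : ℝ) ≤ P.M := by exact_mod_cast P.M1
  have hT1 : (1 : ℝ) ≤ P.T := by exact_mod_cast P.T1
  have hsum2 : ∑ o ∈ al, ((N o : ℝ) + 1) / (3 * P.M * P.T) ≤ al.card * (1 / P.T) := by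
    rw [← sum_div, sum_add_distrib, sum_const, nsmul_eq_mul, mul_one, mul_one_div,
      div_le_div_iff₀ (by positivity) (by positivity)]
    have h1 : ∑ o ∈ al, (N o : ℝ) + al.card ≤ 3 * P.M * al.card := by
      have h2 := hG.cost
      have h3 : (P.M : ℝ) * Om.card ≤ P.M * (4 / 3 * al.card) :=
        mul_le_mul_of_nonneg_left hOm43 (by linarith)
      nlinarith
    calc (∑ o ∈ al, (N o : ℝ) + al.card) * P.T ≤ (3 * P.M * al.card) * P.T :=
          mul_le_mul_of_nonneg_right h1 (by linarith)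
      _ = al.card * (3 * P.M * P.T) := by ring
  by_contra hcon
  push Not at hcon
  have hlt := sum_lt_sum_of_nonempty hne hcon
  rw [sum_const, nsmul_eq_mul, sum_add_distrib, mul_add] at hlt
  linarith

end Pool.Agent.W_cd7020_h81k
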