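import Pool.Agent.W_cd7020_h81k.KMidB
import Pool.Agent.W_cd7020_h81k.KSelC
import Pool.Agent.W_cd7020_h81k.KClo
import Pool.Agent.W_cd7020_h81b.MidS

/-!
# One group
-/

set_option autoImplicit false

namespace Pool.Agent.W_cd7020_h81k

open Finset Pool.Agent.W_cd7020_h81 Pool.Agent.W_cd7020_h81b Pool.Agent.W_cd7020_h81c

variable {V κ : Type*} [DecidableEq V] [DecidableEq κ] [Fintype V]

/-- One group; adapt `mid_step` (`W_cd7020_h81b/MidS.lean`): `wasteK`, `mid_groupK`, `selectK` with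
`C₀ = cE col (E \ Fx)` (`|C₀| = |U| - |Fx|`, `n ≤ |U| + v₀`, `v₀ + 2 f ≤ P.v`; `W = V' ∪ vF Fx`, `vF_card`),
`close_manyK`. `Fx ⊆ F o` by `GroupK.keep`. -/
theorem mid_stepK (col : Sym2 V → κ) (Q : Finset κ) (P : Prm (Fintype.card V)) (v₀ f : ℕ)
    (hP : PK P v₀ f) (hQ : GoodK col Q P.μ) (V' : Finset V) (hV' : V'.card ≤ v₀) (U : Finset V)
    (hV'U : univ \ V' ⊆ U) (Fx : Finset (Sym2 V)) (hF : Fix col Q Fx) (hf : Fx.card ≤ f)
    (B : Fin 5 → Finset κ) (hB : BP col Q (V' ∪ vF Fx) P.kB P.a₁ B) (g : ℕ)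
    (hg : g < P.T) (E : Finset (Sym2 V)) (R : Finset κ) (A : Fin 6 → Finset κ) (C : ℕ)
    (hM : MidK col Q V' Fx P U B g E R A C) (hK : U.card + P.K ≤ Q.card + Fx.card) :
    ∃ E' R' A' C', MidK col Q V' Fx P U B (g + 1) E' R' A' C' := by
  classical
  obtain ⟨w, hwi, hw⟩ := wasteK col Q P V' U Fx hF B hB g hg E R A C hM hK
  obtain ⟨Om, al, rel, ub, N, F, hGK⟩ := mid_groupK col Q P v₀ f hP hQ V' hV' U hV'U Fx hF hf B g
    hg E R A C hM w hwi (fun i => ⟨(hw i).1, (hw i).2.1, (hw i).2.2.1⟩)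
  have hG := hGK.grp
  have hvf := hP.vf
  have hC₀E : cE col (E \ Fx) ⊆ cE col E := image_subset_image sdiff_subset
  have hWc : (V' ∪ vF Fx).card ≤ P.v := by
    have h1 := card_union_le V' (vF Fx)
    have h2 := vF_card Fx
    omega
  have hn : Fintype.card V ≤ U.card + v₀ := by
    have h1 : (univ \ V').card ≤ U.card := card_le_card hV'U
    rw [card_sdiff_of_subset (subset_univ V'), card_univ] at h1
    omega
  have hC₀c : (cE col (E \ Fx)).card = (E \ Fx).card := by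
    refine card_image_of_injOn ?_
    intro a ha b hb hab
    exact hM.rb a (sdiff_subset ha) b (sdiff_subset hb) hab
  have hEF : (E \ Fx).card + Fx.card = E.card := card_sdiff_add_card_eq_card hM.fix
  have hEU := hM.card
  have hT1 : 1 ≤ P.T := P.T1
  have hM1 : 1 ≤ P.M := P.M1
  have hδ : (0 : ℝ) < 1 + P.δ := by linarith [P.δ0]
  have hR1 : 1 ≤ R.card := by
    have h1 := hM.Rcard
    have h2 : P.kA = P.T * P.r₀ := rfl
    have h3 : P.r₀ = P.t + P.m + 1 - 5 * P.u := rfl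
    have h4 := P.tu
    have h5 : P.m + 1 ≤ P.r₀ := by omega
    have h6 : P.T * (P.m + 1) ≤ P.T * P.r₀ := Nat.mul_le_mul_left _ h5
    have h7 : g * P.m ≤ P.T * P.m := Nat.mul_le_mul_right _ hg.le
    have h8 : P.T * (P.m + 1) = P.T * P.m + P.T := by ring
    omega
  obtain ⟨o, ho, hsel⟩ := selectK col hQ.proper P (cE col (E \ Fx))
    (fun x => (card_le_card (filter_subset_filter _ hM.cols)).trans (hQ.missv x)) (V' ∪ vF Fx) hWc U
    (by omega) (by omega) E R hR1 w Om al rel ub N F hG hGK.relK A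
    (fun i => disjoint_of_subset_right hC₀E (hM.AE i)) (1 / (1 + P.δ) ^ g) (by positivity)
  -- the images
  have hIX : ∀ i, ∀ j ∈ P.IX i, j ≤ P.t + P.m := by
    intro i j hj
    have h1 := mem_range.1 (IX_sub P i hj)
    omega
  have hrelE : ∀ i, ∀ k ∈ (P.IX i).image (rel o), k ∈ cE col E := by
    intro i k hk
    obtain ⟨j, hj, rfl⟩ := mem_image.1 hk
    obtain ⟨e, he, hek⟩ := hG.relmem o ho j (hIX i j hj)
    exact mem_image.2 ⟨e, he, hek⟩
  have hrelK : ∀ i, ∀ k ∈ (P.IX i).image (rel o), k ∈ cE col (E \ Fx) := by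
    intro i k hk
    obtain ⟨j, hj, rfl⟩ := mem_image.1 hk
    exact hGK.relK o ho j (hIX i j hj)
  have hubR : ∀ k ∈ (range P.m).image (ub o), k ∈ R := by
    intro k hk
    obtain ⟨j, hj, rfl⟩ := mem_image.1 hk
    exact hG.ubmem o ho j (mem_range.1 hj)
  have hRE := hM.RE
  have hAR := hM.AR
  have hAE := hM.AE
  -- the colours of the new forest
  have hFcol : ∀ e ∈ F o, (col e ∈ cE col E ∧ ∀ i, col e ∉ (P.IX i).image (rel o)) ∨
      (col e ∈ (range P.m).image (ub o)) ∨ ∃ i, col e = w i := by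
    intro e he
    rcases hG.cols o ho e he with ⟨h1, h2⟩ | ⟨i, hi, h1⟩ | ⟨i, hi, h1⟩
    · left
      refine ⟨mem_image_of_mem _ h1, ?_⟩
      intro i hi
      obtain ⟨j, hj, hjj⟩ := mem_image.1 hi
      exact h2 j (hIX i j hj) hjj.symm
    · right; left
      exact mem_image.2 ⟨i, mem_range.2 hi, h1.symm⟩
    · right; right
      exact ⟨i, h1⟩
  have hdR : ∀ k, k ∈ R → k ∉ cE col E := fun k h1 h2 => (disjoint_left.1 hRE) h1 h2
  have hdA : ∀ i k, k ∈ A i → k ∉ cE col E := fun i k h1 h2 => (disjoint_left.1 (hAE i)) h1 h2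
  have hdAR : ∀ i k, k ∈ A i → k ∉ R := fun i k h1 h2 => (disjoint_left.1 (hAR i)) h1 h2
  have hdRB : ∀ i k, k ∈ R → k ∉ B i := fun i k h1 h2 => (disjoint_left.1 (hM.RB i)) h1 h2
  let A' : Fin 6 → Finset κ := fun i => A i ∪ (P.IX i).image (rel o)
  let G : Finset κ := univ.biUnion A'
  -- the new phi
  have hphi : Phi col (V' ∪ vF Fx) P (R \ (range P.m).image (ub o)) A' / (1 + P.δ) ^ (g + 1) +
      ((C + N o + 1 : ℕ) : ℝ) / (3 * P.M * P.T : ℝ) ≤ 14 + ((g + 1 : ℕ) : ℝ) / (P.T : ℝ) := by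
    have h1 := hM.phi
    have h2 : Phi col (V' ∪ vF Fx) P (R \ (range P.m).image (ub o)) A' / (1 + P.δ) ^ (g + 1) =
        Phi col (V' ∪ vF Fx) P (R \ (range P.m).image (ub o)) A' / (1 + P.δ) * (1 / (1 + P.δ) ^ g) := by
      rw [pow_succ]
      field_simp
    have h3 : ((C + N o + 1 : ℕ) : ℝ) / (3 * P.M * P.T : ℝ) =
        (C : ℝ) / (3 * P.M * P.T : ℝ) + ((N o : ℝ) + 1) / (3 * P.M * P.T : ℝ) := by
      push_cast
      ring
    have h4 : ((g + 1 : ℕ) : ℝ) / (P.T : ℝ) = (g : ℝ) / (P.T : ℝ) + 1 / (P.T : ℝ) := by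
      push_cast
      ring
    have h5 : Phi col (V' ∪ vF Fx) P R A * (1 / (1 + P.δ) ^ g) = Phi col (V' ∪ vF Fx) P R A / (1 + P.δ) ^ g := by
      ring
    rw [h5] at hsel
    rw [h2, h3, h4]
    change Phi col (V' ∪ vF Fx) P (R \ (range P.m).image (ub o)) A' / (1 + P.δ) * (1 / (1 + P.δ) ^ g) +
      ((N o : ℝ) + 1) / (3 * P.M * P.T) ≤ Phi col (V' ∪ vF Fx) P R A / (1 + P.δ) ^ g + 1 / P.T at hsel
    linarith
  have hC' : C + N o + 1 ≤ 45 * P.M * P.T :=
    MidS_num P.T P.M (C + N o + 1) (g + 1) _ hT1 hM1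
      (div_nonneg (MidS_phi_nonneg col (V' ∪ vF Fx) P _ A') (by positivity)) (by omega) hphi
  -- count
  have hcount : ∀ i, (B i ∩ (cE col (F o) ∪ G)).card ≤ C * P.J := by
    intro i
    refine le_trans (card_le_card ?_) (hM.count i)
    intro k hk
    rw [mem_inter, mem_union] at hk
    obtain ⟨hkB, hk⟩ := hk
    rw [mem_inter, mem_union]
    refine ⟨hkB, ?_⟩
    rcases hk with hk | hk
    · obtain ⟨e, he, rfl⟩ := mem_image.1 hk
      rcases hFcol e he with ⟨h1, h2⟩ | h1 | ⟨j, h1⟩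
      · exact Or.inl h1
      · exact absurd hkB (hdRB i _ (hubR _ h1))
      · rw [h1] at hkB
        exact absurd hkB ((hw j).2.2.2.1 i)
    · obtain ⟨j, _, hj⟩ := mem_biUnion.1 hk
      rcases mem_union.1 hj with hj | hj
      · exact Or.inr (mem_biUnion.2 ⟨j, mem_univ _, hj⟩)
      · exact Or.inl (hrelE j k hj)
  obtain ⟨E', hE1, hE2, hE3, hEfx, hE4, hE5⟩ := close_manyK col hQ.proper Q P v₀ f hP V' hV' U
    hV'U Fx hf B hB G (N o + 1) C (F o) (hG.lf o ho).cyc (by have := hG.card o ho; omega)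
    (hG.rb o ho) (hGK.keep o ho) hcount (by omega)
  have hE'col : ∀ k ∈ cE col E', (k ∈ cE col (F o)) ∨ ∃ i, k ∈ B i ∧ k ∉ G := by
    intro k hk
    obtain ⟨e, he, rfl⟩ := mem_image.1 hk
    rcases hE4 e he with h1 | ⟨i, h1, h2⟩
    · exact Or.inl (mem_image_of_mem _ h1)
    · exact Or.inr ⟨i, h1, h2⟩
  refine ⟨E', R \ (range P.m).image (ub o), A', C + N o + 1, ?_⟩
  refine ⟨hE1, hE2, hE3, hEfx, ?_, ?_, ?_, ?_, ?_, ?_, ?_, ?_, ?_, ?_, ?_, hphi⟩
  · -- cols
    intro k hk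
    obtain ⟨e, he, rfl⟩ := mem_image.1 hk
    obtain ⟨heE', heF⟩ := mem_sdiff.1 he
    rcases hE4 e heE' with h1 | ⟨i, h1, _⟩
    · rcases hG.cols o ho e h1 with ⟨h2, _⟩ | ⟨i, hi, h2⟩ | ⟨i, hi, h2⟩
      · exact hM.cols (mem_image_of_mem _ (mem_sdiff.2 ⟨h2, heF⟩))
      · rw [h2]
        exact hM.Rsub (hG.ubmem o ho i hi)
      · rw [h2]
        exact (hw i).1
    · exact hB.sub i h1
  · exact sdiff_subset.trans hM.Rsub
  · -- Rcard
    have h1 : ((range P.m).image (ub o)).card = P.m := by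
      rw [card_image_of_injOn, card_range]
      intro i hi j hj hij
      exact hG.ubinj o ho i (mem_range.1 hi) j (mem_range.1 hj) hij
    have h2 : (R \ (range P.m).image (ub o)).card + ((range P.m).image (ub o)).card = R.card :=
      card_sdiff_add_card_eq_card (fun k hk => hubR k hk)
    have h3 := hM.Rcard
    have h4 : (g + 1) * P.m = g * P.m + P.m := by ring
    omega
  · -- RE
    rw [disjoint_left]
    intro k hk hk'
    obtain ⟨hkR, hkub⟩ := mem_sdiff.1 hk
    rcases hE'col k hk' with h1 | ⟨i, h1, _⟩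
    · obtain ⟨e, he, rfl⟩ := mem_image.1 h1
      rcases hFcol e he with ⟨h1, h2⟩ | h1 | ⟨j, h1⟩
      · exact hdR _ hkR h1
      · exact hkub h1
      · rw [h1] at hkR
        exact (hw j).2.2.1 hkR
    · exact hdRB i k hkR h1
  · intro i
    exact disjoint_of_subset_left sdiff_subset (hM.RB i)
  · -- Asub
    intro i
    exact union_subset (hM.Asub i) (fun k hk => hM.cols (hrelK i k hk))
  · -- Acard
    intro i
    have h1 : ((P.IX i).image (rel o)).card = (P.IX i).card := by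
      apply card_image_of_injOn
      intro a ha b hb hab
      exact hG.relinj o ho a (hIX i a ha) b (hIX i b hb) hab
    have h2 : Disjoint (A i) ((P.IX i).image (rel o)) := by
      rw [disjoint_left]
      intro k h1 h2
      exact hdA i k h1 (hrelE i k h2)
    change (A i ∪ (P.IX i).image (rel o)).card = _
    rw [card_union_of_disjoint h2, h1, hM.Acard i]
    ring
  · -- AE
    intro i
    rw [disjoint_left]
    intro k hk hk'
    rcases hE'col k hk' with h1 | ⟨j, _, h1⟩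
    · obtain ⟨e, he, rfl⟩ := mem_image.1 h1
      rcases hFcol e he with ⟨h1, h2⟩ | h1 | ⟨j, h1⟩
      · rcases mem_union.1 hk with hk | hk
        · exact hdA i _ hk h1
        · exact h2 i hk
      · rcases mem_union.1 hk with hk | hk
        · exact hdAR i _ hk (hubR _ h1)
        · exact hdR _ (hubR _ h1) (hrelE i _ hk)
      · rw [h1] at hk
        rcases mem_union.1 hk with hk | hk
        · exact (hw j).2.2.2.2 i hk
        · exact (hw j).2.1 (hrelE i _ hk)
    · exact h1 (mem_biUnion.2 ⟨i, mem_univ _, hk⟩)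
  · -- AR
    intro i
    rw [disjoint_left]
    intro k hk hk'
    obtain ⟨hkR, hkub⟩ := mem_sdiff.1 hk'
    rcases mem_union.1 hk with hk | hk
    · exact hdAR i k hk hkR
    · exact hdR k hkR (hrelE i k hk)
  · -- AA
    intro i j hij
    rw [disjoint_left]
    intro k hk hk'
    rcases mem_union.1 hk with hk | hk
    · rcases mem_union.1 hk' with hk' | hk'
      · exact (disjoint_left.1 (hM.AA i j hij)) hk hk'
      · exact hdA i k hk (hrelE j k hk')
    · rcases mem_union.1 hk' with hk' | hk'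
      · exact hdA j k hk' (hrelE i k hk)
      · obtain ⟨a, ha, rfl⟩ := mem_image.1 hk
        obtain ⟨b, hb, hab⟩ := mem_image.1 hk'
        have h1 := hG.relinj o ho b (hIX j b hb) a (hIX i a ha) hab
        subst h1
        exact (disjoint_left.1 (IX_disj P i j hij)) ha hb
  · -- count
    intro i
    have h1 := hE5 i
    have h2 : C + (N o + 1) = C + N o + 1 := by omega
    rw [h2] at h1
    exact h1

end Pool.Agent.W_cd7020_h81k
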