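import Pool.Agent.W_cd7020_h81k.KEpA
import Pool.Agent.W_cd7020_h81k.KMidS
import Pool.Agent.W_cd7020_h81b.Epoch

/-!
# The epoch
-/

set_option autoImplicit false

namespace Pool.Agent.W_cd7020_h81k

open Finset Pool.Agent.W_cd7020_h81 Pool.Agent.W_cd7020_h81b Pool.Agent.W_cd7020_h81c

variable {V κ : Type*} [DecidableEq V] [DecidableEq κ] [Fintype V]

/-- Iteration of `mid_stepK`; copy `mid_all` (`W_cd7020_h81b/Epoch.lean`). -/
theorem mid_allK (col : Sym2 V → κ) (Q : Finset κ) (P : Prm (Fintype.card V)) (v₀ f : ℕ)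
    (hP : PK P v₀ f) (hQ : GoodK col Q P.μ) (V' : Finset V) (hV' : V'.card ≤ v₀) (U : Finset V)
    (Fx : Finset (Sym2 V)) (hF : Fix col Q Fx) (hf : Fx.card ≤ f)
    (E : Finset (Sym2 V)) (R : Finset κ) (B : Fin 5 → Finset κ)
    (hS : StateK col Q V' Fx P U E R B) (hK : U.card + P.K ≤ Q.card + Fx.card) (g : ℕ)
    (hg : g ≤ P.T) : ∃ E' R' A' C', MidK col Q V' Fx P U B g E' R' A' C' := by
  induction g with
  | zero => exact ⟨E, R, fun _ => ∅, P.M * P.T, mid_startK col Q P V' U Fx E R B hS⟩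
  | succ g ih =>
    obtain ⟨E', R', A', C', hM⟩ := ih (by omega)
    exact mid_stepK col Q P v₀ f hP hQ V' hV' U hS.V'U Fx hF hf B hS.bp g (by omega)
      E' R' A' C' hM hK

/-- The epoch; adapt `epoch`. The removed edge `e₀ ∈ E \ Fx` exists as `|Fx| ≤ f < n / 2 ≤ |U| = |E|`. -/
theorem epochK (col : Sym2 V → κ) (Q : Finset κ) (P : Prm (Fintype.card V)) (v₀ f : ℕ)
    (hP : PK P v₀ f) (hQ : GoodK col Q P.μ) (V' : Finset V) (hV' : V'.card ≤ v₀) (U : Finset V)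
    (Fx : Finset (Sym2 V)) (hF : Fix col Q Fx) (hf : Fx.card ≤ f)
    (E : Finset (Sym2 V)) (R : Finset κ) (B : Fin 5 → Finset κ)
    (hS : StateK col Q V' Fx P U E R B) (hK : U.card + P.K ≤ Q.card + Fx.card) (x : V)
    (hx : x ∉ U) :
    ∃ E' R' B', StateK col Q V' Fx P (insert x U) E' R' B' := by
  classical
  obtain ⟨E₀, R₀, A, C, hM⟩ := mid_allK col Q P v₀ f hP hQ V' hV' U Fx hF hf E R B hS hK P.T
    le_rfl
  have hδ : (0 : ℝ) < 1 + P.δ := by linarith [P.δ0]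
  have hC : C ≤ 45 * P.M * P.T :=
    MidS_num P.T P.M C P.T _ P.T1 P.M1
      (div_nonneg (MidS_phi_nonneg col (V' ∪ vF Fx) P R₀ A) (by positivity)) le_rfl hM.phi
  have hUn : Fintype.card V ≤ U.card + v₀ := by
    have h1 : (univ \ V').card ≤ U.card := card_le_card hS.V'U
    have h2 : (univ \ V').card = Fintype.card V - V'.card := by
      rw [card_sdiff_of_subset (subset_univ V'), card_univ]
    omega
  have hvf := hP.vf
  have hvn := P.vn
  have hn3 := P.n3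
  have hU3 : 3 ≤ U.card := by omega
  have hE₀ : (E₀ \ Fx).Nonempty := by
    rw [← card_pos, card_sdiff_of_subset hM.fix, hM.card]
    omega
  obtain ⟨e₀, he₀'⟩ := hE₀
  have he₀ : e₀ ∈ E₀ := (mem_sdiff.1 he₀').1
  have he₀F : e₀ ∉ Fx := (mem_sdiff.1 he₀').2
  have hc₁ : (E₀.erase e₀).card + 1 = U.card := by
    rw [card_erase_add_one he₀, hM.card]
  have hlf : LF (insert x U) (E₀.erase e₀) := by
    refine LF.insertV ?_ hx
    refine Cyc.lf ?_ (by omega) hU3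
    obtain ⟨L, h1, h2, h3⟩ := hM.cyc
    exact ⟨L, h1, h2, fun e he => h3 e (mem_of_mem_erase he)⟩
  have hsubE : cE col (E₀.erase e₀) ⊆ cE col E₀ := image_subset_image (erase_subset _ _)
  have hfx₁ : Fx ⊆ E₀.erase e₀ := fun e he =>
    mem_erase.2 ⟨fun h => he₀F (h ▸ he), hM.fix he⟩
  obtain ⟨E', hE1, hE2, hE3, hE6, hE4, hE5⟩ := close_manyK col hQ.proper Q P v₀ f hP V' hV'
    (insert x U) (hS.V'U.trans (subset_insert _ _)) Fx hf B hS.bp (univ.biUnion A) 2 C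
    (E₀.erase e₀) hlf.cyc
    (by rw [card_insert_of_notMem hx]; omega)
    (fun e he e' he' h => hM.rb e (mem_of_mem_erase he) e' (mem_of_mem_erase he') h)
    hfx₁
    (fun i => le_trans (card_le_card (inter_subset_inter_left
      (union_subset_union_left hsubE))) (hM.count i))
    (by omega)
  have hE'col : ∀ k ∈ cE col E', k ∈ cE col E₀ ∨ ∃ i, k ∈ B i ∧ k ∉ univ.biUnion A := by
    intro k hk
    obtain ⟨e, he, rfl⟩ := mem_image.1 hk
    rcases hE4 e he with h1 | ⟨i, h1, h2⟩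
    · exact Or.inl (hsubE (mem_image_of_mem _ h1))
    · exact Or.inr ⟨i, h1, h2⟩
  have hAE : ∀ i, Disjoint (A i) (cE col E') := by
    intro i
    rw [disjoint_left]
    intro k hk hk'
    rcases hE'col k hk' with h1 | ⟨j, _, h1⟩
    · exact (disjoint_left.1 (hM.AE i)) hk h1
    · exact h1 (mem_biUnion.2 ⟨i, mem_univ _, hk⟩)
  obtain ⟨hN, hBP⟩ := mid_poolsK col Q P V' U Fx B E₀ R₀ A C hM
  refine ⟨E', A 0, fun i => A i.succ, ?_⟩
  refine ⟨hS.V'U.trans (subset_insert _ _), hE1, hE2, hE3, hE6, ?_, hM.Asub 0, ?_, hN, hAE 0,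
    hBP, ?_, ?_⟩
  · intro k hk
    obtain ⟨e, he, rfl⟩ := mem_image.1 hk
    obtain ⟨he1, he2⟩ := mem_sdiff.1 he
    rcases hE4 e he1 with h1 | ⟨i, h1, _⟩
    · exact hM.cols (mem_image_of_mem _ (mem_sdiff.2 ⟨mem_of_mem_erase h1, he2⟩))
    · exact hS.bp.sub i h1
  · rw [hM.Acard 0]
    have h1 : P.IX 0 = range P.r₀ := by
      unfold Prm.IX
      rw [if_pos]
      rfl
    rw [h1, card_range]
    rfl
  · intro i
    exact hM.AA 0 i.succ (Fin.succ_ne_zero i).symm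
  · intro i
    have h1 : A i.succ ∩ cE col E' = ∅ := disjoint_iff_inter_eq_empty.1 (hAE i.succ)
    change (A i.succ ∩ cE col E').card ≤ _
    rw [h1, card_empty]
    exact Nat.zero_le _

end Pool.Agent.W_cd7020_h81k
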