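import Pool.Agent.W_cd7020_h81k.KDefs
import Pool.Agent.W_cd7020_h81b.GFoB
import Pool.Agent.W_cd7020_h81.InsV

/-!
# The forest at the end keeps the fixed edges
-/

set_option autoImplicit false

namespace Pool.Agent.W_cd7020_h81k

open Finset Pool.Agent.W_cd7020_h81 Pool.Agent.W_cd7020_h81b Pool.Agent.W_cd7020_h81c

theorem KFor_cut {V : Type*} [DecidableEq V] (C : List V) (hC : C.Nodup) (Fx : Finset (Sym2 V))
    (x y : V) (hxy : s(x, y) ∈ ce C) (hF : s(x, y) ∉ Fx) :
    ∃ C' : List V, C'.Perm C ∧ (∀ e, e ∈ ce C' ↔ e ∈ ce C) ∧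
      ∀ e ∈ ce C', e ∈ Fx → e ∈ pe C' := by
  obtain ⟨C', h1, h2, _, h4, h5, h6⟩ := ce_rotate_to C x y hxy
  refine ⟨C', (List.perm_ext_iff_of_nodup (h2 hC) hC).2 h1, h4, fun e he heF => ?_⟩
  have hne : C' ≠ [] := by
    rintro rfl
    simp at h5
  rw [ce_eq C' hne, List.mem_append, List.mem_singleton] at he
  rcases he with he | he
  · exact he
  · exfalso
    have h7 : C'.head hne = y := by
      rw [List.head?_eq_some_head hne] at h5
      exact Option.some.inj h5
    have h8 : C'.getLast hne = x := by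
      rw [List.getLast?_eq_some_getLast hne] at h6
      exact Option.some.inj h6
    rw [h7, h8] at he
    rw [he] at heF
    exact hF heF

/-- A cycle of length at least three contains two adjacent pairs, one of them is not in the
matching `Fx`; rotate (`ce_rotate_to`; a duplicate-free list with the same elements is a permutation). -/
theorem cut_cycle {V : Type*} [DecidableEq V] (C : List V) (hC : C.Nodup) (h3 : 3 ≤ C.length)
    (Fx : Finset (Sym2 V))
    (hFx : ∀ e ∈ Fx, ∀ e' ∈ Fx, ∀ x, x ∈ e → x ∈ e' → e = e') :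
    ∃ C' : List V, C'.Perm C ∧ (∀ e, e ∈ ce C' ↔ e ∈ ce C) ∧ ∀ e ∈ ce C', e ∈ Fx → e ∈ pe C' := by
  match C, hC, h3 with
  | a :: b :: c :: l, hC, _ =>
    have h1 : s(a, b) ∈ ce (a :: b :: c :: l) := by simp [ce, pe]
    have h2 : s(b, c) ∈ ce (a :: b :: c :: l) := by simp [ce, pe]
    by_cases hF : s(a, b) ∈ Fx
    · refine KFor_cut _ hC Fx b c h2 fun hF' => ?_
      have h3 := hFx _ hF _ hF' b (by simp) (by simp)
      have hac : a ≠ c := by
        rintro rfl
        simp at hC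
      have hab : a ≠ b := by
        rintro rfl
        simp at hC
      rw [Sym2.eq_iff] at h3
      rcases h3 with ⟨h4, _⟩ | ⟨h4, _⟩
      · exact hab h4
      · exact hac h4
    · exact KFor_cut _ hC Fx a b h1 hF

theorem KFor_list {V : Type*} [DecidableEq V] (Fx : Finset (Sym2 V))
    (hFx : ∀ e ∈ Fx, ∀ e' ∈ Fx, ∀ x, x ∈ e → x ∈ e' → e = e') (cs : List (List V)) :
    (∀ C ∈ cs, C.Nodup) → (∀ C ∈ cs, 3 ≤ C.length) →
    ∃ cs' : List (List V), cs'.length = cs.length ∧ cs'.flatten.Perm cs.flatten ∧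
      (∀ C ∈ cs', C ≠ []) ∧ (∀ e, e ∈ cs'.flatMap ce ↔ e ∈ cs.flatMap ce) ∧
      ∀ e ∈ cs'.flatMap ce, e ∈ Fx → e ∈ cs'.flatMap pe := by
  induction cs with
  | nil =>
    intro _ _
    exact ⟨[], rfl, List.Perm.refl _, by simp, by simp, by simp⟩
  | cons C cs ih =>
    intro hnd h3
    obtain ⟨cs', i1, i2, i3, i4, i5⟩ := ih (fun D hD => hnd D (List.mem_cons_of_mem _ hD))
      fun D hD => h3 D (List.mem_cons_of_mem _ hD)
    obtain ⟨C', j1, j2, j3⟩ := cut_cycle C (hnd C List.mem_cons_self) (h3 C List.mem_cons_self)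
      Fx hFx
    refine ⟨C' :: cs', ?_, ?_, ?_, ?_, ?_⟩
    · rw [List.length_cons, List.length_cons, i1]
    · rw [List.flatten_cons, List.flatten_cons]
      exact j1.append i2
    · intro D hD
      rcases List.mem_cons.1 hD with rfl | hD
      · intro h0
        have h1 := j1.length_eq
        have h2 := h3 C List.mem_cons_self
        rw [h0, List.length_nil] at h1
        omega
      · exact i3 D hD
    · intro e
      rw [List.flatMap_cons, List.flatMap_cons, List.mem_append, List.mem_append, j2, i4]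
    · intro e he heF
      rw [List.flatMap_cons, List.mem_append] at he ⊢
      rcases he with he | he
      · exact Or.inl (j3 e he heF)
      · exact Or.inr (i5 e he heF)

variable {V κ : Type*} [DecidableEq V] [DecidableEq κ] [Fintype V]

/-- `forest_of` (`W_cd7020_h81b/GFoA.lean`) with the cycles cut by `cut_cycle`: for the structure
`⟨st.p, cs'⟩` with the rotated cycles. -/
theorem forest_ofK (Q : List V) (st : GS V) (hQ : Q.Nodup)
    (hperm : (st.p ++ st.cs.flatten).Perm Q) (hp : st.p ≠ []) (hne : ∀ C ∈ st.cs, 3 ≤ C.length)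
    (Fx : Finset (Sym2 V))
    (hFx : ∀ e ∈ Fx, ∀ e' ∈ Fx, ∀ x, x ∈ e → x ∈ e' → e = e') :
    ∃ F : Finset (Sym2 V), LF Q.toFinset F ∧ F.card + 1 + st.cs.length = Q.length ∧
      (∀ e ∈ F, e ∈ ae st) ∧ ∀ e ∈ ae st, e ∈ Fx → e ∈ F := by
  have hnd : (st.p ++ st.cs.flatten).Nodup := hperm.nodup_iff.2 hQ
  have hnd2 : ∀ C ∈ st.cs, C.Nodup :=
    (List.nodup_flatten.1 (List.nodup_append.1 hnd).2.1).1
  obtain ⟨cs', i1, i2, i3, i4, i5⟩ := KFor_list Fx hFx st.cs hnd2 hne
  obtain ⟨h1, h2, h3⟩ := forest_of Q ⟨st.p, cs'⟩ hQ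
    (((List.Perm.refl st.p).append i2).trans hperm) hp i3
  refine ⟨_, h1, ?_, ?_, ?_⟩
  · rw [← i1]
    exact h2
  · intro e he
    have h4 := h3 e he
    unfold ae at h4 ⊢
    rw [List.mem_append] at h4 ⊢
    rcases h4 with h4 | h4
    · exact Or.inl h4
    · exact Or.inr ((i4 e).1 h4)
  · intro e he heF
    rw [List.mem_toFinset, List.mem_append]
    unfold ae at he
    rw [List.mem_append] at he
    rcases he with he | he
    · exact Or.inl he
    · exact Or.inr (i5 e ((i4 e).2 he) heF)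

/-- `forest_end` (`W_cd7020_h81b/GFoB.lean`) with `forest_ofK`: the fixed edges which were not removed
are in the forest (`GInv.ae`). -/
theorem forest_endK (col : Sym2 V → κ) (Q : List V) (hQ : Q.Nodup) (h3 : 3 ≤ Q.length)
    (hrb : ∀ e ∈ ce Q, ∀ e' ∈ ce Q, col e = col e' → e = e')
    (mv : ℕ → κ × Bool) (hmv : ∀ j, ∀ e ∈ ce Q, col e ≠ (mv j).1) (z : V) (τ : Bool) (J : ℕ)
    (h : Alv col Q mv z τ J) (Fx : Finset (Sym2 V))
    (hFx : ∀ e ∈ Fx, ∀ e' ∈ Fx, ∀ x, x ∈ e → x ∈ e' → e = e') :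
    ∃ F : Finset (Sym2 V), LF Q.toFinset F ∧
      F.card + 1 + (sta col Q mv z τ J).cs.length = Q.length ∧ Rb col F ∧
      (∀ e ∈ F, (e ∈ ce Q ∧ ∀ i ≤ J, col e ≠ col (ed col Q mv z τ i)) ∨
        ∃ i < J, col e = (mv i).1) ∧
      ∀ e ∈ Fx, e ∈ ce Q → (∀ i ≤ J, e ≠ ed col Q mv z τ i) → e ∈ F := by
  have hI := inv_all col Q hQ h3 mv hmv z τ J J le_rfl h
  have hp : (sta col Q mv z τ J).p ≠ [] := by
    intro h0
    have h1 := hI.head
    rw [h0] at h1
    simp at h1
  obtain ⟨F, hLF, hcard, hae, hkeep⟩ :=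
    forest_ofK Q (sta col Q mv z τ J) hQ hI.perm hp hI.len Fx hFx
  refine ⟨F, hLF, hcard, ?_, ?_, ?_⟩
  · intro e he e' he' hcc
    rcases (hI.ae e).1 (hae e he) with ⟨h1, _⟩ | ⟨i, hi, h1⟩
    · rcases (hI.ae e').1 (hae e' he') with ⟨h2, _⟩ | ⟨i', hi', h2⟩
      · exact hrb e h1 e' h2 hcc
      · exfalso
        refine hmv i' e h1 ?_
        rw [hcc, h2]
        exact new_col col Q mv z τ J i' hi' h
    · rcases (hI.ae e').1 (hae e' he') with ⟨h2, _⟩ | ⟨i', hi', h2⟩
      · exfalso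
        refine hmv i e' h2 ?_
        rw [← hcc, h1]
        exact new_col col Q mv z τ J i hi h
      · have e1 : col e = (mv i).1 := by
          rw [h1]
          exact new_col col Q mv z τ J i hi h
        have e2 : col e' = (mv i').1 := by
          rw [h2]
          exact new_col col Q mv z τ J i' hi' h
        have e3 : (mv i).1 = (mv i').1 := by rw [← e1, ← e2, hcc]
        have e4 : i = i' := by
          rcases Nat.lt_trichotomy i i' with hlt | heq | hgt
          · exact absurd e3 (h.colr i i' hlt hi')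
          · exact heq
          · exact absurd e3.symm (h.colr i' i hgt hi)
        rw [h1, h2, e4]
  · intro e he
    rcases (hI.ae e).1 (hae e he) with ⟨h1, h2⟩ | ⟨i, hi, h1⟩
    · left
      refine ⟨h1, fun i hi hcc => ?_⟩
      exact h2 i hi (hrb e h1 _ (ed_ce col Q hQ mv z τ J i hi h) hcc)
    · right
      refine ⟨i, hi, ?_⟩
      rw [h1]
      exact new_col col Q mv z τ J i hi h
  · intro e he heQ hed
    exact hkeep e ((hI.ae e).2 (Or.inl ⟨heQ, hed⟩)) he

end Pool.Agent.W_cd7020_h81k
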