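import Pool.Agent.W_cd7020_h81k.KFor
import Pool.Agent.W_cd7020_h81b.GMain

/-!
# The group lemma with fixed edges
-/

set_option autoImplicit false

namespace Pool.Agent.W_cd7020_h81k

open Finset Pool.Agent.W_cd7020_h81 Pool.Agent.W_cd7020_h81b Pool.Agent.W_cd7020_h81c

variable {V κ : Type*} [DecidableEq V] [DecidableEq κ] [Fintype V]

open Classical in
/-- Copy of `group` (`W_cd7020_h81b/GMain.lean`) with `forest_endK`: the fixed edges whose colour was
not released are in the forest. -/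
theorem group_keep (col : Sym2 V → κ) (hcol : Proper col) (U : Finset V) (E : Finset (Sym2 V))
    (hE : Cyc U E) (hEU : E.card = U.card) (h3 : 3 ≤ U.card) (hrb : Rb col E) (R : Finset κ)
    (hR1 : 1 ≤ R.card) (hRn : R.card ≤ Fintype.card V) (a : ℝ) (ha : 0 ≤ a) (hR : NB col R a)
    (hRE : ∀ e ∈ E, col e ∉ R) (w : ℕ → κ) (hw : ∀ i, ∀ e ∈ E, col e ≠ w i)
    (t m μ v D₁ D₂ s s₁ : ℕ) (htm : t ≤ m)
    (hwi : ∀ i < t, ∀ j < t, w i = w j → i = j) (hwR : ∀ i, w i ∉ R)
    (hRm : ∀ k ∈ R, (univ.filter (fun x => par col k x = x)).card ≤ μ)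
    (hwm : ∀ i, (univ.filter (fun x => par col (w i) x = x)).card ≤ μ)
    (hv : Fintype.card V ≤ U.card + v) (hD₂ : 1 ≤ D₂)
    (hs : 1 ≤ s) (hs₁ : 1 ≤ s₁) (hD₁s : D₁ ≤ s₁) (hD₁ : D₁ + 2 < U.card)
    (hDs : 2 * (t + m + 1) * s ≤ D₁) (loss Mx erS erS₁ : ℝ)
    (hloss : (t + m) * (μ + v) / (U.card : ℝ) + 2 * (t + m + 1) ^ 2 / R.card ≤ loss)
    (herS : (a + 1) / R.card * Real.sqrt ((U.card / s + 1 : ℕ) * Fintype.card V / U.card) ≤ erS)
    (herS₁ : (a + 1) / R.card * Real.sqrt ((U.card / s₁ + 1 : ℕ) * Fintype.card V / U.card) ≤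
      erS₁)
    (hMx : (U.card : ℝ) / D₂ +
      m * (((D₂ + (t + m + 2) * s : ℕ) : ℝ) / Fintype.card V + erS) +
      t * (((12 * (t + 1) * s₁ : ℕ) : ℝ) / Fintype.card V + erS₁) +
      t * ((1 - D₁ / (2 * Fintype.card V)) ^ (m - t) +
        erS * (2 * Fintype.card V / D₁)) ≤ Mx) (Fx : Finset (Sym2 V)) (hFE : Fx ⊆ E)
    (hFx : ∀ e ∈ Fx, ∀ e' ∈ Fx, ∀ x, x ∈ e → x ∈ e' → e = e') :
    ∃ (Om al : Finset ((V × Bool) × (Fin m → κ × Bool)))
      (rel ub : (V × Bool) × (Fin m → κ × Bool) → ℕ → κ)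
      (N : (V × Bool) × (Fin m → κ × Bool) → ℕ)
      (F : (V × Bool) × (Fin m → κ × Bool) → Finset (Sym2 V)),
      Group col U E R w t m loss Mx Om al rel ub N F ∧
      ∀ o ∈ al, ∀ e ∈ Fx, (∀ i ≤ t + m, col e ≠ rel o i) → e ∈ F o := by
  obtain ⟨Q, hQ, hQU, hEQ⟩ := hE
  have hQf : Q.toFinset = U := by
    ext v
    rw [List.mem_toFinset, hQU]
  have hlen : Q.length = U.card := by
    rw [← hQf, List.toFinset_card_of_nodup hQ]
  have h3' : 3 ≤ Q.length := by omega
  have hEce : E = (ce Q).toFinset := by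
    refine Finset.eq_of_subset_of_card_le ?_ ?_
    · intro e he
      exact List.mem_toFinset.2 (hEQ e he)
    · refine (List.toFinset_card_le _).trans ?_
      rw [ce_length, hlen, hEU]
  have hmem : ∀ e, e ∈ E ↔ e ∈ ce Q := by
    intro e
    rw [hEce, List.mem_toFinset]
  have hrb' : ∀ e ∈ ce Q, ∀ e' ∈ ce Q, col e = col e' → e = e' := fun e he e' he' =>
    hrb e ((hmem e).2 he) e' ((hmem e').2 he')
  have hRQ : ∀ e ∈ ce Q, col e ∉ R := fun e he => hRE e ((hmem e).2 he)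
  have hw' : ∀ i, ∀ e ∈ ce Q, col e ≠ w i := fun i e he => hw i e ((hmem e).2 he)
  have hmv : ∀ o ∈ Om Q R m, ∀ j, ∀ e ∈ ce Q, col e ≠ (mw w t o j).1 := by
    intro o ho j e he hc
    rcases GFlB_col w t m j o.2 o rfl with ⟨i, hi⟩ | ⟨i, hi⟩
    · rw [hi] at hc
      have h1 := ((mem_Om Q R m o).1 ho).2 i
      rw [← hc] at h1
      exact hRQ e he h1
    · rw [hi] at hc
      exact hw' i e he hc
  have hOm : (Om Q R m).card = Q.length * 2 * (2 * R.card) ^ m := Om_card Q hQ R m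
  obtain ⟨al, hal⟩ : ∃ al, al = (Om Q R m).filter
    (fun o => Alv col Q (mw w t o) o.1.1 o.1.2 (t + m)) := ⟨_, rfl⟩
  have hal1 : ∀ o, o ∈ al ↔ o ∈ Om Q R m ∧ Alv col Q (mw w t o) o.1.1 o.1.2 (t + m) := by
    intro o
    rw [hal, Finset.mem_filter]
  have hforest : ∀ o : (V × Bool) × (Fin m → κ × Bool), ∃ F : Finset (Sym2 V), o ∈ al →
      (LF Q.toFinset F ∧
      F.card + 1 + (sta col Q (mw w t o) o.1.1 o.1.2 (t + m)).cs.length = Q.length ∧ Rb col F ∧
      (∀ e ∈ F, (e ∈ ce Q ∧ ∀ i ≤ t + m, col e ≠ col (ed col Q (mw w t o) o.1.1 o.1.2 i)) ∨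
        ∃ i < t + m, col e = (mw w t o i).1) ∧
      ∀ e ∈ Fx, e ∈ ce Q → (∀ i ≤ t + m, e ≠ ed col Q (mw w t o) o.1.1 o.1.2 i) → e ∈ F) := by
    intro o
    by_cases ho : o ∈ al
    · obtain ⟨F, hF⟩ := forest_endK col Q hQ h3' hrb' (mw w t o) (hmv o ((hal1 o).1 ho).1)
        o.1.1 o.1.2 (t + m) ((hal1 o).1 ho).2 Fx hFx
      exact ⟨F, fun _ => hF⟩
    · exact ⟨∅, fun h => absurd h ho⟩
  choose F hF using hforest
  have hub : ∀ o : (V × Bool) × (Fin m → κ × Bool), ∀ i, ∀ h : i < m,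
      (fun (o : (V × Bool) × (Fin m → κ × Bool)) (i : ℕ) => (mw w t o (ms t i)).1) o i =
        (o.2 ⟨i, h⟩).1 := by
    intro o i h
    have h1 := mw_ms w t o ⟨i, h⟩
    change (mw w t o (ms t i)).1 = _
    rw [← h1]
  obtain ⟨ub, hubdef⟩ : ∃ ub : (V × Bool) × (Fin m → κ × Bool) → ℕ → κ,
    ub = fun o i => (mw w t o (ms t i)).1 := ⟨_, rfl⟩
  rw [← hubdef] at hub
  obtain ⟨rel, hrel⟩ : ∃ rel : (V × Bool) × (Fin m → κ × Bool) → ℕ → κ,
    ∀ o i, rel o i = col (ed col Q (mw w t o) o.1.1 o.1.2 i) := ⟨_, fun _ _ => rfl⟩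
  have hedce : ∀ o ∈ al, ∀ i ≤ t + m, ed col Q (mw w t o) o.1.1 o.1.2 i ∈ ce Q :=
    fun o ho i hi => ed_ce col Q hQ _ _ _ _ _ hi ((hal1 o).1 ho).2
  have hU0 : (0 : ℝ) < U.card := by
    have : 0 < U.card := by omega
    exact_mod_cast this
  have hOmR : (0 : ℝ) ≤ (Om Q R m).card := Nat.cast_nonneg _
  refine ⟨Om Q R m, al, rel, ub,
    fun o => (sta col Q (mw w t o) o.1.1 o.1.2 (t + m)).cs.length, F, ?_, ?_⟩
  rotate_left
  · intro o ho e he h
    refine (hF o ho).2.2.2.2 e he ((hmem e).1 (hFE he)) fun i hi hc => h i hi ?_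
    rw [hrel, hc]
  refine ⟨?_, ?_, ?_, ?_, ?_, ?_, ?_, ?_, ?_, ?_, ?_, ?_, ?_, ?_⟩
  · rw [← Finset.card_pos, hOm]
    have : 0 < Q.length := by omega
    positivity
  · rw [hal]
    exact Finset.filter_subset _ _
  · have h1 := dead_count col hcol Q hQ h3' R hR1 w hw' t m μ v htm hwi hwR hRm hwm
      (by rw [hlen]; exact hv)
    have h2 : ((Om Q R m).card : ℝ) = al.card + ((Om Q R m).filter
        (fun o => ¬ Alv col Q (mw w t o) o.1.1 o.1.2 (t + m))).card := by
      rw [hal]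
      exact_mod_cast (Finset.card_filter_add_card_filter_not _).symm
    rw [hlen] at h1
    have h4 := mul_le_mul_of_nonneg_right hloss hOmR
    linarith
  · intro i hi k
    by_cases hk : ∃ e ∈ ce Q, col e = k
    · obtain ⟨e, he, hek⟩ := hk
      have h1 := flat_ed col hcol Q hQ h3' R w t m i e he
      have h2 : (al.filter (fun o => rel o i = k)).card ≤
          ((Om Q R m).filter (fun o => ed col Q (mw w t o) o.1.1 o.1.2 i = e)).card := by
        refine Finset.card_le_card fun o ho => ?_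
        obtain ⟨ho1, ho2⟩ := Finset.mem_filter.1 ho
        refine Finset.mem_filter.2 ⟨((hal1 o).1 ho1).1, ?_⟩
        refine hrb' _ (hedce o ho1 i hi) e he ?_
        rw [← hrel, ho2, hek]
      have h4 : U.card * (al.filter (fun o => rel o i = k)).card ≤ (Om Q R m).card := by
        rw [hOm, ← hlen, mul_assoc]
        exact Nat.mul_le_mul_left _ (h2.trans h1)
      exact_mod_cast h4
    · have h1 : al.filter (fun o => rel o i = k) = ∅ := by
        rw [Finset.filter_eq_empty_iff]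
        intro o ho hc
        exact hk ⟨_, hedce o ho i hi, by rw [← hrel, hc]⟩
      rw [h1, Finset.card_empty, Nat.cast_zero, mul_zero]
      exact hOmR
  · intro i hi k
    by_cases hk : k ∈ R
    · have h1 := flat_choice Q R m ⟨i, hi⟩ k hk
      have h2 : (al.filter (fun o => ub o i = k)).card ≤
          ((Om Q R m).filter (fun o => (o.2 ⟨i, hi⟩).1 = k)).card := by
        refine Finset.card_le_card fun o ho => ?_
        obtain ⟨ho1, ho2⟩ := Finset.mem_filter.1 ho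
        refine Finset.mem_filter.2 ⟨((hal1 o).1 ho1).1, ?_⟩
        rw [← hub o i hi, ho2]
      have h4 : R.card * (al.filter (fun o => ub o i = k)).card ≤ (Om Q R m).card := by
        rw [← h1]
        exact Nat.mul_le_mul_left _ h2
      exact_mod_cast h4
    · have h1 : al.filter (fun o => ub o i = k) = ∅ := by
        rw [Finset.filter_eq_empty_iff]
        intro o ho hc
        apply hk
        rw [← hc, hub o i hi]
        exact ((mem_Om Q R m o).1 ((hal1 o).1 ho).1).2 _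
      rw [h1, Finset.card_empty, Nat.cast_zero, mul_zero]
      exact hOmR
  · have h1 := count_sum col hcol Q hQ h3' R hR1 hRn a ha hR hRQ w hw' t m D₁ D₂ s s₁ htm hD₂
      hs hs₁ hD₁s (by rw [hlen]; exact hD₁) hDs
    rw [← hal] at h1
    refine h1.trans (mul_le_mul_of_nonneg_right (le_trans ?_ hMx) hOmR)
    have h2 : er Q R a s ≤ erS := by
      unfold er
      rw [hlen]
      exact herS
    have h4 : er Q R a s₁ ≤ erS₁ := by
      unfold er
      rw [hlen]
      exact herS₁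
    rw [hlen]
    gcongr
  · intro o ho i hi
    exact ⟨_, (hmem _).2 (hedce o ho i hi), (hrel o i).symm⟩
  · intro o ho i hi j hj hij
    rw [hrel, hrel] at hij
    have h1 := hrb' _ (hedce o ho i hi) _ (hedce o ho j hj) hij
    have h2 := ((hal1 o).1 ho).2
    rcases Nat.lt_trichotomy i j with h4 | h4 | h4
    · exact absurd h1 (h2.cut i j h4 hj)
    · exact h4
    · exact absurd h1.symm (h2.cut j i h4 hi)
  · intro o ho i hi
    rw [hub o i hi]
    exact ((mem_Om Q R m o).1 ((hal1 o).1 ho).1).2 _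
  · intro o ho i hi j hj hij
    have h2 := ((hal1 o).1 ho).2
    rw [hubdef] at hij
    rcases Nat.lt_trichotomy i j with h4 | h4 | h4
    · exact absurd hij (h2.colr _ _ (GMain_ms_inj t i j h4) (GMain_ms t m j htm hj))
    · exact h4
    · exact absurd hij.symm (h2.colr _ _ (GMain_ms_inj t j i h4) (GMain_ms t m i htm hi))
  · intro o ho
    have h1 := (hF o ho).1
    rw [hQf] at h1
    exact h1
  · intro o ho
    rw [← hlen]
    exact (hF o ho).2.1
  · intro o ho
    exact (hF o ho).2.2.1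
  · intro o ho e he
    rcases (hF o ho).2.2.2.1 e he with ⟨h1, h2⟩ | ⟨i, hi, h1⟩
    · left
      refine ⟨(hmem e).2 h1, fun i hi => ?_⟩
      rw [hrel]
      exact h2 i hi
    · right
      rcases ms_cases t m i htm hi with ⟨j, hj, hij⟩ | ⟨j, hj, hij⟩
      · left
        refine ⟨j, hj, ?_⟩
        rw [h1, hij, hubdef]
      · right
        refine ⟨j, hj, ?_⟩
        have h4 := mw_ms_succ w t o ⟨j, by omega⟩ hj
        rw [h1, hij]
        change (mw w t o (ms t j + 1)) = _ at h4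
        rw [h4]

/-- Restrict `al` to the `o` which do not release the colour of a fixed edge: by `relflat` at most
`(t + m + 1) |Fx| |Om| / |U|` elements are lost; all other fields of `Group` are inherited. -/
theorem groupK (col : Sym2 V → κ) (hcol : Proper col) (U : Finset V) (E : Finset (Sym2 V))
    (hE : Cyc U E) (hEU : E.card = U.card) (h3 : 3 ≤ U.card) (hrb : Rb col E) (R : Finset κ)
    (hR1 : 1 ≤ R.card) (hRn : R.card ≤ Fintype.card V) (a : ℝ) (ha : 0 ≤ a) (hR : NB col R a)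
    (hRE : ∀ e ∈ E, col e ∉ R) (w : ℕ → κ) (hw : ∀ i, ∀ e ∈ E, col e ≠ w i)
    (t m μ v D₁ D₂ s s₁ : ℕ) (htm : t ≤ m)
    (hwi : ∀ i < t, ∀ j < t, w i = w j → i = j) (hwR : ∀ i, w i ∉ R)
    (hRm : ∀ k ∈ R, (univ.filter (fun x => par col k x = x)).card ≤ μ)
    (hwm : ∀ i, (univ.filter (fun x => par col (w i) x = x)).card ≤ μ)
    (hv : Fintype.card V ≤ U.card + v) (hD₂ : 1 ≤ D₂)
    (hs : 1 ≤ s) (hs₁ : 1 ≤ s₁) (hD₁s : D₁ ≤ s₁) (hD₁ : D₁ + 2 < U.card)
    (hDs : 2 * (t + m + 1) * s ≤ D₁) (loss Mx erS erS₁ : ℝ) (Fx : Finset (Sym2 V))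
    (hFE : Fx ⊆ E) (hFx : ∀ e ∈ Fx, ∀ e' ∈ Fx, ∀ x, x ∈ e → x ∈ e' → e = e')
    (hloss : (t + m) * (μ + v) / (U.card : ℝ) + 2 * (t + m + 1) ^ 2 / R.card +
      (t + m + 1) * Fx.card / (U.card : ℝ) ≤ loss)
    (herS : (a + 1) / R.card * Real.sqrt ((U.card / s + 1 : ℕ) * Fintype.card V / U.card) ≤ erS)
    (herS₁ : (a + 1) / R.card * Real.sqrt ((U.card / s₁ + 1 : ℕ) * Fintype.card V / U.card) ≤
      erS₁)
    (hMx : (U.card : ℝ) / D₂ +
      m * (((D₂ + (t + m + 2) * s : ℕ) : ℝ) / Fintype.card V + erS) +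
      t * (((12 * (t + 1) * s₁ : ℕ) : ℝ) / Fintype.card V + erS₁) +
      t * ((1 - D₁ / (2 * Fintype.card V)) ^ (m - t) +
        erS * (2 * Fintype.card V / D₁)) ≤ Mx) :
    ∃ (Om al : Finset ((V × Bool) × (Fin m → κ × Bool)))
      (rel ub : (V × Bool) × (Fin m → κ × Bool) → ℕ → κ)
      (N : (V × Bool) × (Fin m → κ × Bool) → ℕ)
      (F : (V × Bool) × (Fin m → κ × Bool) → Finset (Sym2 V)),
      GroupK col U E Fx R w t m loss Mx Om al rel ub N F := by
  set x : ℝ := (t + m + 1) * Fx.card / (U.card : ℝ) with hx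
  obtain ⟨Om, al, rel, ub, N, F, hG, hK⟩ := group_keep col hcol U E hE hEU h3 hrb R hR1 hRn a ha hR
    hRE w hw t m μ v D₁ D₂ s s₁ htm hwi hwR hRm hwm hv hD₂ hs hs₁ hD₁s hD₁ hDs (loss - x) Mx erS
    erS₁ (by linarith) herS herS₁ hMx Fx hFE hFx
  set al' : Finset ((V × Bool) × (Fin m → κ × Bool)) :=
    al.filter (fun o => ∀ e ∈ Fx, ∀ i ≤ t + m, col e ≠ rel o i) with hal'
  have hsub : al' ⊆ al := filter_subset _ _
  have hU0 : (0 : ℝ) < U.card := by
    have : 0 < U.card := by omega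
    exact_mod_cast this
  have hOm0 : (0 : ℝ) ≤ Om.card := Nat.cast_nonneg _
  have hlost : ((al.card : ℝ) - al'.card) ≤ x * Om.card := by
    have h1 : (al.card : ℝ) = al'.card +
        (al.filter (fun o => ¬ ∀ e ∈ Fx, ∀ i ≤ t + m, col e ≠ rel o i)).card := by
      exact_mod_cast (Finset.card_filter_add_card_filter_not _).symm
    have h2 : al.filter (fun o => ¬ ∀ e ∈ Fx, ∀ i ≤ t + m, col e ≠ rel o i) ⊆
        (Fx ×ˢ range (t + m + 1)).biUnion
          (fun y => al.filter (fun o => rel o y.2 = col y.1)) := by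
      intro o ho
      obtain ⟨ho1, ho2⟩ := mem_filter.1 ho
      push Not at ho2
      obtain ⟨e, he, i, hi, h⟩ := ho2
      exact mem_biUnion.2 ⟨(e, i), mem_product.2 ⟨he, mem_range.2 (by omega)⟩,
        mem_filter.2 ⟨ho1, h.symm⟩⟩
    have h3 : ((al.filter (fun o => ¬ ∀ e ∈ Fx, ∀ i ≤ t + m, col e ≠ rel o i)).card : ℝ) ≤
        ∑ y ∈ Fx ×ˢ range (t + m + 1), ((al.filter (fun o => rel o y.2 = col y.1)).card : ℝ) := by
      exact_mod_cast (card_le_card h2).trans card_biUnion_le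
    have h4 : ∀ y ∈ Fx ×ˢ range (t + m + 1),
        ((al.filter (fun o => rel o y.2 = col y.1)).card : ℝ) ≤ Om.card / U.card := by
      intro y hy
      have h5 := mem_range.1 (mem_product.1 hy).2
      rw [le_div_iff₀ hU0, mul_comm]
      exact hG.relflat y.2 (by omega) (col y.1)
    have h5 := h3.trans (sum_le_sum h4)
    rw [sum_const, card_product, card_range, nsmul_eq_mul] at h5
    have h6 : ((Fx.card * (t + m + 1) : ℕ) : ℝ) * (Om.card / U.card) = x * Om.card := by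
      rw [hx]
      push_cast
      ring
    rw [h6] at h5
    linarith
  refine ⟨Om, al', rel, ub, N, F, ⟨hG.ne, hsub.trans hG.sub, ?_, ?_, ?_, ?_,
    fun o ho => hG.relmem o (hsub ho), fun o ho => hG.relinj o (hsub ho),
    fun o ho => hG.ubmem o (hsub ho), fun o ho => hG.ubinj o (hsub ho),
    fun o ho => hG.lf o (hsub ho), fun o ho => hG.card o (hsub ho),
    fun o ho => hG.rb o (hsub ho), fun o ho => hG.cols o (hsub ho)⟩, ?_, ?_⟩
  · have := hG.dead
    linarith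
  · intro i hi k
    refine le_trans ?_ (hG.relflat i hi k)
    refine mul_le_mul_of_nonneg_left ?_ hU0.le
    exact_mod_cast card_le_card (filter_subset_filter _ hsub)
  · intro i hi k
    refine le_trans ?_ (hG.ubflat i hi k)
    refine mul_le_mul_of_nonneg_left ?_ (Nat.cast_nonneg _)
    exact_mod_cast card_le_card (filter_subset_filter _ hsub)
  · exact (sum_le_sum_of_subset_of_nonneg hsub (fun _ _ _ => Nat.cast_nonneg _)).trans hG.cost
  · intro o ho e he
    exact hK o (hsub ho) e he fun i hi => (mem_filter.1 ho).2 e he i hi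
  · intro o ho i hi
    obtain ⟨e, he, h⟩ := hG.relmem o (hsub ho) i hi
    refine mem_image.2 ⟨e, mem_sdiff.2 ⟨he, fun hc => ?_⟩, h⟩
    exact (mem_filter.1 ho).2 e hc i hi h

end Pool.Agent.W_cd7020_h81k
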