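import Pool.Agent.W_cd7020_h81k.KDefs
import Pool.Agent.W_cd7020_h81k.KSmp

/-!
# The initial pools
-/

set_option autoImplicit false

namespace Pool.Agent.W_cd7020_h81k

open Finset Pool.Agent.W_cd7020_h81 Pool.Agent.W_cd7020_h81b Pool.Agent.W_cd7020_h81c

variable {V κ : Type*} [DecidableEq V] [DecidableEq κ] [Fintype V]

/-- The initial pools; adapt `init_pools` (`W_cd7020_h81b/InA.lean`): `sampleG` with `C₀ ⊆ Q` of
`min |Q| n ≥ n - μ` elements (`2 |C₀| ≥ n`), `Y = YM col` (`YM_herm`, `YM_norm`), `g = 3 μ` (`full_qf`; `∑ Y` is `SM`),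
`bad k = {x | par k x = x ∨ par k x ∈ W}`, `q = 0`, `h = μ + P.v` (`SmpA_bad`),
`k = kA + 5 kB`, the sizes `kA, kB, kB, kB, kB, kB`; then `PsG_bounds` with `X = 12 (1 + δ') ^ k`:
`log (24 n (1 + δ') ^ k) / lam ≤ a₁`; `16 cntB ≤ 16 a₁ ≤ kB`. -/
theorem init_poolsK (col : Sym2 V → κ) (Q : Finset κ) (P : Prm (Fintype.card V)) (v₀ a : ℕ)
    (hI : IPrmK P v₀ a) (hQ : GoodK col Q P.μ) (W : Finset V) (hW : W.card ≤ P.v) :
    ∃ (R : Finset κ) (B : Fin 5 → Finset κ), R ⊆ Q ∧ R.card = P.kA ∧ NB col R P.a₁ ∧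
      BP col Q W P.kB P.a₁ B ∧ ∀ i, Disjoint R (B i) := by
  obtain ⟨δ', hδ0, hδ1, hδ2⟩ := hI.hδ
  have hn6 : 6 ≤ Fintype.card V := P.n3
  have hnN : 0 < Fintype.card V := by omega
  have hn0 : (0 : ℝ) < Fintype.card V := by exact_mod_cast hnN
  set sz : Fin 6 → ℕ := Fin.cons P.kA (fun _ => P.kB) with hsz
  have hsum : ∑ i, sz i = P.kA + 5 * P.kB := by
    rw [Fin.sum_univ_succ]
    simp [hsz]
  -- the set `C₀`
  obtain ⟨C₀, hC₀Q, hC₀c⟩ : ∃ C₀ ⊆ Q, C₀.card = min Q.card (Fintype.card V) :=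
    Finset.exists_subset_card_eq (min_le_left _ _)
  have hlarge := hQ.large
  have hμn := hI.μn
  have hkn := hI.kn
  have hC₀n : C₀.card ≤ Fintype.card V := by omega
  have hC₀l : Fintype.card V ≤ C₀.card + P.μ := by omega
  have hC₀2 : Fintype.card V ≤ 2 * C₀.card := by omega
  have hC₀r : (Fintype.card V : ℝ) ≤ 2 * C₀.card := by exact_mod_cast hC₀2
  have hC₀0 : (0 : ℝ) < C₀.card := by linarith
  have hC₀lr : (Fintype.card V : ℝ) ≤ C₀.card + P.μ := by exact_mod_cast hC₀l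
  have hmiss : ∀ x, (C₀.filter (fun k => par col k x = x)).card ≤ P.μ := fun x =>
    (Finset.card_le_card (Finset.filter_subset_filter _ hC₀Q)).trans (hQ.missv x)
  have hμ0 : (0 : ℝ) ≤ P.μ := Nat.cast_nonneg _
  have hv0 : (0 : ℝ) ≤ P.v := Nat.cast_nonneg _
  set k : ℕ := P.kA + 5 * P.kB with hk
  have hk0 : (0 : ℝ) ≤ k := Nat.cast_nonneg _
  -- the bad vertices
  set bad : κ → Finset V := fun c => univ.filter (fun x => par col c x = x ∨ par col c x ∈ W)
    with hbad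
  have hbadc : ∀ (S : Finset κ) (x : V), (S.filter (fun c => x ∈ bad c)).card = cntB col W S x := by
    intro S x
    unfold cntB
    congr 1
    apply Finset.filter_congr
    intro c _
    simp [hbad]
  have hg : ∀ v : V → ℝ, |∑ c ∈ C₀, qf (YM col c) v v| ≤ (3 * (P.μ : ℝ)) * ∑ x, v x ^ 2 := by
    intro v
    have h1 := full_qf col hQ.proper C₀ P.μ hC₀n hmiss v
    have h2 : qf (SM col C₀) v v = ∑ c ∈ C₀, qf (YM col c) v v := by
      unfold SM
      rw [qf_sum]
    rw [h2] at h1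
    refine h1.trans (mul_le_mul_of_nonneg_right ?_ (Finset.sum_nonneg fun x _ => sq_nonneg _))
    linarith
  have hbd : ∀ x, ((C₀.filter (fun c => x ∈ bad c)).card : ℝ) ≤
      (0 : ℝ) * C₀.card + ((P.μ : ℝ) + P.v) := by
    intro x
    have h1 := SmpA_bad col C₀ P.μ x (hmiss x) W
    have h2 : (C₀.filter (fun c => x ∈ bad c)).card ≤ P.μ + P.v := by
      rw [hbadc]
      unfold cntB
      omega
    have h3 : ((C₀.filter (fun c => x ∈ bad c)).card : ℝ) ≤ ((P.μ + P.v : ℕ) : ℝ) := by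
      exact_mod_cast h2
    push_cast at h3
    linarith
  have hδ : (1 + 2 * (k : ℝ) / C₀.card) * (1 + 8 * P.lam ^ 2 +
      2 * P.lam * ((3 * (P.μ : ℝ) + ((P.μ : ℝ) + P.v) + 2 * k) / C₀.card)) ≤ 1 + δ' := by
    refine le_trans ?_ hδ1
    have e1 : 2 * (k : ℝ) / C₀.card ≤ 4 * ((P.kA + 5 * P.kB : ℕ) : ℝ) / Fintype.card V := by
      rw [div_le_div_iff₀ hC₀0 hn0, ← hk]
      nlinarith
    have e2 : (3 * (P.μ : ℝ) + ((P.μ : ℝ) + P.v) + 2 * k) / C₀.card ≤
        2 * ((4 * P.μ + P.v + 2 * (P.kA + 5 * P.kB : ℕ)) / Fintype.card V) := by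
      rw [← hk, ← mul_div_assoc, div_le_div_iff₀ hC₀0 hn0]
      have : (0 : ℝ) ≤ 4 * P.μ + P.v + 2 * (k : ℝ) := by positivity
      nlinarith
    have e3 : 2 * P.lam * ((3 * (P.μ : ℝ) + ((P.μ : ℝ) + P.v) + 2 * k) / C₀.card) ≤
        4 * P.lam * ((4 * P.μ + P.v + 2 * (P.kA + 5 * P.kB : ℕ)) / Fintype.card V) := by
      have := mul_le_mul_of_nonneg_left e2 (by linarith [P.lam0] : (0 : ℝ) ≤ 2 * P.lam)
      linarith
    have e4 : (0 : ℝ) ≤ 2 * P.lam * ((3 * (P.μ : ℝ) + ((P.μ : ℝ) + P.v) + 2 * k) / C₀.card) := by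
      have := P.lam0
      positivity
    apply mul_le_mul (by linarith) (by linarith) (by nlinarith [sq_nonneg P.lam])
    have : (0 : ℝ) ≤ 4 * ((P.kA + 5 * P.kB : ℕ) : ℝ) / Fintype.card V := by positivity
    linarith
  obtain ⟨A, hA1, hA2, hA3, hA4⟩ := sampleG C₀ (YM col) (YM_herm col)
    (fun c v => YM_norm col hQ.proper c v) (3 * (P.μ : ℝ)) (by positivity) hg bad (fun _ => 0)
    (fun _ => le_refl _) (fun _ => zero_le_one) ((P.μ : ℝ) + P.v) (by positivity) hbd P.lam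
    P.lam0.le hI.lam1 sz k (le_of_eq hsum) (by omega) (by omega) δ' hδ0 hδ
  have hE : PsG (YM col) bad (fun _ => 0) P.lam A ≤ 12 * Real.exp (P.T * P.δ) := by
    refine hA4.trans ?_
    have h1 : (1 + δ') ^ k ≤ Real.exp (P.T * P.δ) := by
      calc (1 + δ') ^ k ≤ (Real.exp δ') ^ k := by
            apply pow_le_pow_left₀ (by linarith)
            have := Real.add_one_le_exp δ'
            linarith
        _ = Real.exp ((k : ℕ) * δ') := by
            rw [← Real.exp_nat_mul]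
        _ ≤ Real.exp (P.T * P.δ) := Real.exp_le_exp.2 hδ2
    linarith
  have hlog : ∀ c : ℝ, 0 < c → c ≤ 40 →
      Real.log (c * (Real.exp (P.T * P.δ) * Fintype.card V)) / P.lam ≤ P.a₁ := by
    intro c hc hc40
    unfold Prm.a₁
    apply div_le_div_of_nonneg_right _ P.lam0.le
    have h1 : c * (Real.exp (P.T * P.δ) * Fintype.card V) ≤
        Real.exp (P.T * P.δ) * (40 * Fintype.card V) := by
      have := mul_le_mul_of_nonneg_right hc40
        (mul_nonneg (Real.exp_pos (P.T * P.δ)).le hn0.le)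
      linarith
    refine (Real.log_le_log (by positivity) h1).trans ?_
    rw [Real.log_mul (Real.exp_pos _).ne' (by positivity), Real.log_exp]
    linarith
  have hB := fun i => PsG_bounds (YM col) (YM_herm col) bad (fun _ => 0) P.lam P.lam0 A
    (12 * Real.exp (P.T * P.δ)) (by positivity) hnN hE i
  have hNB : ∀ i, NB col (A i) P.a₁ := by
    intro i f g
    have h1 := (hB i).1 f g
    refine h1.trans ?_
    have h2 := hlog 24 (by norm_num) (by norm_num)
    have h3 : 2 * (12 * Real.exp (P.T * P.δ) * (Fintype.card V : ℝ)) =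
        24 * (Real.exp (P.T * P.δ) * Fintype.card V) := by ring
    rw [h3]
    apply mul_le_mul_of_nonneg_right _ (Real.sqrt_nonneg _)
    exact mul_le_mul_of_nonneg_right h2 (Real.sqrt_nonneg _)
  have hdeg : ∀ i x, 16 * cntB col W (A i) x ≤ P.kB := by
    intro i x
    have h1 := (hB i).2 x
    rw [hbadc, mul_zero, zero_add] at h1
    have h3 := hlog 12 (by norm_num) (by norm_num)
    have h7 : 12 * Real.exp (P.T * P.δ) * (Fintype.card V : ℝ) =
        12 * (Real.exp (P.T * P.δ) * Fintype.card V) := by ring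
    rw [h7] at h1
    have h4 : (cntB col W (A i) x : ℝ) ≤ P.a₁ := h1.trans h3
    have h5 := P.hBd
    have h6 : (16 * cntB col W (A i) x : ℝ) ≤ (P.T * P.u : ℝ) := by
      have : P.a₁ = (Real.log (40 * (Fintype.card V : ℝ)) + P.T * P.δ) / P.lam := rfl
      rw [this] at h4
      linarith
    unfold Prm.kB
    exact_mod_cast h6
  refine ⟨A 0, fun i => A i.succ, (hA1 0).trans hC₀Q, ?_, hNB 0,
    ⟨fun i => (hA1 _).trans hC₀Q, fun i => ?_, ?_,
    fun i => hNB _, fun i x => hdeg _ x⟩, fun i => hA3 _ _ (Fin.succ_ne_zero i).symm⟩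
  · rw [hA2]
    simp [hsz]
  · rw [hA2]
    simp [hsz]
  · intro i j hij
    exact hA3 _ _ (fun h => hij (Fin.succ_injective _ h))

end Pool.Agent.W_cd7020_h81k
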