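import Pool.Agent.W_cd7020_h81k.KDefs
import Pool.Agent.W_cd7020_h81b.MidA

/-!
# The state in an epoch
-/

set_option autoImplicit false

namespace Pool.Agent.W_cd7020_h81k

open Finset Pool.Agent.W_cd7020_h81 Pool.Agent.W_cd7020_h81b Pool.Agent.W_cd7020_h81c

variable {V κ : Type*} [DecidableEq V] [DecidableEq κ] [Fintype V]

/-- The waste colours; adapt `waste` (`W_cd7020_h81b/MidA.lean`). The colours of `E` in `Q` are the
`|U| - |Fx|` colours of `E \ Fx`. -/
theorem wasteK (col : Sym2 V → κ) (Q : Finset κ) (P : Prm (Fintype.card V)) (V' U : Finset V)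
    (Fx : Finset (Sym2 V)) (hF : Fix col Q Fx)
    (B : Fin 5 → Finset κ) (hB : BP col Q (V' ∪ vF Fx) P.kB P.a₁ B) (g : ℕ) (hg : g < P.T)
    (E : Finset (Sym2 V)) (R : Finset κ) (A : Fin 6 → Finset κ) (C : ℕ)
    (hM : MidK col Q V' Fx P U B g E R A C) (hK : U.card + P.K ≤ Q.card + Fx.card) :
    ∃ w : ℕ → κ, (∀ i < P.t, ∀ j < P.t, w i = w j → i = j) ∧ ∀ i, w i ∈ Q ∧
      w i ∉ cE col E ∧ w i ∉ R ∧ (∀ j, w i ∉ B j) ∧ ∀ j, w i ∉ A j := by
  set W : Finset κ := Q \ (cE col (E \ Fx) ∪ R ∪ univ.biUnion B ∪ univ.biUnion A) with hW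
  have hcard : P.t ≤ W.card := by
    have h1 : (cE col (E \ Fx) ∪ R ∪ univ.biUnion B ∪ univ.biUnion A).card + P.t ≤ Q.card := by
      have e1 : (cE col (E \ Fx)).card + Fx.card ≤ U.card := by
        have h1 : (cE col (E \ Fx)).card ≤ (E \ Fx).card := Finset.card_image_le
        have h2 : (E \ Fx).card + Fx.card = E.card := Finset.card_sdiff_add_card_eq_card hM.fix
        rw [← hM.card]
        omega
      have e2 : R.card ≤ P.kA := by
        have := hM.Rcard
        omega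
      have e3 : (univ.biUnion B).card ≤ 5 * P.kB := by
        refine Finset.card_biUnion_le.trans ?_
        rw [Finset.sum_congr rfl (fun i _ => hB.card i), Finset.sum_const, Finset.card_univ,
          Fintype.card_fin, smul_eq_mul]
      have e4 : (univ.biUnion A).card ≤ P.T * (P.t + P.m + 1) := by
        refine Finset.card_biUnion_le.trans ?_
        rw [Finset.sum_congr rfl (fun i _ => hM.Acard i), ← Finset.mul_sum, MidA_IX]
        exact Nat.mul_le_mul_right _ hg.le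
      have e5 : (cE col (E \ Fx) ∪ R ∪ univ.biUnion B ∪ univ.biUnion A).card ≤
          (cE col (E \ Fx)).card + R.card + (univ.biUnion B).card + (univ.biUnion A).card := by
        refine (Finset.card_union_le _ _).trans (add_le_add ?_ le_rfl)
        refine (Finset.card_union_le _ _).trans (add_le_add ?_ le_rfl)
        exact Finset.card_union_le _ _
      have e6 : P.K = P.kA + 5 * P.kB + P.T * (P.t + P.m + 1) + P.t := rfl
      omega
    have h2 := Finset.le_card_sdiff (cE col (E \ Fx) ∪ R ∪ univ.biUnion B ∪ univ.biUnion A) Q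
    rw [hW]
    omega
  obtain ⟨W', hW', hW'c⟩ := Finset.exists_subset_card_eq hcard
  have ht := P.t1
  let f := (W'.equivFinOfCardEq hW'c).symm
  refine ⟨fun i => (f ⟨i % P.t, Nat.mod_lt _ ht⟩ : κ), ?_, ?_⟩
  · intro i hi j hj h
    have h1 := f.injective (Subtype.ext h)
    have h2 : i % P.t = j % P.t := congrArg Fin.val h1
    rwa [Nat.mod_eq_of_lt hi, Nat.mod_eq_of_lt hj] at h2
  · intro i
    have h1 := hW' (f ⟨i % P.t, Nat.mod_lt _ ht⟩).2
    rw [hW] at h1
    obtain ⟨h2, h3⟩ := Finset.mem_sdiff.1 h1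
    simp only [Finset.mem_union, not_or] at h3
    obtain ⟨⟨⟨h4, h5⟩, h6⟩, h7⟩ := h3
    refine ⟨h2, ?_, h5, fun j hj => h6 ?_, fun j hj => h7 ?_⟩
    · intro h8
      unfold cE at h8 h4
      obtain ⟨e, he, hec⟩ := Finset.mem_image.1 h8
      by_cases heF : e ∈ Fx
      · exact hF.cQ e heF (hec ▸ h2)
      · exact h4 (Finset.mem_image.2 ⟨e, Finset.mem_sdiff.2 ⟨he, heF⟩, hec⟩)
    · exact Finset.mem_biUnion.2 ⟨j, Finset.mem_univ _, hj⟩
    · exact Finset.mem_biUnion.2 ⟨j, Finset.mem_univ _, hj⟩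

/-- Copy of `mid_norm` (`W_cd7020_h81b/MidA.lean`). -/
theorem mid_normK (col : Sym2 V → κ) (Q : Finset κ) (P : Prm (Fintype.card V)) (V' U : Finset V)
    (Fx : Finset (Sym2 V))
    (B : Fin 5 → Finset κ) (g : ℕ) (hg : g ≤ P.T) (E : Finset (Sym2 V)) (R : Finset κ)
    (A : Fin 6 → Finset κ) (C : ℕ) (hM : MidK col Q V' Fx P U B g E R A C) :
    NB col R (2 * P.a₁) := by
  have hn : (0 : ℝ) < Fintype.card V := by
    have := P.n3
    have : 0 < Fintype.card V := by omega
    exact_mod_cast this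
  have hT : (0 : ℝ) < P.T := by
    have := P.T1
    exact_mod_cast this
  have hM1 : (0 : ℝ) < P.M := by
    have := P.M1
    exact_mod_cast this
  have hδ := P.δ0
  have hlam := P.lam0
  have hpow : (0 : ℝ) < (1 + P.δ) ^ g := by positivity
  have h1 : Phi col (V' ∪ vF Fx) P R A / (1 + P.δ) ^ g ≤ 15 := by
    have h2 := hM.phi
    have h3 : (0 : ℝ) ≤ (C : ℝ) / (3 * P.M * P.T : ℝ) := by positivity
    have h4 : (g : ℝ) / (P.T : ℝ) ≤ 1 := by
      rw [div_le_one hT]
      exact_mod_cast hg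
    linarith
  have h2 : Phi col (V' ∪ vF Fx) P R A ≤ 15 * (1 + P.δ) ^ g := by
    rwa [div_le_iff₀ hpow] at h1
  have h3 : (1 + P.δ) ^ g ≤ Real.exp (P.T * P.δ) := by
    have h4 : (1 + P.δ) ^ g ≤ (1 + P.δ) ^ P.T := pow_le_pow_right₀ (by linarith) hg
    refine h4.trans ?_
    have h5 : 1 + P.δ ≤ Real.exp P.δ := by
      have := Real.add_one_le_exp P.δ
      linarith
    have h6 : (1 + P.δ) ^ P.T ≤ (Real.exp P.δ) ^ P.T :=
      pow_le_pow_left₀ (by linarith) h5 _
    rwa [← Real.exp_nat_mul] at h6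
  have h4 : pot (SM col R) P.lam ≤
      15 * Real.exp (P.T * P.δ) * (Fintype.card V * Real.exp (P.lam * P.a₁)) := by
    have h5 := (MidA_Phi col (V' ∪ vF Fx) P R A).trans (h2.trans (mul_le_mul_of_nonneg_left h3 (by norm_num)))
    have h6 : (0 : ℝ) < Fintype.card V * Real.exp (P.lam * P.a₁) :=
      mul_pos hn (Real.exp_pos _)
    rwa [div_le_iff₀ h6] at h5
  intro f g'
  refine (norm_of_pot (SM col R) (SM_herm col R) P.lam _ hlam h4 f g').trans ?_
  have h5 : Real.log (2 * (15 * Real.exp (P.T * P.δ) *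
      (Fintype.card V * Real.exp (P.lam * P.a₁)))) / P.lam ≤ 2 * P.a₁ := by
    rw [div_le_iff₀ hlam]
    have e1 : 2 * (15 * Real.exp (P.T * P.δ) *
      (Fintype.card V * Real.exp (P.lam * P.a₁))) =
        (30 * Fintype.card V) * Real.exp (P.T * P.δ + P.lam * P.a₁) := by
      rw [Real.exp_add]
      ring
    rw [e1, Real.log_mul (by positivity) (Real.exp_ne_zero _), Real.log_exp]
    have e2 : P.lam * P.a₁ = Real.log (40 * (Fintype.card V : ℝ)) + P.T * P.δ := by
      unfold Prm.a₁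
      field_simp
    have e3 : Real.log (30 * (Fintype.card V : ℝ)) ≤ Real.log (40 * (Fintype.card V : ℝ)) :=
      Real.log_le_log (by positivity) (by nlinarith)
    have e4 : 2 * P.a₁ * P.lam = P.lam * P.a₁ + P.lam * P.a₁ := by ring
    rw [e4]
    linarith
  have h6 : 0 ≤ nr f := Real.sqrt_nonneg _
  have h7 : 0 ≤ nr g' := Real.sqrt_nonneg _
  exact mul_le_mul_of_nonneg_right (mul_le_mul_of_nonneg_right h5 h6) h7

/-- Copy of `mid_cost`. -/
theorem mid_costK (col : Sym2 V → κ) (Q : Finset κ) (P : Prm (Fintype.card V)) (V' U : Finset V)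
    (Fx : Finset (Sym2 V))
    (B : Fin 5 → Finset κ) (g : ℕ) (hg : g ≤ P.T) (E : Finset (Sym2 V)) (R : Finset κ)
    (A : Fin 6 → Finset κ) (C : ℕ) (hM : MidK col Q V' Fx P U B g E R A C) :
    C ≤ 45 * P.M * P.T := by
  have hT : (0 : ℝ) < P.T := by
    have := P.T1
    exact_mod_cast this
  have hM1 : (0 : ℝ) < P.M := by
    have := P.M1
    exact_mod_cast this
  have hδ := P.δ0
  have hpow : (0 : ℝ) < (1 + P.δ) ^ g := by positivity
  have h2 := hM.phi
  have h3 : 0 ≤ Phi col (V' ∪ vF Fx) P R A / (1 + P.δ) ^ g :=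
    div_nonneg (MidA_Phi0 col (V' ∪ vF Fx) P R A) hpow.le
  have h4 : (g : ℝ) / (P.T : ℝ) ≤ 1 := by
    rw [div_le_one hT]
    exact_mod_cast hg
  have h5 : (C : ℝ) / (3 * P.M * P.T : ℝ) ≤ 15 := by linarith
  rw [div_le_iff₀ (by positivity)] at h5
  have h6 : (C : ℝ) ≤ ((45 * P.M * P.T : ℕ) : ℝ) := by
    push_cast
    linarith
  exact_mod_cast h6

end Pool.Agent.W_cd7020_h81k
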