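import Pool.Agent.W_cd7020_h81k.KMidA
import Pool.Agent.W_cd7020_h81k.KGrp
import Pool.Agent.W_cd7020_h81b.MidB

/-!
# The group of the current state
-/

set_option autoImplicit false

namespace Pool.Agent.W_cd7020_h81k

open Finset Pool.Agent.W_cd7020_h81 Pool.Agent.W_cd7020_h81b Pool.Agent.W_cd7020_h81c

variable {V κ : Type*} [DecidableEq V] [DecidableEq κ] [Fintype V]

/-- `mid_group` (`W_cd7020_h81b/MidB.lean`) with `groupK`, `v = v₀`. The loss: `P.hloss` and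
`(t + m) (μ + v₀) / |U| + (t + m + 1) f / |U| ≤ 2 (t + m) (μ + v₀ + 2 f) / n ≤ 2 (t + m) (μ + P.v) / n`. -/
theorem mid_groupK (col : Sym2 V → κ) (Q : Finset κ) (P : Prm (Fintype.card V)) (v₀ f : ℕ)
    (hP : PK P v₀ f) (hQ : GoodK col Q P.μ) (V' : Finset V) (hV' : V'.card ≤ v₀) (U : Finset V)
    (hV'U : univ \ V' ⊆ U) (Fx : Finset (Sym2 V)) (hF : Fix col Q Fx) (hf : Fx.card ≤ f)
    (B : Fin 5 → Finset κ) (g : ℕ) (hg : g < P.T)
    (E : Finset (Sym2 V)) (R : Finset κ) (A : Fin 6 → Finset κ) (C : ℕ)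
    (hM : MidK col Q V' Fx P U B g E R A C) (w : ℕ → κ)
    (hwi : ∀ i < P.t, ∀ j < P.t, w i = w j → i = j) (hw : ∀ i, w i ∈ Q ∧
      w i ∉ cE col E ∧ w i ∉ R) :
    ∃ (Om al : Finset ((V × Bool) × (Fin P.m → κ × Bool)))
      (rel ub : (V × Bool) × (Fin P.m → κ × Bool) → ℕ → κ)
      (N : (V × Bool) × (Fin P.m → κ × Bool) → ℕ)
      (F : (V × Bool) × (Fin P.m → κ × Bool) → Finset (Sym2 V)),
      GroupK col U E Fx R w P.t P.m P.loss (P.M : ℝ) Om al rel ub N F := by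
  have hvf := hP.vf
  have hv₀ : v₀ ≤ P.v := by omega
  have hUv := MidB_U V' U v₀ hV' hV'U
  have hn3 := P.n3
  have hvn := P.vn
  have hnU : Fintype.card V ≤ 2 * U.card := by omega
  have hUn : U.card ≤ Fintype.card V := card_le_univ U
  have hU1 : 1 ≤ U.card := by omega
  obtain ⟨hR1, hRn, ht1⟩ := MidB_R P g R.card hg hM.Rcard
  have hT1 := P.T1
  have htu := P.tu
  have ht1' := P.t1
  have hU0 : (0 : ℝ) < (U.card : ℝ) := by exact_mod_cast hU1
  have hn0 : (0 : ℝ) < (Fintype.card V : ℝ) := by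
    have : 0 < Fintype.card V := by omega
    exact_mod_cast this
  have hnU' : (Fintype.card V : ℝ) ≤ 2 * U.card := by exact_mod_cast hnU
  have hUn' : (U.card : ℝ) ≤ Fintype.card V := by exact_mod_cast hUn
  have hq1 : 1 ≤ P.T * (P.t + 1 - 5 * P.u) := Nat.mul_pos hT1 ht1
  have hcast : ((P.T * (P.t + 1 - 5 * P.u) : ℕ) : ℝ) = P.T * (P.t + 1 - 5 * P.u) := by
    rw [Nat.cast_mul, Nat.cast_sub (by omega)]
    push_cast
    ring
  have hq0 : (0 : ℝ) < P.T * (P.t + 1 - 5 * P.u) := by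
    rw [← hcast]
    exact_mod_cast hq1
  have hqR : (P.T * (P.t + 1 - 5 * P.u) : ℝ) ≤ R.card := by
    rw [← hcast]
    exact_mod_cast hR1
  have hR0 : (0 : ℝ) < R.card := lt_of_lt_of_le hq0 hqR
  have ha : 0 ≤ P.a₁ := by
    unfold Prm.a₁
    refine div_nonneg (add_nonneg (Real.log_nonneg ?_) (mul_nonneg (Nat.cast_nonneg _) P.δ0))
      P.lam0.le
    have : (1 : ℝ) ≤ Fintype.card V := by
      have : 1 ≤ Fintype.card V := by omega
      exact_mod_cast this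
    linarith
  have hmiss : ∀ k ∈ Q, (univ.filter (fun x => par col k x = x)).card ≤ P.μ := hQ.missc
  refine groupK col hQ.proper U E hM.cyc hM.card (by omega) hM.rb R (by omega) hRn (2 * P.a₁)
    (by linarith) (mid_normK col Q P V' U Fx B g hg.le E R A C hM) ?_ w ?_ P.t P.m P.μ v₀ P.D₁
    P.D₂ P.s P.s₁ P.tm hwi (fun i => (hw i).2.2) (fun k hk => hmiss k (hM.Rsub hk))
    (fun i => hmiss _ (hw i).1) hUv P.D₂1 P.s1 P.s₁1 P.D₁s ?_ P.Ds P.loss P.M P.eS P.eS₁ Fx hM.fix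
    hF.mat ?_ ?_ ?_ ?_
  · intro e he h
    exact (disjoint_left.1 hM.RE h) (mem_image_of_mem col he)
  · intro i e he h
    exact (hw i).2.1 (h ▸ mem_image_of_mem col he)
  · have := P.D₁n
    omega
  · have h1 : ((P.t : ℝ) + P.m) * (P.μ + v₀) / U.card +
        ((P.t : ℝ) + P.m + 1) * Fx.card / U.card ≤
        2 * ((P.t : ℝ) + P.m) * (P.μ + P.v) / Fintype.card V := by
      rw [← add_div, div_le_div_iff₀ hU0 hn0]
      have e1 : (1 : ℝ) ≤ P.t := by exact_mod_cast ht1'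
      have e2 : (0 : ℝ) ≤ P.m := Nat.cast_nonneg _
      have e3 : (Fx.card : ℝ) ≤ f := by exact_mod_cast hf
      have e4 : (0 : ℝ) ≤ Fx.card := Nat.cast_nonneg _
      have e5 : (v₀ : ℝ) + 2 * f ≤ P.v := by exact_mod_cast hvf
      have e6 : (0 : ℝ) ≤ P.μ := Nat.cast_nonneg _
      have e7 : (0 : ℝ) ≤ v₀ := Nat.cast_nonneg _
      have e8 : ((P.t : ℝ) + P.m) * (P.μ + v₀) + ((P.t : ℝ) + P.m + 1) * Fx.card ≤
          ((P.t : ℝ) + P.m) * (P.μ + P.v) := by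
        have e9 : ((P.t : ℝ) + P.m + 1) * Fx.card ≤ (2 * ((P.t : ℝ) + P.m)) * f := by
          refine mul_le_mul (by linarith) e3 e4 (by linarith)
        nlinarith
      have e10 : (0 : ℝ) ≤ ((P.t : ℝ) + P.m) * (P.μ + P.v) := by positivity
      calc (((P.t : ℝ) + P.m) * (P.μ + v₀) + ((P.t : ℝ) + P.m + 1) * Fx.card) * Fintype.card V
          ≤ (((P.t : ℝ) + P.m) * (P.μ + P.v)) * (2 * U.card) :=
            mul_le_mul e8 hnU' hn0.le e10
        _ = 2 * ((P.t : ℝ) + P.m) * (P.μ + P.v) * U.card := by ring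
    have h2 : 2 * ((P.t : ℝ) + P.m + 1) ^ 2 / R.card ≤
        2 * ((P.t : ℝ) + P.m + 1) ^ 2 / (P.T * (P.t + 1 - 5 * P.u)) :=
      div_le_div_of_nonneg_left (by positivity) hq0 hqR
    have h3 := P.hloss
    linarith
  · exact MidB_er _ _ _ _ _ _ _ (by omega) P.s1 hUn hnU (by linarith) hq0 hqR P.heS
  · exact MidB_er _ _ _ _ _ _ _ (by omega) P.s₁1 hUn hnU (by linarith) hq0 hqR P.heS₁
  · refine le_trans ?_ P.hM
    have h1 : (U.card : ℝ) / P.D₂ ≤ (Fintype.card V : ℝ) / P.D₂ :=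
      div_le_div_of_nonneg_right hUn' (Nat.cast_nonneg _)
    linarith

end Pool.Agent.W_cd7020_h81k
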