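import Pool.Agent.W_cd7020_h81k.KDefs
import Pool.Agent.W_cd7020_h81b.SelA

/-!
# The average of the bad colours at a vertex
-/

set_option autoImplicit false

namespace Pool.Agent.W_cd7020_h81k

open Finset Pool.Agent.W_cd7020_h81 Pool.Agent.W_cd7020_h81b Pool.Agent.W_cd7020_h81c

variable {V κ : Type*} [DecidableEq V] [DecidableEq κ] [Fintype V]

open Classical in
/-- the number of bad colours of `C₀` at a vertex -/
theorem KSelD_bad (col : Sym2 V → κ) (C₀ : Finset κ) (μ : ℕ)
    (hμ : ∀ x, (C₀.filter (fun k => par col k x = x)).card ≤ μ) (V' : Finset V)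
    (vv : ℕ) (hv : V'.card ≤ vv) (x : V) :
    (C₀.filter (fun k => par col k x = x ∨ par col k x ∈ V')).card ≤ μ + vv := by
  have h1 : C₀.filter (fun k => par col k x = x ∨ par col k x ∈ V') ⊆
      C₀.filter (fun k => par col k x = x) ∪
        C₀.filter (fun k => par col k x ≠ x ∧ par col k x ∈ V') := by
    intro k hk
    rw [mem_filter] at hk
    rw [mem_union, mem_filter, mem_filter]
    by_cases h : par col k x = x
    · exact Or.inl ⟨hk.1, h⟩
    · exact Or.inr ⟨hk.1, h, hk.2.resolve_left h⟩
  have h2 : (C₀.filter (fun k => par col k x ≠ x ∧ par col k x ∈ V')).card ≤ V'.card := by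
    apply card_le_card_of_injOn (fun k => par col k x)
    · intro k hk
      rw [mem_coe, mem_filter] at hk
      exact hk.2.2
    · intro k hk k' _ he
      rw [mem_coe, mem_filter] at hk
      exact par_colour_inj col k k' x hk.2.1 he
  calc _ ≤ _ := card_le_card h1
    _ ≤ _ := card_union_le _ _
    _ ≤ μ + vv := Nat.add_le_add (hμ x) (h2.trans hv)

open Classical in
/-- `avg_deg` (`W_cd7020_h81b/SelA3.lean`) with a set `C₀` of released colours in place of `cE col E` and
`u` in place of `|U|`; `W` in place of `V'`. -/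
theorem avg_degK (col : Sym2 V → κ) (hcol : Proper col) (C₀ : Finset κ) (μ : ℕ)
    (hμ : ∀ x, (C₀.filter (fun k => par col k x = x)).card ≤ μ) (W : Finset V)
    (u : ℕ) (hu1 : 1 ≤ u) (vv : ℕ) (hv : W.card ≤ vv)
    {Ω : Type*} (Om al : Finset Ω) (hsub : al ⊆ Om) (rel : Ω → ℕ → κ) (I : Finset ℕ)
    (hflat : ∀ i ∈ I, ∀ k, (u : ℝ) * (al.filter (fun o => rel o i = k)).card ≤ Om.card)
    (hmem : ∀ o ∈ al, ∀ i ∈ I, rel o i ∈ C₀) (A : Finset κ) (lam : ℝ) (hlam : 0 ≤ lam)
    (hx : lam * (2 * I.card) ≤ 1) (x : V) :
    ∑ o ∈ Om, Real.exp (lam * cntB col W (if o ∈ al then A ∪ I.image (rel o) else A) x) ≤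
      Om.card * Real.exp (lam * cntB col W A x) *
        (1 + 2 * (lam * (I.card * ((μ + vv) / (u : ℝ))))) := by
  set bad : κ → Prop := fun k => par col k x = x ∨ par col k x ∈ W with hbad
  set inc : Ω → ℝ := fun o => ((I.filter (fun i => bad (rel o i))).card : ℝ) with hinc
  have hU : (0 : ℝ) < u := by exact_mod_cast hu1
  set c : ℝ := (cntB col W A x : ℝ) with hc
  have hinc0 : ∀ o, 0 ≤ inc o := fun o => Nat.cast_nonneg _
  have hincI : ∀ o, inc o ≤ I.card := fun o => by
    simp only [hinc]
    exact_mod_cast card_filter_le _ _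
  have h1 : ∀ o, Real.exp (lam * cntB col W (if o ∈ al then A ∪ I.image (rel o) else A) x) ≤
      Real.exp (lam * c) * (1 + if o ∈ al then 2 * (lam * inc o) else 0) := by
    intro o
    by_cases ho : o ∈ al
    · rw [if_pos ho, if_pos ho]
      have h2 : (cntB col W (A ∪ I.image (rel o)) x : ℝ) ≤ c + inc o := by
        have h3 : cntB col W (A ∪ I.image (rel o)) x ≤
            cntB col W A x + (I.filter (fun i => bad (rel o i))).card := by
          unfold cntB
          rw [filter_union]
          refine (card_union_le _ _).trans (Nat.add_le_add le_rfl ?_)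
          rw [filter_image]
          exact card_image_le
        simp only [hinc, hc]
        exact_mod_cast h3
      calc Real.exp (lam * cntB col W (A ∪ I.image (rel o)) x)
          ≤ Real.exp (lam * (c + inc o)) :=
            Real.exp_le_exp.2 (mul_le_mul_of_nonneg_left h2 hlam)
        _ = Real.exp (lam * c) * Real.exp (lam * inc o) := by
            rw [mul_add, Real.exp_add]
        _ ≤ Real.exp (lam * c) * (1 + 2 * (lam * inc o)) := by
            refine mul_le_mul_of_nonneg_left (SelA3_exp _ (mul_nonneg hlam (hinc0 o)) ?_)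
              (Real.exp_pos _).le
            have h4 := mul_le_mul_of_nonneg_left (hincI o) hlam
            have h5 : 0 ≤ lam * I.card := mul_nonneg hlam (Nat.cast_nonneg _)
            linarith
    · rw [if_neg ho, if_neg ho, add_zero, mul_one]
  have h2 : ∑ o ∈ al, inc o ≤ I.card * ((μ + vv) / (u : ℝ)) * Om.card := by
    have h3 : ∑ o ∈ al, inc o = ∑ i ∈ I, ((al.filter (fun o => bad (rel o i))).card : ℝ) := by
      simp only [hinc, card_filter, Nat.cast_sum]
      rw [sum_comm]
    rw [h3]
    have h4 : ∀ i ∈ I, ((al.filter (fun o => bad (rel o i))).card : ℝ) ≤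
        ((μ + vv) / (u : ℝ)) * Om.card := by
      intro i hi
      have h5 : (al.filter (fun o => bad (rel o i))).card =
          ∑ k ∈ C₀.filter bad, (al.filter (fun o => rel o i = k)).card := by
        rw [card_eq_sum_card_fiberwise (f := fun o => rel o i) (t := C₀.filter bad)]
        · refine sum_congr rfl fun k hk => ?_
          rw [mem_filter] at hk
          congr 1
          ext o
          simp only [mem_filter]
          constructor
          · rintro ⟨⟨h6, _⟩, h7⟩
            exact ⟨h6, h7⟩
          · rintro ⟨h6, h7⟩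
            exact ⟨⟨h6, h7 ▸ hk.2⟩, h7⟩
        · intro o ho
          rw [mem_coe, mem_filter] at ho
          rw [mem_coe, mem_filter]
          exact ⟨hmem o ho.1 i hi, ho.2⟩
      have h6 : ∀ k, ((al.filter (fun o => rel o i = k)).card : ℝ) ≤ Om.card / u := by
        intro k
        rw [le_div_iff₀ hU, mul_comm]
        exact hflat i hi k
      have h7 : ((C₀.filter bad).card : ℝ) ≤ μ + vv := by
        exact_mod_cast KSelD_bad col C₀ μ hμ W vv hv x
      rw [h5, Nat.cast_sum]
      calc ∑ k ∈ C₀.filter bad, ((al.filter (fun o => rel o i = k)).card : ℝ)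
          ≤ ∑ k ∈ C₀.filter bad, (Om.card : ℝ) / u := sum_le_sum fun k _ => h6 k
        _ = (C₀.filter bad).card * ((Om.card : ℝ) / u) := by
            rw [sum_const, nsmul_eq_mul]
        _ ≤ (μ + vv) * ((Om.card : ℝ) / u) :=
            mul_le_mul_of_nonneg_right h7 (by positivity)
        _ = ((μ + vv) / (u : ℝ)) * Om.card := by ring
    calc ∑ i ∈ I, ((al.filter (fun o => bad (rel o i))).card : ℝ)
        ≤ ∑ i ∈ I, ((μ + vv) / (u : ℝ)) * Om.card := sum_le_sum h4
      _ = _ := by
        rw [sum_const, nsmul_eq_mul]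
        ring
  calc ∑ o ∈ Om, Real.exp (lam * cntB col W (if o ∈ al then A ∪ I.image (rel o) else A) x)
      ≤ ∑ o ∈ Om, Real.exp (lam * c) * (1 + if o ∈ al then 2 * (lam * inc o) else 0) :=
        sum_le_sum fun o _ => h1 o
    _ = Real.exp (lam * c) * (Om.card + 2 * (lam * ∑ o ∈ al, inc o)) := by
        rw [← mul_sum, sum_add_distrib, sum_const, nsmul_eq_mul, mul_one]
        congr 2
        rw [← sum_filter]
        have h3 : Om.filter (fun o => o ∈ al) = al := by
          ext o
          rw [mem_filter]
          exact ⟨fun h => h.2, fun h => ⟨hsub h, h⟩⟩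
        rw [h3, mul_sum, mul_sum]
    _ ≤ Real.exp (lam * c) * (Om.card + 2 * (lam *
          (I.card * ((μ + vv) / (u : ℝ)) * Om.card))) := by
        refine mul_le_mul_of_nonneg_left ?_ (Real.exp_pos _).le
        have := mul_le_mul_of_nonneg_left h2 hlam
        linarith
    _ = _ := by ring

end Pool.Agent.W_cd7020_h81k
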