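import Pool.Agent.W_cd7020_h81k.KSelN
import Pool.Agent.W_cd7020_h81k.KSelD
import Pool.Agent.W_cd7020_h81b.SelB

/-!
# The average of the potential over a group
-/

set_option autoImplicit false

namespace Pool.Agent.W_cd7020_h81k

open Finset Pool.Agent.W_cd7020_h81 Pool.Agent.W_cd7020_h81b Pool.Agent.W_cd7020_h81c

variable {V κ : Type*} [DecidableEq V] [DecidableEq κ] [Fintype V]

open Classical in
/-- `phi_avg` (`W_cd7020_h81b/SelB.lean`) with `avg_newK`, `avg_degK` for the set `C₀` of released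
colours, `u = |U|`, `vv = P.v`, and `W` in place of `V'`. -/
theorem phi_avgK (col : Sym2 V → κ) (hcol : Proper col) (P : Prm (Fintype.card V))
    (C₀ : Finset κ) (hμ : ∀ x, (C₀.filter (fun k => par col k x = x)).card ≤ P.μ)
    (W : Finset V) (hW : W.card ≤ P.v) (U : Finset V) (hCU : C₀.card ≤ U.card)
    (hC : Fintype.card V ≤ C₀.card + P.v) (E : Finset (Sym2 V)) (R : Finset κ)
    (hR1 : 1 ≤ R.card) (w : ℕ → κ) (Mx : ℝ) {Ω : Type*} (Om al : Finset Ω)
    (rel ub : Ω → ℕ → κ) (N : Ω → ℕ) (F : Ω → Finset (Sym2 V))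
    (hG : Group col U E R w P.t P.m P.loss Mx Om al rel ub N F)
    (hrel : ∀ o ∈ al, ∀ i ≤ P.t + P.m, rel o i ∈ C₀) (A : Fin 6 → Finset κ)
    (hAE : ∀ i, Disjoint (A i) C₀) :
    ∑ o ∈ Om, Phi col W P (if o ∈ al then R \ (range P.m).image (ub o) else R)
      (fun i => if o ∈ al then A i ∪ (P.IX i).image (rel o) else A i) ≤
    Om.card * Phi col W P R A *
      (1 + 8 * (P.lam ^ 2 * (P.t + P.m + 1) ^ 2) + 2 * (P.lam * ((P.t + P.m + 1) *
        (2 * (2 * P.v + P.μ) / (Fintype.card V : ℝ) + 2 * P.loss)))) := by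
  have hn3 := P.n3
  have hvn := P.vn
  have hUn : U.card ≤ Fintype.card V := card_le_univ U
  have hnU : Fintype.card V ≤ 2 * U.card := by omega
  have hU1 : 1 ≤ U.card := by omega
  have hlam := P.lam0.le
  have hloss := SelB_loss P
  have hn0 : (0 : ℝ) < (Fintype.card V : ℝ) := by
    have : 0 < Fintype.card V := by omega
    exact_mod_cast this
  have hU0 : (0 : ℝ) < (U.card : ℝ) := by exact_mod_cast hU1
  have hnU' : (Fintype.card V : ℝ) ≤ 2 * U.card := by exact_mod_cast hnU
  have hIXle : ∀ i : Fin 6, ∀ j ∈ P.IX i, j ≤ P.t + P.m := by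
    intro i j hj
    have := mem_range.1 (IX_sub P i hj)
    omega
  have hstep : ∀ c : ℕ, c ≤ P.t + P.m + 1 → P.lam * (2 * c) ≤ 1 := by
    intro c hc
    have hc' : (c : ℝ) ≤ P.t + P.m + 1 := by exact_mod_cast hc
    refine le_trans ?_ P.lamx
    exact mul_le_mul_of_nonneg_left (by linarith) hlam
  have hdivU : ∀ r : ℝ, 0 ≤ r → r / (U.card : ℝ) ≤ 2 * r / (Fintype.card V : ℝ) := by
    intro r hr
    rw [div_le_div_iff₀ hU0 hn0]
    nlinarith
  set FF : ℝ := 1 + 8 * (P.lam ^ 2 * (P.t + P.m + 1) ^ 2) + 2 * (P.lam * ((P.t + P.m + 1) *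
        (2 * (2 * P.v + P.μ) / (Fintype.card V : ℝ) + 2 * P.loss))) with hFF
  have hdel : ∑ o ∈ Om, pot (SM col (if o ∈ al then R \ (range P.m).image (ub o) else R)) P.lam ≤
      Om.card * pot (SM col R) P.lam * FF := by
    refine (avg_del col hcol Om al hG.sub P.loss hG.dead R hR1 ub P.m hG.ubflat hG.ubmem
      hG.ubinj P.lam hlam (hstep P.m (by omega))).trans ?_
    refine mul_le_mul_of_nonneg_left ?_ (mul_nonneg (Nat.cast_nonneg _) (pot_pos _ _))
    refine SelB_fac P P.m (by omega) _ ?_ (by positivity)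
    have : 0 ≤ 2 * (2 * P.v + P.μ) / (Fintype.card V : ℝ) := by positivity
    linarith
  have hnew : ∀ i, ∑ o ∈ Om, pot (SM col
      (if o ∈ al then A i ∪ (P.IX i).image (rel o) else A i)) P.lam ≤
      Om.card * pot (SM col (A i)) P.lam * FF := by
    intro i
    refine (avg_newK col hcol C₀ P.μ hμ U.card hU1 hCU hUn P.v hC Om al hG.sub P.loss hG.dead rel (P.IX i)
      (fun j hj => hG.relflat j (hIXle i j hj)) (fun o ho j hj => hrel o ho j (hIXle i j hj))
      (A i) P.lam hlam (hstep _ (SelB_IX P i))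
      (fun o ho j hj j' hj' => hG.relinj o ho j (hIXle i j hj) j' (hIXle i j' hj'))
      (hAE i)).trans ?_
    refine mul_le_mul_of_nonneg_left ?_ (mul_nonneg (Nat.cast_nonneg _) (pot_pos _ _))
    refine SelB_fac P _ (SelB_IX P i) _ ?_ (by positivity)
    have := hdivU (2 * P.v + P.μ) (by positivity)
    linarith
  have hdeg : ∀ i x, ∑ o ∈ Om, Real.exp (P.lam * cntB col W
      (if o ∈ al then A i ∪ (P.IX i).image (rel o) else A i) x) ≤
      Om.card * Real.exp (P.lam * cntB col W (A i) x) * FF := by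
    intro i x
    refine (avg_degK col hcol C₀ P.μ hμ W U.card hU1 P.v hW Om al hG.sub rel (P.IX i)
      (fun j hj => hG.relflat j (hIXle i j hj)) (fun o ho j hj => hrel o ho j (hIXle i j hj))
      (A i) P.lam hlam (hstep _ (SelB_IX P i)) x).trans ?_
    refine mul_le_mul_of_nonneg_left ?_ (mul_nonneg (Nat.cast_nonneg _) (Real.exp_pos _).le)
    have h1 := SelB_fac P _ (SelB_IX P i) ((P.μ + P.v) / (U.card : ℝ)) ?_ (by positivity)
    · have h2 : 0 ≤ 2 * (P.lam ^ 2 * (2 * ((P.IX i).card : ℝ)) ^ 2) := by positivity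
      linarith
    · have h2 := hdivU (P.μ + P.v) (by positivity)
      have h3 : 2 * ((P.μ : ℝ) + P.v) / (Fintype.card V : ℝ) ≤
          2 * (2 * P.v + P.μ) / (Fintype.card V : ℝ) := by
        refine div_le_div_of_nonneg_right ?_ hn0.le
        have : (0 : ℝ) ≤ P.v := Nat.cast_nonneg _
        linarith
      linarith
  unfold Phi
  rw [sum_add_distrib, sum_add_distrib, ← sum_div, sum_comm, sum_comm (s := Om)]
  have e1 : ∀ a b c : ℝ, (Om.card : ℝ) * (a + b + c) * FF =
      Om.card * a * FF + Om.card * b * FF + Om.card * c * FF := by intros; ring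
  rw [e1]
  refine add_le_add (add_le_add ?_ ?_) ?_
  · refine (div_le_div_of_nonneg_right hdel (by positivity)).trans (le_of_eq ?_)
    ring
  · rw [mul_sum, sum_mul]
    refine sum_le_sum (fun i _ => ?_)
    rw [← sum_div]
    refine (div_le_div_of_nonneg_right (hnew i) (by positivity)).trans (le_of_eq ?_)
    ring
  · rw [mul_sum, sum_mul]
    refine sum_le_sum (fun i _ => ?_)
    rw [← sum_div, sum_comm]
    have h1 : ∑ x, ∑ o ∈ Om, Real.exp (P.lam * cntB col W
      (if o ∈ al then A i ∪ (P.IX i).image (rel o) else A i) x) ≤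
        Om.card * (∑ x, Real.exp (P.lam * cntB col W (A i) x)) * FF := by
      rw [mul_sum, sum_mul]
      exact sum_le_sum (fun x _ => hdeg i x)
    refine (div_le_div_of_nonneg_right h1 (by positivity)).trans (le_of_eq ?_)
    ring

end Pool.Agent.W_cd7020_h81k
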